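import Pool.Agent.H781.H6.G

/-!
Project H6 (MP_4a593f_gt), task H6-16 (helper227): orthonormal frames of the tangent spaces.
-/

set_option autoImplicit false
set_option synthInstance.maxHeartbeats 400000
set_option maxHeartbeats 4000000
set_option linter.unusedSectionVars false

open Bundle Manifold ContDiff VectorField MeasureTheory Filter
open scoped Topology

noncomputable section

namespace Pool.Agent.H781.H6

open Pool.Agent.H781.NG Pool.Agent.H781.CM Pool.Agent.H821R2 Pool.Agent.H821R3
  Pool.Agent.H893R5.HO Pool.Agent.H781.S22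

namespace Frm

section lin

variable {V : Type} [AddCommGroup V] [Module ℝ V]

/-- an orthonormal basis of a positive definite form -/
theorem exists_on [FiniteDimensional ℝ V] {n : ℕ} (hn : Module.finrank ℝ V = n)
    (B : V →ₗ[ℝ] V →ₗ[ℝ] ℝ) (hs : ∀ u v, B u v = B v u) (hp : ∀ v, v ≠ 0 → 0 < B v v) :
    ∃ f : Fin n → V, ∀ i j, B (f i) (f j) = if i = j then 1 else 0 := by
  classical
  subst hn
  have hsym : B.IsSymm := ⟨fun u v => hs u v⟩
  obtain ⟨v, hv⟩ := LinearMap.BilinForm.exists_orthogonal_basis (B := B) hsym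
  refine ⟨fun i => (1 / √(B (v i) (v i))) • v i, fun i j => ?_⟩
  rw [map_smul, map_smul, LinearMap.smul_apply, smul_eq_mul, smul_eq_mul]
  by_cases hij : i = j
  · subst hij
    rw [if_pos rfl]
    have h1 : 0 < B (v i) (v i) := hp _ (v.ne_zero i)
    have h2 : √(B (v i) (v i)) ≠ 0 := (Real.sqrt_pos.2 h1).ne'
    have h3 : √(B (v i) (v i)) * √(B (v i) (v i)) = B (v i) (v i) := Real.mul_self_sqrt h1.le
    field_simp
    rw [sq, h3]
  · rw [if_neg hij]
    have h1 : B (v i) (v j) = 0 := hv hij
    rw [h1, mul_zero, mul_zero]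

theorem lin0 {N : ℕ} {X : Fin N → V} (B : V →ₗ[ℝ] V →ₗ[ℝ] ℝ)
    (par : ∀ v, ∑ a, B v (X a) • X a = v) (L : V → ℝ) (hL : IsLinearMap ℝ L)
    (h : ∀ a, L (X a) = 0) (v : V) : L v = 0 := by
  have h1 : hL.mk' L = 0 := Gcurv.span_zero B par (hL.mk' L) h
  have h2 := LinearMap.congr_fun h1 v
  exact h2

/-- a 4-linear form which vanishes on the frame is zero -/
theorem lin4 {N : ℕ} {X : Fin N → V} (B : V →ₗ[ℝ] V →ₗ[ℝ] ℝ)
    (par : ∀ v, ∑ a, B v (X a) • X a = v) (L : V → V → V → V → ℝ)
    (h1 : ∀ v w z, IsLinearMap ℝ fun u => L u v w z)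
    (h2 : ∀ u w z, IsLinearMap ℝ fun v => L u v w z)
    (h3 : ∀ u v z, IsLinearMap ℝ fun w => L u v w z)
    (h4 : ∀ u v w, IsLinearMap ℝ fun z => L u v w z)
    (h : ∀ a b c d, L (X a) (X b) (X c) (X d) = 0) (u v w z : V) : L u v w z = 0 :=
  lin0 B par (fun u => L u v w z) (h1 v w z) (fun a =>
    lin0 B par (fun v => L (X a) v w z) (h2 (X a) w z) (fun b =>
      lin0 B par (fun w => L (X a) (X b) w z) (h3 (X a) (X b) z) (fun c =>
        lin0 B par (fun z => L (X a) (X b) (X c) z) (h4 (X a) (X b) (X c)) (fun d =>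
          h a b c d) z) w) v) u

/-- pair symmetry -/
theorem pair {m : ℕ} (R : T4 m) (a12 : ∀ a b c d, R a b c d = - R b a c d)
    (a34 : ∀ a b c d, R a b c d = - R a b d c)
    (bi : ∀ a b c d, R a b c d + R b c a d + R c a b d = 0) (a b c d : Fin m) :
    R a b c d = R c d a b := by
  have e1 := bi a b c d
  have e2 := bi b c d a
  have e3 := bi c d a b
  have e4 := bi d a b c
  have f1 := a34 b c d a
  have f2 := a34 c d b a
  have f3 := a12 d b c a
  have f4 := a34 b d c a
  have f5 := a34 d a c b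
  have f6 := a12 a c d b
  have f7 := a34 c a d b
  have f8 := a34 a b d c
  linarith only [e1, e2, e3, e4, f1, f2, f3, f4, f5, f6, f7, f8]

/-- the linear algebra of the frames -/
theorem core {n N : ℕ} [FiniteDimensional ℝ V] (hn : Module.finrank ℝ V = n)
    (B : V →ₗ[ℝ] V →ₗ[ℝ] ℝ) (R : V →ₗ[ℝ] V →ₗ[ℝ] V →ₗ[ℝ] V)
    (hBs : ∀ u v, B u v = B v u) (X : Fin N → V) (par : ∀ v, ∑ a, B v (X a) • X a = v)
    (f : Fin n → V) (hf : ∀ i j, B (f i) (f j) = if i = j then 1 else 0)
    (Rm : Fin N → Fin N → Fin N → Fin N → ℝ)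
    (hT : ∀ a b c d, ∑ c', B (X c) (X c') * Rm a b c' d = B (R (X a) (X b) (X c)) (X d))
    (hR3 : ∀ a b c d, Rm a b c d = - Rm b a c d)
    (hR1 : ∀ a b c d, ∑ c', B (X c) (X c') * Rm a b c' d = ∑ d', B (X d) (X d') * Rm a b c d')
    (hR4 : ∀ a b c d, Rm a b c d = - Rm a b d c)
    (hbi : ∀ a b c d, ∑ c', B (X c) (X c') * Rm a b c' d + ∑ c', B (X a) (X c') * Rm b c c' d +
      ∑ c', B (X b) (X c') * Rm c a c' d = 0) :
    ON (fun i a => B (f i) (X a)) ∧
    (∀ a c, B (X a) (X c) = ∑ i, B (f i) (X a) * B (f i) (X c)) ∧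
    (∀ i j k l, R4 Rm (fun a => B (f i) (X a)) (fun a => B (f j) (X a)) (fun a => B (f k) (X a))
      (fun a => B (f l) (X a)) = B (R (f i) (f j) (f k)) (f l)) ∧
    IsAC (fun i j k l => B (R (f i) (f j) (f k)) (f l)) := by
  classical
  -- Parseval
  have pars : ∀ v w, ∑ a, B v (X a) * B (X a) w = B v w := by
    intro v w
    have h := congrArg (fun u => B u w) (par v)
    simp only [map_sum, LinearMap.sum_apply, map_smul, LinearMap.smul_apply, smul_eq_mul] at h
    exact h
  -- symmetries on the frame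
  have hTs : ∀ a b c d, B (R (X a) (X b) (X c)) (X d) = - B (R (X b) (X a) (X c)) (X d) := by
    intro a b c d
    rw [← hT, ← hT, ← Finset.sum_neg_distrib]
    refine Finset.sum_congr rfl fun c' _ => ?_
    rw [hR3 a b]
    ring
  have hTs' : ∀ a b c d, B (R (X a) (X b) (X c)) (X d) = - B (R (X a) (X b) (X d)) (X c) := by
    intro a b c d
    rw [← hT, ← hT, hR1, ← Finset.sum_neg_distrib]
    refine Finset.sum_congr rfl fun c' _ => ?_
    rw [hR4 a b]
    ring
  have hTb : ∀ a b c d, B (R (X a) (X b) (X c)) (X d) + B (R (X b) (X c) (X a)) (X d) +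
      B (R (X c) (X a) (X b)) (X d) = 0 := by
    intro a b c d
    rw [← hT, ← hT, ← hT]
    exact hbi a b c d
  have g12 : ∀ u v w z, B (R u v w) z + B (R v u w) z = 0 :=
    lin4 B par (fun u v w z => B (R u v w) z + B (R v u w) z)
      (fun v w z => ⟨fun x y => by simp only [map_add, LinearMap.add_apply]; ring,
        fun c x => by simp only [map_smul, LinearMap.smul_apply, smul_eq_mul]; ring⟩)
      (fun u w z => ⟨fun x y => by simp only [map_add, LinearMap.add_apply]; ring,
        fun c x => by simp only [map_smul, LinearMap.smul_apply, smul_eq_mul]; ring⟩)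
      (fun u v z => ⟨fun x y => by simp only [map_add, LinearMap.add_apply]; ring,
        fun c x => by simp only [map_smul, LinearMap.smul_apply, smul_eq_mul]; ring⟩)
      (fun u v w => ⟨fun x y => by simp only [map_add]; ring,
        fun c x => by simp only [map_smul, smul_eq_mul]; ring⟩)
      (fun a b c d => by rw [hTs a b c d]; ring)
  have g34 : ∀ u v w z, B (R u v w) z + B (R u v z) w = 0 :=
    lin4 B par (fun u v w z => B (R u v w) z + B (R u v z) w)
      (fun v w z => ⟨fun x y => by simp only [map_add, LinearMap.add_apply]; ring,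
        fun c x => by simp only [map_smul, LinearMap.smul_apply, smul_eq_mul]; ring⟩)
      (fun u w z => ⟨fun x y => by simp only [map_add, LinearMap.add_apply]; ring,
        fun c x => by simp only [map_smul, LinearMap.smul_apply, smul_eq_mul]; ring⟩)
      (fun u v z => ⟨fun x y => by simp only [map_add, LinearMap.add_apply]; ring,
        fun c x => by simp only [map_smul, LinearMap.smul_apply, smul_eq_mul]; ring⟩)
      (fun u v w => ⟨fun x y => by simp only [map_add, LinearMap.add_apply]; ring,
        fun c x => by simp only [map_smul, LinearMap.smul_apply, smul_eq_mul]; ring⟩)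
      (fun a b c d => by rw [hTs' a b c d]; ring)
  have gbi : ∀ u v w z, B (R u v w) z + B (R v w u) z + B (R w u v) z = 0 :=
    lin4 B par (fun u v w z => B (R u v w) z + B (R v w u) z + B (R w u v) z)
      (fun v w z => ⟨fun x y => by simp only [map_add, LinearMap.add_apply]; ring,
        fun c x => by simp only [map_smul, LinearMap.smul_apply, smul_eq_mul]; ring⟩)
      (fun u w z => ⟨fun x y => by simp only [map_add, LinearMap.add_apply]; ring,
        fun c x => by simp only [map_smul, LinearMap.smul_apply, smul_eq_mul]; ring⟩)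
      (fun u v z => ⟨fun x y => by simp only [map_add, LinearMap.add_apply]; ring,
        fun c x => by simp only [map_smul, LinearMap.smul_apply, smul_eq_mul]; ring⟩)
      (fun u v w => ⟨fun x y => by simp only [map_add]; ring,
        fun c x => by simp only [map_smul, smul_eq_mul]; ring⟩)
      hTb
  refine ⟨?_, ?_, ?_, ?_⟩
  · intro i j
    unfold dt
    rw [← hf i j, ← pars (f i) (f j)]
    refine Finset.sum_congr rfl fun a _ => ?_
    show B (f i) (X a) * B (f j) (X a) = _
    rw [hBs (f j) (X a)]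
  · intro a c
    have h1 := Gcurv.frame_exp hn B f hf (X a)
    have h2 := congrArg (fun u => B u (X c)) h1
    simp only [map_sum, LinearMap.sum_apply, map_smul, LinearMap.smul_apply, smul_eq_mul] at h2
    rw [h2]
    refine Finset.sum_congr rfl fun i _ => ?_
    rw [hBs (f i) (X a)]
  · intro i j k l
    -- contraction with `P`
    have h1 : ∀ a b d, ∑ c, Rm a b c d * B (f k) (X c) =
        ∑ c, B (f k) (X c) * B (R (X a) (X b) (X c)) (X d) := by
      intro a b d
      have h2 : ∀ c, Rm a b c d * B (f k) (X c) =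
          ∑ e, B (f k) (X e) * (B (X e) (X c) * Rm a b c d) := by
        intro c
        rw [← pars (f k) (X c), Finset.mul_sum]
        exact Finset.sum_congr rfl fun e _ => by ring
      rw [Finset.sum_congr rfl fun c _ => h2 c, Finset.sum_comm]
      refine Finset.sum_congr rfl fun e _ => ?_
      rw [← Finset.mul_sum, hT]
    have h3 : ∀ a b, ∑ c, ∑ d, Rm a b c d * B (f i) (X a) * B (f j) (X b) * B (f k) (X c) *
        B (f l) (X d) = B (f i) (X a) * (B (f j) (X b) * B (R (X a) (X b) (f k)) (f l)) := by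
      intro a b
      have h4 : ∑ c, ∑ d, Rm a b c d * B (f i) (X a) * B (f j) (X b) * B (f k) (X c) *
          B (f l) (X d) = B (f i) (X a) * (B (f j) (X b) *
            ∑ d, B (f l) (X d) * ∑ c, Rm a b c d * B (f k) (X c)) := by
        rw [Finset.sum_comm, Finset.mul_sum, Finset.mul_sum]
        refine Finset.sum_congr rfl fun d _ => ?_
        rw [Finset.mul_sum, Finset.mul_sum, Finset.mul_sum]
        exact Finset.sum_congr rfl fun c _ => by ring
      rw [h4]
      congr 2
      have h5 : B (R (X a) (X b) (f k)) (f l) =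
          ∑ d, B (f l) (X d) * B (R (X a) (X b) (f k)) (X d) := by
        rw [← hBs (f l), ← pars (f l)]
        exact Finset.sum_congr rfl fun d _ => by rw [hBs (X d)]
      rw [h5]
      refine Finset.sum_congr rfl fun d _ => ?_
      rw [h1]
      congr 1
      have h6 := congrArg (fun u => B (R (X a) (X b) u) (X d)) (par (f k))
      simp only [map_sum, LinearMap.sum_apply, map_smul, LinearMap.smul_apply, smul_eq_mul] at h6
      exact h6
    unfold R4
    rw [Finset.sum_congr rfl fun a _ => Finset.sum_congr rfl fun b _ => h3 a b]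
    have h7 : ∀ a, ∑ b, B (f i) (X a) * (B (f j) (X b) * B (R (X a) (X b) (f k)) (f l)) =
        B (f i) (X a) * B (R (X a) (f j) (f k)) (f l) := by
      intro a
      rw [← Finset.mul_sum]
      congr 1
      have h6 := congrArg (fun u => B (R (X a) u (f k)) (f l)) (par (f j))
      simp only [map_sum, LinearMap.sum_apply, map_smul, LinearMap.smul_apply, smul_eq_mul] at h6
      exact h6
    rw [Finset.sum_congr rfl fun a _ => h7 a]
    have h6 := congrArg (fun u => B (R u (f j) (f k)) (f l)) (par (f i))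
    simp only [map_sum, LinearMap.sum_apply, map_smul, LinearMap.smul_apply, smul_eq_mul] at h6
    exact h6
  · have a12 : ∀ i j k l, B (R (f i) (f j) (f k)) (f l) = - B (R (f j) (f i) (f k)) (f l) :=
      fun i j k l => eq_neg_of_add_eq_zero_left (g12 (f i) (f j) (f k) (f l))
    have a34 : ∀ i j k l, B (R (f i) (f j) (f k)) (f l) = - B (R (f i) (f j) (f l)) (f k) :=
      fun i j k l => eq_neg_of_add_eq_zero_left (g34 (f i) (f j) (f k) (f l))
    have bi : ∀ i j k l, B (R (f i) (f j) (f k)) (f l) + B (R (f j) (f k) (f i)) (f l) +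
        B (R (f k) (f i) (f j)) (f l) = 0 := fun i j k l => gbi (f i) (f j) (f k) (f l)
    exact ⟨a12, a34, pair (fun i j k l => B (R (f i) (f j) (f k)) (f l)) a12 a34 bi, bi⟩

end lin

end Frm

open Pool.Agent.H781.H6.Frm in
/-- **H6-16**: orthonormal frames -/
theorem s_frm : S_FRM := by
  intro n M _ _ _ _ _ _ _ N D x hn
  classical
  obtain ⟨hR1, -, hR2, hR4⟩ := rmp M N D.C
  have hev : ∀ a b, D.C.ev x (D.C.P a b) = D.g.inner x (D.T.X a x) (D.T.X b x) := fun a b => rfl
  have hfd : FiniteDimensional ℝ (TangentSpace (𝓡 n) x) :=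
    inferInstanceAs (FiniteDimensional ℝ (EU n))
  have hrk : Module.finrank ℝ (TangentSpace (𝓡 n) x) = n := finrank_euclideanSpace_fin
  let B : TangentSpace (𝓡 n) x →ₗ[ℝ] TangentSpace (𝓡 n) x →ₗ[ℝ] ℝ :=
    LinearMap.mk₂ ℝ (fun u v => D.g.inner x u v)
      (fun u v w => by rw [map_add]; rfl) (fun c u v => by rw [map_smul]; rfl)
      (fun u v w => by rw [map_add]) (fun c u v => by rw [map_smul])
  have hB : ∀ u v, B u v = D.g.inner x u v := fun u v => rfl
  have hBs : ∀ u v, B u v = B v u := fun u v => D.g.symm x u v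
  obtain ⟨f, hf⟩ := exists_on (V := TangentSpace (𝓡 n) x) hrk B hBs
    (fun v hv => D.g.pos x v hv)
  obtain ⟨k1, k2, k3, k4⟩ := core (V := TangentSpace (𝓡 n) x) hrk B (D.R x) hBs
    (fun a => D.T.X a x) (D.T.par x) f hf (fun a b c d => D.C.ev x (Rm D.C.F a b c d))
    (fun a b c d => s_gcu n M hn D.g D.cov D.R D.lc D.rt N D.T D.F D.ok a b c d x)
    (fun a b c d => by
      show D.C.ev x (Rm D.C.F a b c d) = - D.C.ev x (Rm D.C.F b a c d)
      rw [← map_neg, ← hR2])
    (fun a b c d => by
      have h := congrArg (D.C.ev x) (hR1 a b c d)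
      rw [map_sum, map_sum] at h
      simp only [map_mul, hev] at h
      exact h)
    (fun a b c d => by
      show D.C.ev x (Rm D.C.F a b c d) = - D.C.ev x (Rm D.C.F a b d c)
      rw [← map_neg, ← hR4])
    (fun a b c d => by
      have h := congrArg (evA x) (D.bianchi a b c d)
      rw [map_add, map_add, map_sum, map_sum, map_sum, map_zero] at h
      simp only [map_mul] at h
      exact h)
  exact ⟨f, fun i a => B (f i) (D.T.X a x), hf, fun _ _ => rfl, k1, k2, k3, k4⟩

end Pool.Agent.H781.H6
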