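import Pool.Agent.H781.H6.G

/-!
Project H6: transfer of the curvature conditions to an orthonormal frame (S_BIX).
-/

set_option autoImplicit false
set_option synthInstance.maxHeartbeats 400000
set_option maxHeartbeats 4000000
set_option linter.unusedSectionVars false

open Bundle Manifold ContDiff VectorField MeasureTheory Filter
open scoped Topology

noncomputable section

namespace Pool.Agent.H781.H6

open Pool.Agent.H781.NG Pool.Agent.H781.CM Pool.Agent.H821R2 Pool.Agent.H821R3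
  Pool.Agent.H893R5.HO Pool.Agent.H781.S22

namespace Bix

variable {V : Type*} [AddCommGroup V] [Module ℝ V] [TopologicalSpace V] {n : ℕ}

theorem in1 (G : V →L[ℝ] V →L[ℝ] ℝ) (f : Fin n → V) (x : Fin n → ℝ) (W : V) :
    G (∑ i, x i • f i) W = ∑ a, x a * G (f a) W := by
  simp [map_sum]

theorem in2 (G : V →L[ℝ] V →L[ℝ] ℝ) (f : Fin n → V) (x : Fin n → ℝ) (W : V) :
    G W (∑ i, x i • f i) = ∑ a, x a * G W (f a) := by
  simp [map_sum]

theorem dt_eq (G : V →L[ℝ] V →L[ℝ] ℝ) (f : Fin n → V)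
    (hf : ∀ i j, G (f i) (f j) = if i = j then 1 else 0) (x y : Fin n → ℝ) :
    G (∑ i, x i • f i) (∑ i, y i • f i) = dt x y := by
  rw [in1]
  unfold dt
  refine Finset.sum_congr rfl fun a _ => ?_
  rw [in2]
  simp [hf]

theorem R4_eq (G : V →L[ℝ] V →L[ℝ] ℝ) (R : V →ₗ[ℝ] V →ₗ[ℝ] V →ₗ[ℝ] V) (f : Fin n → V)
    (x y z w : Fin n → ℝ) :
    R4 (fun i j k l => G (R (f i) (f j) (f k)) (f l)) x y z w =
      G (R (∑ i, x i • f i) (∑ i, y i • f i) (∑ i, z i • f i)) (∑ i, w i • f i) := by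
  have e1 : ∀ Y Z W : V, G (R (∑ i, x i • f i) Y Z) W = ∑ a, x a * G (R (f a) Y Z) W := by
    intro Y Z W
    simp [map_sum, LinearMap.sum_apply]
  have e2 : ∀ X Z W : V, G (R X (∑ i, y i • f i) Z) W = ∑ a, y a * G (R X (f a) Z) W := by
    intro Y Z W
    simp [map_sum, LinearMap.sum_apply]
  have e3 : ∀ X Y W : V, G (R X Y (∑ i, z i • f i)) W = ∑ a, z a * G (R X Y (f a)) W := by
    intro Y Z W
    simp [map_sum]
  rw [e1]
  unfold R4
  refine Finset.sum_congr rfl fun a _ => ?_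
  rw [e2, Finset.mul_sum]
  refine Finset.sum_congr rfl fun b _ => ?_
  rw [e3, Finset.mul_sum, Finset.mul_sum]
  refine Finset.sum_congr rfl fun c _ => ?_
  rw [in2, Finset.mul_sum, Finset.mul_sum, Finset.mul_sum]
  refine Finset.sum_congr rfl fun d _ => ?_
  ring

theorem ric_eq (G : V →L[ℝ] V →L[ℝ] ℝ) (R : V →ₗ[ℝ] V →ₗ[ℝ] V →ₗ[ℝ] V) (f : Fin n → V)
    (ha : ∀ a b c d, G (R (f a) (f b) (f c)) (f d) = - G (R (f b) (f a) (f c)) (f d))
    (v : Fin n → ℝ) :
    ∑ i, G (R (f i) (∑ i, v i • f i) (∑ i, v i • f i)) (f i) =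
      - ∑ a, ∑ b, ∑ c, G (R (f a) (f b) (f c)) (f b) * v a * v c := by
  have e2 : ∀ X Z W : V, G (R X (∑ i, v i • f i) Z) W = ∑ a, v a * G (R X (f a) Z) W := by
    intro Y Z W
    simp [map_sum, LinearMap.sum_apply]
  have e3 : ∀ X Y W : V, G (R X Y (∑ i, v i • f i)) W = ∑ a, v a * G (R X Y (f a)) W := by
    intro Y Z W
    simp [map_sum]
  rw [Finset.sum_comm, ← Finset.sum_neg_distrib]
  refine Finset.sum_congr rfl fun b _ => ?_
  rw [e2, ← Finset.sum_neg_distrib]
  refine Finset.sum_congr rfl fun a _ => ?_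
  rw [e3, Finset.mul_sum, ← Finset.sum_neg_distrib]
  refine Finset.sum_congr rfl fun c _ => ?_
  rw [ha b a]
  ring

end Bix

/-- transfer of the curvature conditions -/
theorem s_bix : S_BIX := by
  intro n M _ _ _ _ _ _ _ N D x f b hf
  have horth : ∀ i j, D.g.inner x (f i) (f j) = if i = j then 1 else 0 := hf.orth
  have hac : ∀ a b c d, D.g.inner x (D.R x (f a) (f b) (f c)) (f d) =
      - D.g.inner x (D.R x (f b) (f a) (f c)) (f d) := hf.ac.a12
  constructor
  · intro δ Δ h y hy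
    have h1 := h (fun k => ∑ i, y k i • f i) (by
      intro k l
      have h2 := Bix.dt_eq (D.g.inner x) f horth (y k) (y l)
      exact h2.trans (hy k l))
    have hsec : ∀ k l, sec D.g D.R x (∑ i, y k i • f i) (∑ i, y l i • f i) =
        Kf (Rpt D x f) (y k) (y l) := fun k l =>
      (Bix.R4_eq (D.g.inner x) (D.R x) f (y k) (y l) (y l) (y k)).symm
    simp only [hsec] at h1
    exact ⟨by linarith [h1.1], by linarith [h1.2]⟩
  · intro h v hv
    have hv' : ∑ i, v i • f i ≠ 0 := by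
      intro h0
      apply hv
      funext j
      have h2 := Bix.in1 (D.g.inner x) f v (f j)
      rw [h0, map_zero] at h2
      have h3 : ∀ a, v a * D.g.inner x (f a) (f j) = if a = j then v a else 0 := by
        intro a
        rw [horth a j]
        split_ifs <;> simp
      rw [Finset.sum_congr rfl fun a _ => h3 a, Finset.sum_ite_eq' Finset.univ j v] at h2
      simpa using h2.symm
    have h4 := h _ hv'
    have h5 := Bix.ric_eq (D.g.inner x) (D.R x) f hac v
    have h6 : ∑ i, sec D.g D.R x (f i) (∑ i, v i • f i) =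
        - ∑ a, ∑ b, ∑ c, Rpt D x f a b c b * v a * v c := h5
    rw [h6] at h4
    exact h4

end Pool.Agent.H781.H6
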