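import Pool.Agent.H781.H6.A

/-!
Project H6, part L4: two 2-forms on `ℝ⁴` vanish on two orthogonal planes.
-/

set_option autoImplicit false
set_option synthInstance.maxHeartbeats 400000
set_option maxHeartbeats 4000000

noncomputable section

namespace Pool.Agent.H781.H6

open Pool.Agent.H781.NG Pool.Agent.H781.CM

namespace L4

open Matrix

theorem unit3 (x y : Fin 3 → ℝ) : ∃ n : Fin 3 → ℝ, n 0 ^ 2 + n 1 ^ 2 + n 2 ^ 2 = 1 ∧
    x 0 * n 0 + x 1 * n 1 + x 2 * n 2 = 0 ∧ y 0 * n 0 + y 1 * n 1 + y 2 * n 2 = 0 := by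
  obtain ⟨v, hv, h⟩ := (Matrix.exists_mulVec_eq_zero_iff
    (M := (Matrix.of ![x, y, 0] : Matrix (Fin 3) (Fin 3) ℝ))).2 (by
      rw [Matrix.det_fin_three]; simp)
  have h0 : x 0 * v 0 + x 1 * v 1 + x 2 * v 2 = 0 := by
    have := congrFun h 0
    simpa [Matrix.mulVec, dotProduct, Fin.sum_univ_three] using this
  have h1 : y 0 * v 0 + y 1 * v 1 + y 2 * v 2 = 0 := by
    have := congrFun h 1
    simpa [Matrix.mulVec, dotProduct, Fin.sum_univ_three] using this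
  have hs : 0 < v 0 ^ 2 + v 1 ^ 2 + v 2 ^ 2 := by
    obtain ⟨i, hi⟩ : ∃ i, v i ≠ 0 := by
      by_contra hcon
      push Not at hcon
      exact hv (funext hcon)
    have := sq_nonneg (v 0)
    have := sq_nonneg (v 1)
    have := sq_nonneg (v 2)
    have hp := pow_pos (abs_pos.2 hi) 2
    rw [sq_abs] at hp
    fin_cases i
    · have : 0 < v 0 ^ 2 := hp
      linarith
    · have : 0 < v 1 ^ 2 := hp
      linarith
    · have : 0 < v 2 ^ 2 := hp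
      linarith
  set s := v 0 ^ 2 + v 1 ^ 2 + v 2 ^ 2 with hsdef
  have hq : Real.sqrt s ≠ 0 := (Real.sqrt_pos.2 hs).ne'
  have hq2 : Real.sqrt s ^ 2 = s := Real.sq_sqrt hs.le
  refine ⟨fun i => v i / Real.sqrt s, ?_, ?_, ?_⟩
  · simp only [div_pow, hq2]
    rw [← add_div, ← add_div, ← hsdef, div_self hs.ne']
  · have : x 0 * (v 0 / √s) + x 1 * (v 1 / √s) + x 2 * (v 2 / √s) =
        (x 0 * v 0 + x 1 * v 1 + x 2 * v 2) / √s := by ring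
    rw [this, h0, zero_div]
  · have : y 0 * (v 0 / √s) + y 1 * (v 1 / √s) + y 2 * (v 2 / √s) =
        (y 0 * v 0 + y 1 * v 1 + y 2 * v 2) / √s := by ring
    rw [this, h1, zero_div]

/-- self-dual -/
def JA (n : Fin 3 → ℝ) : Matrix (Fin 4) (Fin 4) ℝ :=
  !![0, n 0, n 1, n 2; -n 0, 0, n 2, -n 1; -n 1, -n 2, 0, n 0; -n 2, n 1, -n 0, 0]

/-- antiself-dual -/
def JB (m : Fin 3 → ℝ) : Matrix (Fin 4) (Fin 4) ℝ :=
  !![0, m 0, m 1, m 2; -m 0, 0, -m 2, m 1; -m 1, m 2, 0, -m 0; -m 2, -m 1, m 0, 0]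

theorem JA_t (n : Fin 3 → ℝ) : (JA n)ᵀ = -JA n := by
  ext i j
  fin_cases i <;> fin_cases j <;> simp [JA]

theorem JB_t (n : Fin 3 → ℝ) : (JB n)ᵀ = -JB n := by
  ext i j
  fin_cases i <;> fin_cases j <;> simp [JB]

theorem JA_sq (n : Fin 3 → ℝ) (h : n 0 ^ 2 + n 1 ^ 2 + n 2 ^ 2 = 1) : JA n * JA n = -1 := by
  ext i j
  fin_cases i <;> fin_cases j <;>
    simp [JA, Matrix.mul_apply, Fin.sum_univ_four] <;>
    first | ring1 | linear_combination (-1 : ℝ) * h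

theorem JB_sq (n : Fin 3 → ℝ) (h : n 0 ^ 2 + n 1 ^ 2 + n 2 ^ 2 = 1) : JB n * JB n = -1 := by
  ext i j
  fin_cases i <;> fin_cases j <;>
    simp [JB, Matrix.mul_apply, Fin.sum_univ_four] <;>
    first | ring1 | linear_combination (-1 : ℝ) * h

theorem J_comm (n m : Fin 3 → ℝ) : JA n * JB m = JB m * JA n := by
  ext i j
  fin_cases i <;> fin_cases j <;>
    simp [JA, JB, Matrix.mul_apply, Fin.sum_univ_four] <;> ring1

theorem J_ne (n m : Fin 3 → ℝ) (h : n 0 ^ 2 + n 1 ^ 2 + n 2 ^ 2 = 1) : JA n + JB m ≠ 0 := by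
  intro hc
  have e : ∀ i j, JA n i j + JB m i j = 0 := fun i j => congrFun (congrFun hc i) j
  have h01 := e 0 1
  have h02 := e 0 2
  have h03 := e 0 3
  have h12 := e 1 2
  have h13 := e 1 3
  have h23 := e 2 3
  simp [JA, JB] at h01 h02 h03 h12 h13 h23
  have a0 : n 0 = 0 := by linarith
  have a1 : n 1 = 0 := by linarith
  have a2 : n 2 = 0 := by linarith
  rw [a0, a1, a2] at h
  norm_num at h

theorem J_ne' (n m : Fin 3 → ℝ) (h : n 0 ^ 2 + n 1 ^ 2 + n 2 ^ 2 = 1) : JA n - JB m ≠ 0 := by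
  intro hc
  have e : ∀ i j, JA n i j - JB m i j = 0 := fun i j => congrFun (congrFun hc i) j
  have h01 := e 0 1
  have h02 := e 0 2
  have h03 := e 0 3
  have h12 := e 1 2
  have h13 := e 1 3
  have h23 := e 2 3
  simp [JA, JB] at h01 h02 h03 h12 h13 h23
  have a0 : n 0 = 0 := by linarith
  have a1 : n 1 = 0 := by linarith
  have a2 : n 2 = 0 := by linarith
  rw [a0, a1, a2] at h
  norm_num at h

theorem tr_JA (X : Matrix (Fin 4) (Fin 4) ℝ) (hX : ∀ i j, X i j = -X j i) (n : Fin 3 → ℝ)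
    (h : (X 0 1 + X 2 3) * n 0 + (X 0 2 - X 1 3) * n 1 + (X 0 3 + X 1 2) * n 2 = 0) :
    (X * JA n).trace = 0 := by
  simp [Matrix.trace, JA, Matrix.mul_apply, Fin.sum_univ_four]
  have h1 := hX 1 0
  have h2 := hX 2 0
  have h3 := hX 3 0
  have h4 := hX 2 1
  have h5 := hX 3 1
  have h6 := hX 3 2
  rw [h1, h2, h3, h4, h5, h6]
  linear_combination (-2 : ℝ) * h

theorem tr_JB (X : Matrix (Fin 4) (Fin 4) ℝ) (hX : ∀ i j, X i j = -X j i) (n : Fin 3 → ℝ)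
    (h : (X 0 1 - X 2 3) * n 0 + (X 0 2 + X 1 3) * n 1 + (X 0 3 - X 1 2) * n 2 = 0) :
    (X * JB n).trace = 0 := by
  simp [Matrix.trace, JB, Matrix.mul_apply, Fin.sum_univ_four]
  have h1 := hX 1 0
  have h2 := hX 2 0
  have h3 := hX 3 0
  have h4 := hX 2 1
  have h5 := hX 3 1
  have h6 := hX 3 2
  rw [h1, h2, h3, h4, h5, h6]
  linear_combination (-2 : ℝ) * h

/-- a unit vector in the image of a nonzero matrix -/
theorem unit_image (M : Matrix (Fin 4) (Fin 4) ℝ) (hM : M ≠ 0) :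
    ∃ w : Fin 4 → ℝ, (M *ᵥ w) ⬝ᵥ (M *ᵥ w) = 1 := by
  obtain ⟨w, hw⟩ : ∃ w, M *ᵥ w ≠ 0 := by
    by_contra hcon
    push Not at hcon
    apply hM
    ext i j
    have := congrFun (hcon (Pi.single j 1)) i
    rw [Matrix.mulVec_single_one] at this
    simpa using this
  have hs : 0 < (M *ᵥ w) ⬝ᵥ (M *ᵥ w) := by
    have h0 : 0 ≤ (M *ᵥ w) ⬝ᵥ (M *ᵥ w) := by
      unfold dotProduct
      exact Finset.sum_nonneg fun i _ => mul_self_nonneg _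
    rcases h0.lt_or_eq with h | h
    · exact h
    · exact absurd (dotProduct_self_eq_zero.1 h.symm) hw
  set s := (M *ᵥ w) ⬝ᵥ (M *ᵥ w) with hsdef
  have hq : Real.sqrt s ≠ 0 := (Real.sqrt_pos.2 hs).ne'
  refine ⟨(Real.sqrt s)⁻¹ • w, ?_⟩
  rw [Matrix.mulVec_smul, smul_dotProduct, dotProduct_smul, ← hsdef, smul_eq_mul, smul_eq_mul]
  have : s = Real.sqrt s * Real.sqrt s := (Real.mul_self_sqrt hs.le).symm
  rw [← mul_assoc]
  nth_rewrite 3 [this]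
  field_simp

theorem antisymm_dot (A : Matrix (Fin 4) (Fin 4) ℝ) (hA : Aᵀ = -A) (u v : Fin 4 → ℝ) :
    (A *ᵥ u) ⬝ᵥ v = -(u ⬝ᵥ (A *ᵥ v)) := by
  have h1 : (A *ᵥ u) ⬝ᵥ v = u ⬝ᵥ (Aᵀ *ᵥ v) := by
    rw [Matrix.dotProduct_mulVec, Matrix.vecMul_transpose]
  rw [h1, hA, Matrix.neg_mulVec, dotProduct_neg]

/-- the frame -/
theorem frame (A B : Matrix (Fin 4) (Fin 4) ℝ) (hA : Aᵀ = -A) (hB : Bᵀ = -B) (hA2 : A * A = -1)
    (hB2 : B * B = -1) (hAB : A * B = B * A) (h1 : A + B ≠ 0) (h2 : A - B ≠ 0) :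
    ∃ g : Fin 4 → Fin 4 → ℝ, ON g ∧ A *ᵥ g 0 = g 1 ∧ A *ᵥ g 1 = -g 0 ∧ A *ᵥ g 2 = g 3 ∧
      A *ᵥ g 3 = -g 2 ∧ B *ᵥ g 0 = g 1 ∧ B *ᵥ g 1 = -g 0 ∧ B *ᵥ g 2 = -g 3 ∧ B *ᵥ g 3 = g 2 := by
  obtain ⟨w, hw⟩ := unit_image _ h1
  obtain ⟨w', hw'⟩ := unit_image _ h2
  set u := (A + B) *ᵥ w with hu
  set v := (A - B) *ᵥ w' with hv
  have hAA : ∀ x, A *ᵥ (A *ᵥ x) = -x := by
    intro x
    rw [Matrix.mulVec_mulVec, hA2, Matrix.neg_mulVec, Matrix.one_mulVec]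
  have hBB : ∀ x, B *ᵥ (B *ᵥ x) = -x := by
    intro x
    rw [Matrix.mulVec_mulVec, hB2, Matrix.neg_mulVec, Matrix.one_mulVec]
  have hABc : ∀ x, A *ᵥ (B *ᵥ x) = B *ᵥ (A *ᵥ x) := by
    intro x
    rw [Matrix.mulVec_mulVec, hAB, Matrix.mulVec_mulVec]
  have hu2 : B *ᵥ u = A *ᵥ u := by
    rw [hu, Matrix.add_mulVec, Matrix.mulVec_add, Matrix.mulVec_add, hAA, hBB, hABc]
    abel
  have hv2 : B *ᵥ v = -(A *ᵥ v) := by
    rw [hv, Matrix.sub_mulVec, Matrix.mulVec_sub, Matrix.mulVec_sub, hAA, hBB, hABc]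
    abel
  have aself : ∀ x, x ⬝ᵥ (A *ᵥ x) = 0 := by
    intro x
    have e1 := antisymm_dot A hA x x
    rw [dotProduct_comm] at e1
    linarith
  have anorm : ∀ x y, (A *ᵥ x) ⬝ᵥ (A *ᵥ y) = x ⬝ᵥ y := by
    intro x y
    rw [antisymm_dot A hA, hAA, dotProduct_neg, neg_neg]
  have bnorm : ∀ x y, (B *ᵥ x) ⬝ᵥ (B *ᵥ y) = x ⬝ᵥ y := by
    intro x y
    rw [antisymm_dot B hB, hBB, dotProduct_neg, neg_neg]
  -- orthogonality of the two planes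
  have huv : u ⬝ᵥ v = 0 := by
    have e1 := bnorm u v
    rw [hu2, hv2, dotProduct_neg, anorm] at e1
    linarith
  have huAv : u ⬝ᵥ (A *ᵥ v) = 0 := by
    have e1 : (B *ᵥ u) ⬝ᵥ v = -(u ⬝ᵥ (B *ᵥ v)) := antisymm_dot B hB u v
    rw [hu2, hv2, dotProduct_neg, neg_neg, antisymm_dot A hA] at e1
    linarith
  have hAuv : (A *ᵥ u) ⬝ᵥ v = 0 := by
    rw [antisymm_dot A hA, huAv, neg_zero]
  refine ⟨![u, A *ᵥ u, v, A *ᵥ v], ?_, rfl, hAA u, rfl, hAA v, hu2, ?_, hv2, ?_⟩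
  · have key : ∀ x y : Fin 4 → ℝ, dt x y = x ⬝ᵥ y := fun x y => rfl
    intro i j
    rw [key]
    fin_cases i <;> fin_cases j
    · simpa using hw
    · simpa using aself u
    · simpa using huv
    · simpa using huAv
    · simpa [dotProduct_comm] using aself u
    · simpa [anorm] using hw
    · simpa using hAuv
    · simpa [anorm] using huv
    · simpa [dotProduct_comm] using huv
    · simpa [dotProduct_comm] using hAuv
    · simpa using hw'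
    · simpa using aself v
    · simpa [dotProduct_comm] using huAv
    · simpa [anorm, dotProduct_comm] using huv
    · simpa [dotProduct_comm] using aself v
    · simpa [anorm] using hw'
  · change B *ᵥ (A *ᵥ u) = -u
    rw [← hABc, hu2, hAA]
  · change B *ᵥ (A *ᵥ v) = v
    rw [← hABc, hv2, Matrix.mulVec_neg, hAA, neg_neg]

/-- the trace in an orthonormal frame -/
theorem trace_frame (g : Fin 4 → Fin 4 → ℝ) (hg : ON g) (M : Matrix (Fin 4) (Fin 4) ℝ) :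
    M.trace = ∑ k, g k ⬝ᵥ (M *ᵥ g k) := by
  set G : Matrix (Fin 4) (Fin 4) ℝ := Matrix.of g with hG
  have h1 : G * Gᵀ = 1 := by
    ext i j
    rw [Matrix.mul_apply, Matrix.one_apply]
    exact hg i j
  have h2 : Gᵀ * G = 1 := mul_eq_one_comm.1 h1
  have h3 : M.trace = (G * (M * Gᵀ)).trace := by
    rw [Matrix.trace_mul_comm, Matrix.mul_assoc, h2, Matrix.mul_one]
  rw [h3]
  rfl

theorem bil (X : Matrix (Fin 4) (Fin 4) ℝ) (u v : Fin 4 → ℝ) :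
    ∑ a, ∑ b, u a * v b * X a b = u ⬝ᵥ (X *ᵥ v) := by
  unfold dotProduct Matrix.mulVec dotProduct
  refine Finset.sum_congr rfl fun a _ => ?_
  rw [Finset.mul_sum]
  refine Finset.sum_congr rfl fun b _ => ?_
  ring

theorem vanish (A B : Matrix (Fin 4) (Fin 4) ℝ) (g : Fin 4 → Fin 4 → ℝ) (hg : ON g)
    (h : A *ᵥ g 0 = g 1 ∧ A *ᵥ g 1 = -g 0 ∧ A *ᵥ g 2 = g 3 ∧
      A *ᵥ g 3 = -g 2 ∧ B *ᵥ g 0 = g 1 ∧ B *ᵥ g 1 = -g 0 ∧ B *ᵥ g 2 = -g 3 ∧ B *ᵥ g 3 = g 2)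
    (X : Matrix (Fin 4) (Fin 4) ℝ) (hX : Xᵀ = -X) (hXA : (X * A).trace = 0)
    (hXB : (X * B).trace = 0) :
    g 0 ⬝ᵥ (X *ᵥ g 1) = 0 ∧ g 2 ⬝ᵥ (X *ᵥ g 3) = 0 := by
  obtain ⟨a0, a1, a2, a3, b0, b1, b2, b3⟩ := h
  rw [trace_frame g hg, Fin.sum_univ_four] at hXA hXB
  simp only [← Matrix.mulVec_mulVec] at hXA hXB
  rw [a0, a1, a2, a3] at hXA
  rw [b0, b1, b2, b3] at hXB
  simp only [Matrix.mulVec_neg, dotProduct_neg] at hXA hXB
  have e1 : g 1 ⬝ᵥ (X *ᵥ g 0) = -(g 0 ⬝ᵥ (X *ᵥ g 1)) := by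
    have := antisymm_dot X hX (g 0) (g 1)
    rw [dotProduct_comm] at this
    exact this
  have e2 : g 3 ⬝ᵥ (X *ᵥ g 2) = -(g 2 ⬝ᵥ (X *ᵥ g 3)) := by
    have := antisymm_dot X hX (g 2) (g 3)
    rw [dotProduct_comm] at this
    exact this
  rw [e1, e2] at hXA hXB
  constructor <;> linarith

end L4

open L4 in
theorem s_l4 : S_L4 := by
  intro X Y hX hY
  obtain ⟨n, hn, hn1, hn2⟩ := unit3 ![X 0 1 + X 2 3, X 0 2 - X 1 3, X 0 3 + X 1 2]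
    ![Y 0 1 + Y 2 3, Y 0 2 - Y 1 3, Y 0 3 + Y 1 2]
  obtain ⟨m, hm, hm1, hm2⟩ := unit3 ![X 0 1 - X 2 3, X 0 2 + X 1 3, X 0 3 - X 1 2]
    ![Y 0 1 - Y 2 3, Y 0 2 + Y 1 3, Y 0 3 - Y 1 2]
  obtain ⟨g, hg, h⟩ := frame (JA n) (JB m) (JA_t n) (JB_t m) (JA_sq n hn) (JB_sq m hm)
    (J_comm n m) (J_ne n m hn) (J_ne' n m hn)
  have tX : (Matrix.of X).transpose = -Matrix.of X := by
    ext i j
    exact hX j i
  have tY : (Matrix.of Y).transpose = -Matrix.of Y := by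
    ext i j
    exact hY j i
  obtain ⟨x1, x2⟩ := vanish (JA n) (JB m) g hg h (Matrix.of X) tX
    (tr_JA _ hX n (by simpa using hn1)) (tr_JB _ hX m (by simpa using hm1))
  obtain ⟨y1, y2⟩ := vanish (JA n) (JB m) g hg h (Matrix.of Y) tY
    (tr_JA _ hY n (by simpa using hn2)) (tr_JB _ hY m (by simpa using hm2))
  refine ⟨g, hg, ?_, ?_, ?_, ?_⟩
  · rw [← x1, ← bil]; rfl
  · rw [← x2, ← bil]; rfl
  · rw [← y1, ← bil]; rfl
  · rw [← y2, ← bil]; rfl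

end Pool.Agent.H781.H6
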