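import Pool.Agent.H781.CM.Lin

/-!
Project H6 (MP_4a593f_gt): closed 6-manifolds with positive Ricci curvature and pinched
biorthogonal curvature have vanishing odd Betti numbers. Algebraic part: the Weitzenböck form on
3-forms of `ℝ⁶`.
-/

set_option autoImplicit false
set_option synthInstance.maxHeartbeats 400000
set_option maxHeartbeats 4000000

noncomputable section

namespace Pool.Agent.H781.H6

open Pool.Agent.H781.NG Pool.Agent.H781.CM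

/-- the type of 4-tensors on `ℝ^m` -/
abbrev T4 (m : ℕ) : Type := Fin m → Fin m → Fin m → Fin m → ℝ

/-- algebraic curvature tensors, `R a b c d = ⟨R(e_a, e_b) e_c, e_d⟩` -/
structure IsAC {m : ℕ} (R : T4 m) : Prop where
  a12 : ∀ a b c d, R a b c d = - R b a c d
  a34 : ∀ a b c d, R a b c d = - R a b d c
  pr : ∀ a b c d, R a b c d = R c d a b
  bi : ∀ a b c d, R a b c d + R b c a d + R c a b d = 0

/-- the Weitzenböck form of `R` on `Λ ℝ^m` -/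
def rc {m : ℕ} (R : T4 m) (u : Fk m ℝ) : ℝ :=
  - ∑ a, ∑ b, ∑ c, ∑ d, R a b c d * ip (cr b (an a u)) (cr d (an c u))

/-- `⟨R(x, y) z, w⟩` -/
def R4 {m : ℕ} (R : T4 m) (x y z w : Fin m → ℝ) : ℝ :=
  ∑ a, ∑ b, ∑ c, ∑ d, R a b c d * x a * y b * z c * w d

/-- inner product of vectors -/
def dt {m : ℕ} (x y : Fin m → ℝ) : ℝ := ∑ a, x a * y a

/-- orthonormal families -/
def ON {m k : ℕ} (b : Fin k → Fin m → ℝ) : Prop := ∀ i j, dt (b i) (b j) = if i = j then 1 else 0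

/-- sectional curvature of the plane of two orthonormal vectors -/
def Kf {m : ℕ} (R : T4 m) (x y : Fin m → ℝ) : ℝ := R4 R x y y x

/-- `2 δ ≤ K(x₀, x₁) + K(x₂, x₃) ≤ 2 Δ` for all orthonormal 4-frames -/
def BiP {m : ℕ} (R : T4 m) (δ Δ : ℝ) : Prop := ∀ x : Fin 4 → Fin m → ℝ, ON x →
  2 * δ ≤ Kf R (x 0) (x 1) + Kf R (x 2) (x 3) ∧ Kf R (x 0) (x 1) + Kf R (x 2) (x 3) ≤ 2 * Δ

/-- positive Ricci curvature -/
def RicP {m : ℕ} (R : T4 m) : Prop := ∀ v : Fin m → ℝ, v ≠ 0 →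
  0 < - ∑ a, ∑ b, ∑ c, R a b c b * v a * v c

/-- `τ` is the homomorphism `Λ ℝ^m → Λ ℝ^N` of exterior algebras given by the orthonormal family
`b` -/
structure IsTau {N m : ℕ} (b : Fin m → Fin N → ℝ) (τ : Fk m ℝ →ₗ[ℝ] Fk N ℝ) : Prop where
  on : ON b
  an : ∀ a u, NG.an a (τ u) = ∑ i, b i a • τ (NG.an i u)
  cr : ∀ i u, ∑ a, b i a • NG.cr a (τ u) = τ (NG.cr i u)
  ip : ∀ u v, NG.ip (τ u) (τ v) = NG.ip u v
  vac : τ vac = vac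
  deg : ∀ p u, Deg p (τ u) ↔ Deg p u
  range : ∀ u : Fk N ℝ, (∀ c, NG.an c u = ∑ a, (∑ i, b i c * b i a) • NG.an a u) → ∃ u', τ u' = u

/-- existence of `τ` -/
def S_TAU : Prop := ∀ (N m : ℕ) (b : Fin m → Fin N → ℝ), ON b → ∃ τ, IsTau b τ

/-- transfer of the Weitzenböck form -/
def S_RCT : Prop := ∀ (N m : ℕ) (b : Fin m → Fin N → ℝ) (τ : Fk m ℝ →ₗ[ℝ] Fk N ℝ) (R : T4 N),
  IsTau b τ → (∀ a e c d, ∑ e', (∑ i, b i e * b i e') * R a e' c d = R a e c d) →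
  (∀ a e c d, ∑ c', (∑ i, b i c * b i c') * R a e c' d =
    ∑ d', (∑ i, b i d * b i d') * R a e c d') →
  ∀ u, rc R (τ u) = rc (fun i j k l => R4 R (b i) (b j) (b k) (b l)) u

/-- change of the frame -/
def S_BIC : Prop := ∀ (N m : ℕ) (b : Fin m → Fin N → ℝ) (R : T4 N), ON b → IsAC R →
  IsAC (fun i j k l => R4 R (b i) (b j) (b k) (b l)) ∧
  ∀ δ Δ : ℝ, BiP R δ Δ → BiP (fun i j k l => R4 R (b i) (b j) (b k) (b l)) δ Δ

/-- Hodge star operator of `Λ ℝ⁶` -/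
def st (u : Fk 6 ℝ) : Fk 6 ℝ := fun S =>
  (-1 : ℝ) ^ ((S ×ˢ Sᶜ).filter fun q => q.2 < q.1).card * u Sᶜ

/-- the star operator preserves the Weitzenböck form -/
def S_STAR : Prop := (∀ (p : ℕ) (u : Fk 6 ℝ), p ≤ 6 → Deg p u → Deg (6 - p) (st u)) ∧
  (∀ u v : Fk 6 ℝ, ip (st u) (st v) = ip u v) ∧
  ∀ R : T4 6, IsAC R → (∀ u, rc R (st u) = rc R u) ∧
    ∀ u, Deg 3 u → ∀ θ : ℝ, rc R (Real.cos θ • u + Real.sin θ • st u) = rc R u ∧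
      ip (Real.cos θ • u + Real.sin θ • st u) (Real.cos θ • u + Real.sin θ • st u) = ip u u

/-- 1-forms and 5-forms -/
def S_P15 : Prop := ∀ R : T4 6, IsAC R → RicP R → ∀ u : Fk 6 ℝ, u ≠ 0 → Deg 1 u ∨ Deg 5 u →
  0 < rc R u

/-- two 2-forms on `ℝ⁴` vanish on two orthogonal planes -/
def S_L4 : Prop := ∀ X Y : Fin 4 → Fin 4 → ℝ, (∀ i j, X i j = - X j i) →
  (∀ i j, Y i j = - Y j i) → ∃ O : Fin 4 → Fin 4 → ℝ, ON O ∧
    (∑ a, ∑ b, O 0 a * O 1 b * X a b = 0) ∧ (∑ a, ∑ b, O 2 a * O 3 b * X a b = 0) ∧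
    (∑ a, ∑ b, O 0 a * O 1 b * Y a b = 0) ∧ (∑ a, ∑ b, O 2 a * O 3 b * Y a b = 0)

/-- alternating 3-tensors -/
def Alt3 (t : Fin 6 → Fin 6 → Fin 6 → ℝ) : Prop :=
  (∀ i j k, t i j k = - t j i k) ∧ ∀ i j k, t i j k = - t i k j

/-- `t` in the frame `O` -/
def rot (O : Fin 6 → Fin 6 → ℝ) (t : Fin 6 → Fin 6 → Fin 6 → ℝ) : Fin 6 → Fin 6 → Fin 6 → ℝ :=
  fun i j k => ∑ a, ∑ b, ∑ c, O i a * O j b * O k c * t a b c

/-- the vector number `a` of the pair number `k` -/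
def ix (k : Fin 3) (a : Fin 2) : Fin 6 := ⟨2 * k + a, by omega⟩

/-- the part of `t` with one index in each of the pairs `{0,1}`, `{2,3}`, `{4,5}` -/
def GG (t : Fin 6 → Fin 6 → Fin 6 → ℝ) : ℝ :=
  ∑ a : Fin 2, ∑ b : Fin 2, ∑ c : Fin 2, t (ix 0 a) (ix 1 b) (ix 2 c) ^ 2

/-- improvement of the frame -/
def S_IMP : Prop := ∀ t, Alt3 t → ∀ k : Fin 3, ∃ O : Fin 6 → Fin 6 → ℝ, ON O ∧
  GG (rot O t) = GG t + ∑ a : Fin 2,
    (t (ix k a) (ix (k + 1) 0) (ix (k + 1) 1) ^ 2 + t (ix k a) (ix (k + 2) 0) (ix (k + 2) 1) ^ 2)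

/-- normal form, first step -/
def S_NF : Prop := ∀ t, Alt3 t → ∃ O : Fin 6 → Fin 6 → ℝ, ON O ∧
  ∀ i j k : Fin 6, (i : ℕ) / 2 = (j : ℕ) / 2 → rot O t i j k = 0

/-- rotation of the plane -/
def r2 (α : ℝ) : Fin 2 → Fin 2 → ℝ := ![![Real.cos α, Real.sin α], ![- Real.sin α, Real.cos α]]

/-- rotation of a `2 × 2 × 2` tensor -/
def rt3 (α β γ : ℝ) (T : Fin 2 → Fin 2 → Fin 2 → ℝ) : Fin 2 → Fin 2 → Fin 2 → ℝ := fun a b c =>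
  ∑ a', ∑ b', ∑ c', r2 α a a' * r2 β b b' * r2 γ c c' * T a' b' c'

/-- normal form of `2 × 2 × 2` tensors -/
def S_TOR : Prop := ∀ T : Fin 2 → Fin 2 → Fin 2 → ℝ, ∃ α β γ θ : ℝ, ∀ a b c : Fin 2,
  a + b + c = 1 →
    Real.cos θ * rt3 α β γ T a b c + Real.sin θ * rt3 α β γ T (1 - a) (1 - b) (1 - c) = 0

/-- `A e₀₂₄ + B e₀₃₅ + C e₁₂₅ + D e₁₃₄` -/
def mono (A B C D : ℝ) : Fk 6 ℝ := fun S => if S = {0, 2, 4} then A else
  if S = {0, 3, 5} then B else if S = {1, 2, 5} then C else if S = {1, 3, 4} then D else 0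

/-- normal form of 3-forms up to the star operator -/
def S_NF2 : Prop := ∀ u : Fk 6 ℝ, Deg 3 u → ∃ (b : Fin 6 → Fin 6 → ℝ) (θ A B C D : ℝ), ON b ∧
  ∀ τ, IsTau b τ → ∀ u', τ u' = u → Real.cos θ • u' + Real.sin θ • st u' = mono A B C D

/-- the contribution of a 4-dimensional coordinate subspace -/
def Gb (R : T4 6) (w x y z : Fin 6) (A B C D : ℝ) : ℝ :=
  (A ^ 2 + B ^ 2 + C ^ 2 + D ^ 2) / 2 * (- R w x w x - R y z y z) +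
    (C ^ 2 + D ^ 2) * (- R w y w y - R x z x z) + (A ^ 2 + B ^ 2) * (- R w z w z - R x y x y) +
    4 * A * B * R w y x z + 4 * C * D * R w z x y

/-- the Weitzenböck form of the normal form -/
def S_Q4 : Prop := ∀ R : T4 6, IsAC R → ∀ A B C D : ℝ,
  rc R (mono A B C D) = Gb R 2 3 4 5 A B C D + Gb R 0 1 4 5 A C B D + Gb R 0 1 2 3 A D B C ∧
  ip (mono A B C D) (mono A B C D) = A ^ 2 + B ^ 2 + C ^ 2 + D ^ 2

/-- the possible losses in a 4-dimensional subspace -/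
def Ls (T a b c d : ℝ) : Prop := T = 0 ∨ T = (4 * (a * b) + 2 * (c * d)) / 3 - c ^ 2 - d ^ 2 ∨
  T = (4 * (c * d) + 2 * (a * b)) / 3 - a ^ 2 - b ^ 2

/-- lower bound of the contribution of a 4-dimensional subspace -/
def S_GB : Prop := ∀ (R : T4 6) (δ Δ : ℝ), IsAC R → 0 < δ → BiP R δ Δ →
  ∀ w x y z : Fin 6, w ≠ x → w ≠ y → w ≠ z → x ≠ y → x ≠ z → y ≠ z → ∀ A B C D : ℝ,
  ∃ T, Ls T |A| |B| |C| |D| ∧ 3 * δ * (A ^ 2 + B ^ 2 + C ^ 2 + D ^ 2) - 2 * (Δ - δ) * T ≤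
    Gb R w x y z A B C D

/-- the sum of the losses -/
def S_TS : Prop := ∀ a b c d T₁ T₂ T₃ : ℝ, 0 ≤ a → 0 ≤ b → 0 ≤ c → 0 ≤ d →
  Ls T₁ a b c d → Ls T₂ a c b d → Ls T₃ a d b c →
  T₁ + T₂ + T₃ ≤ 2 / 3 * (a ^ 2 + b ^ 2 + c ^ 2 + d ^ 2)

/-- the Weitzenböck form on 3-forms of `ℝ⁶` -/
def S_PW : Prop := ∀ (R : T4 6) (δ Δ : ℝ), IsAC R → 0 < δ → BiP R δ Δ → ∀ u : Fk 6 ℝ, Deg 3 u →
  (9 * δ - 4 / 3 * (Δ - δ)) * ip u u ≤ rc R u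

end Pool.Agent.H781.H6
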