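import Pool.Agent.H781.H6.A

/-! Project H6 (helper781), job BIC: change of the frame. -/

set_option autoImplicit false
set_option synthInstance.maxHeartbeats 400000
set_option maxHeartbeats 4000000

noncomputable section

namespace Pool.Agent.H781.H6

open Pool.Agent.H781.NG Pool.Agent.H781.CM

namespace Bic

variable {N m : ℕ}

/-- linear combination -/
def cb (b : Fin m → Fin N → ℝ) (x : Fin m → ℝ) : Fin N → ℝ := fun e => ∑ i, x i * b i e

theorem lin0 (b : Fin m → Fin N → ℝ) (x : Fin m → ℝ) (F : Fin N → ℝ) :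
    ∑ a, cb b x a * F a = ∑ i, x i * ∑ a, b i a * F a := by
  unfold cb
  simp only [Finset.sum_mul, Finset.mul_sum]
  rw [Finset.sum_comm]
  refine Finset.sum_congr rfl fun i _ => Finset.sum_congr rfl fun a _ => ?_
  ring

theorem e1 (R : T4 N) (x y z w : Fin N → ℝ) :
    R4 R x y z w = ∑ a, x a * ∑ b, ∑ c, ∑ d, R a b c d * y b * z c * w d := by
  unfold R4
  simp only [Finset.mul_sum]
  refine Finset.sum_congr rfl fun a _ => Finset.sum_congr rfl fun b _ =>
    Finset.sum_congr rfl fun c _ => Finset.sum_congr rfl fun d _ => ?_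
  ring

/-- exchange of the first two arguments -/
theorem p12 (R : T4 N) (x y z w : Fin N → ℝ) :
    R4 R x y z w = R4 (fun a b c d => R b a c d) y x z w := by
  unfold R4
  rw [Finset.sum_comm]
  refine Finset.sum_congr rfl fun a _ => Finset.sum_congr rfl fun b _ =>
    Finset.sum_congr rfl fun c _ => Finset.sum_congr rfl fun d _ => ?_
  ring

theorem p23 (R : T4 N) (x y z w : Fin N → ℝ) :
    R4 R x y z w = R4 (fun a b c d => R a c b d) x z y w := by
  unfold R4
  refine Finset.sum_congr rfl fun a _ => ?_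
  rw [Finset.sum_comm]
  refine Finset.sum_congr rfl fun b _ =>
    Finset.sum_congr rfl fun c _ => Finset.sum_congr rfl fun d _ => ?_
  ring

theorem p34 (R : T4 N) (x y z w : Fin N → ℝ) :
    R4 R x y z w = R4 (fun a b c d => R a b d c) x y w z := by
  unfold R4
  refine Finset.sum_congr rfl fun a _ => Finset.sum_congr rfl fun b _ => ?_
  rw [Finset.sum_comm]
  refine Finset.sum_congr rfl fun c _ => Finset.sum_congr rfl fun d _ => ?_
  ring

theorem neg4 (R : T4 N) (x y z w : Fin N → ℝ) :
    R4 (fun a b c d => - R a b c d) x y z w = - R4 R x y z w := by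
  unfold R4
  simp only [neg_mul, Finset.sum_neg_distrib]

theorem add4 (R R' : T4 N) (x y z w : Fin N → ℝ) :
    R4 (fun a b c d => R a b c d + R' a b c d) x y z w = R4 R x y z w + R4 R' x y z w := by
  unfold R4
  simp only [add_mul, Finset.sum_add_distrib]

theorem l1 (R : T4 N) (b : Fin m → Fin N → ℝ) (x : Fin m → ℝ) (y z w : Fin N → ℝ) :
    R4 R (cb b x) y z w = ∑ i, x i * R4 R (b i) y z w := by
  rw [e1, lin0]
  refine Finset.sum_congr rfl fun i _ => ?_
  rw [e1]

theorem l2 (R : T4 N) (b : Fin m → Fin N → ℝ) (x : Fin m → ℝ) (y z w : Fin N → ℝ) :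
    R4 R y (cb b x) z w = ∑ i, x i * R4 R y (b i) z w := by
  rw [p12, l1]
  refine Finset.sum_congr rfl fun i _ => ?_
  rw [p12 R]

theorem l3 (R : T4 N) (b : Fin m → Fin N → ℝ) (x : Fin m → ℝ) (y z w : Fin N → ℝ) :
    R4 R y z (cb b x) w = ∑ i, x i * R4 R y z (b i) w := by
  rw [p23, l2]
  refine Finset.sum_congr rfl fun i _ => ?_
  rw [p23 R]

theorem l4 (R : T4 N) (b : Fin m → Fin N → ℝ) (x : Fin m → ℝ) (y z w : Fin N → ℝ) :
    R4 R y z w (cb b x) = ∑ i, x i * R4 R y z w (b i) := by
  rw [p34, l3]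
  refine Finset.sum_congr rfl fun i _ => ?_
  rw [p34 R]

/-- `R4` of the tensor in the frame `b` -/
theorem frame (R : T4 N) (b : Fin m → Fin N → ℝ) (x y z w : Fin m → ℝ) :
    R4 (fun i j k l => R4 R (b i) (b j) (b k) (b l)) x y z w =
      R4 R (cb b x) (cb b y) (cb b z) (cb b w) := by
  rw [l1]
  unfold R4
  refine Finset.sum_congr rfl fun i _ => ?_
  change _ = x i * R4 R (b i) (cb b y) (cb b z) (cb b w)
  rw [l2, Finset.mul_sum]
  refine Finset.sum_congr rfl fun j _ => ?_
  rw [l3, Finset.mul_sum, Finset.mul_sum]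
  refine Finset.sum_congr rfl fun k _ => ?_
  rw [l4, Finset.mul_sum, Finset.mul_sum, Finset.mul_sum]
  refine Finset.sum_congr rfl fun l _ => ?_
  change R4 R (b i) (b j) (b k) (b l) * x i * y j * z k * w l = _
  ring

theorem dt_cb {b : Fin m → Fin N → ℝ} (hb : ON b) (x y : Fin m → ℝ) :
    dt (cb b x) (cb b y) = dt x y := by
  unfold dt
  rw [lin0]
  refine Finset.sum_congr rfl fun i _ => ?_
  have h1 : ∑ a, b i a * cb b y a = ∑ a, cb b y a * b i a :=
    Finset.sum_congr rfl fun a _ => mul_comm _ _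
  have h2 : ∀ j, ∑ a, b j a * b i a = if j = i then 1 else 0 := fun j => hb j i
  rw [h1, lin0]
  simp only [h2, mul_ite, mul_one, mul_zero, Finset.sum_ite_eq', Finset.mem_univ, if_true]

theorem ac {R : T4 N} (hR : IsAC R) (b : Fin m → Fin N → ℝ) :
    IsAC (fun i j k l => R4 R (b i) (b j) (b k) (b l)) := by
  have s12 : ∀ x y z w : Fin N → ℝ, R4 R x y z w = - R4 R y x z w := by
    intro x y z w
    have h1 : (fun a b c d => R b a c d) = fun a b c d => - R a b c d := by
      funext a b c d
      exact hR.a12 b a c d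
    rw [p12, h1, neg4]
  have s34 : ∀ x y z w : Fin N → ℝ, R4 R x y z w = - R4 R x y w z := by
    intro x y z w
    have h1 : (fun a b c d => R a b d c) = fun a b c d => - R a b c d := by
      funext a b c d
      exact hR.a34 a b d c
    rw [p34, h1, neg4]
  have spr : ∀ x y z w : Fin N → ℝ, R4 R x y z w = R4 R z w x y := by
    intro x y z w
    -- (x y z w) -> (x z y w) -> (z x y w) -> (z x w y) -> (z w x y)
    rw [p23, p12, p34, p23]
    have h1 : (fun a b c d => R c d a b) = R := by
      funext a b c d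
      exact hR.pr c d a b
    change R4 (fun a b c d => R c d a b) z w x y = _
    rw [h1]
  have sbi : ∀ x y z w : Fin N → ℝ, R4 R x y z w + R4 R y z x w + R4 R z x y w = 0 := by
    intro x y z w
    -- all in the order (x y z w)
    have h2 : R4 R y z x w = R4 (fun a b c d => R b c a d) x y z w := by
      rw [p23, p12]
    have h3 : R4 R z x y w = R4 (fun a b c d => R c a b d) x y z w := by
      rw [p12, p23]
    rw [h2, h3, ← add4, ← add4]
    have h4 : (fun a b c d => R a b c d + R b c a d + R c a b d) = fun _ _ _ _ => (0 : ℝ) := by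
      funext a b c d
      exact hR.bi a b c d
    rw [h4]
    unfold R4
    simp
  exact ⟨fun i j k l => s12 _ _ _ _, fun i j k l => s34 _ _ _ _, fun i j k l => spr _ _ _ _,
    fun i j k l => sbi _ _ _ _⟩

end Bic

open Bic in
/-- job BIC -/
theorem s_bic : S_BIC := by
  intro N m b R hb hR
  refine ⟨ac hR b, fun δ Δ h x hx => ?_⟩
  have h1 := h (fun k => cb b (x k)) (fun k l => by rw [dt_cb hb]; exact hx k l)
  have h2 : ∀ y z : Fin m → ℝ, Kf (fun i j k l => R4 R (b i) (b j) (b k) (b l)) y z =
      Kf R (cb b y) (cb b z) := fun y z => frame R b y z z y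
  rw [h2, h2]
  exact h1

end Pool.Agent.H781.H6
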