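import Pool.Agent.H781.H6.A

/-!
Project H6: lower bound of the contribution of a 4-dimensional coordinate subspace.
-/

set_option autoImplicit false

namespace Pool.Agent.H781.H6

open Pool.Agent.H781.NG Pool.Agent.H781.CM

namespace Gb

/-- `α e_a + β e_b` -/
def vv {m : ℕ} (a b : Fin m) (α β : ℝ) : Fin m → ℝ :=
  fun i => α * (if i = a then 1 else 0) + β * (if i = b then 1 else 0)

theorem sum_vv {m : ℕ} (a b : Fin m) (α β : ℝ) (f : Fin m → ℝ) :
    ∑ i, vv a b α β i * f i = α * f a + β * f b := by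
  unfold vv
  simp only [add_mul, Finset.sum_add_distrib, mul_ite, mul_one, mul_zero, ite_mul, zero_mul,
    Finset.sum_ite_eq', Finset.mem_univ, if_true]

theorem R4_eq {m : ℕ} (R : T4 m) (x y z w : Fin m → ℝ) :
    R4 R x y z w = ∑ a, x a * ∑ b, y b * ∑ c, z c * ∑ d, w d * R a b c d := by
  unfold R4
  simp only [Finset.mul_sum]
  refine Finset.sum_congr rfl fun a _ => Finset.sum_congr rfl fun b _ =>
    Finset.sum_congr rfl fun c _ => Finset.sum_congr rfl fun d _ => ?_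
  ring

theorem dt_vv {m : ℕ} (a b c d : Fin m) (α β γ ε : ℝ) :
    dt (vv a b α β) (vv c d γ ε) = α * vv c d γ ε a + β * vv c d γ ε b := by
  unfold dt
  rw [sum_vv]

/-- a frame with mixed vectors -/
theorem mix {m : ℕ} {R : T4 m} {δ Δ : ℝ} (hR : IsAC R) (hB : BiP R δ Δ) {a b c d : Fin m}
    (hab : a ≠ b) (hac : a ≠ c) (had : a ≠ d) (hbc : b ≠ c) (hbd : b ≠ d) (hcd : c ≠ d)
    {s : ℝ} (hs : s = 1 ∨ s = -1) :
    2 * δ ≤ 1 / 2 * (- R a c a c - R b d b d - R a d a d - R b c b c) +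
        s * (- R a c b d - R a d b c) ∧
      1 / 2 * (- R a c a c - R b d b d - R a d a d - R b c b c) +
        s * (- R a c b d - R a d b c) ≤ 2 * Δ := by
  obtain ⟨r, hr⟩ : ∃ r : ℝ, r ^ 2 = 1 / 2 := ⟨Real.sqrt (1 / 2), Real.sq_sqrt (by norm_num)⟩
  have hs2 : s * s = 1 := by
    rcases hs with rfl | rfl <;> norm_num
  have hrr : r * r = 1 / 2 := by rw [← hr]; ring
  have hon : ON (![vv a b r (s * r), vv c d r r, vv a b r (-(s * r)), vv c d r (-r)] :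
      Fin 4 → Fin m → ℝ) := by
    intro i j
    fin_cases i <;> fin_cases j <;>
      simp [dt_vv, vv, hab, hac, had, hbc, hbd, hcd, hab.symm, hac.symm, had.symm, hbc.symm,
        hbd.symm, hcd.symm] <;> first | linear_combination 2 * hrr + r * r * hs2 |
          linear_combination (-(r * r)) * hs2 | linear_combination 2 * hrr
  have h := hB _ hon
  have e0 : (![vv a b r (s * r), vv c d r r, vv a b r (-(s * r)), vv c d r (-r)] :
      Fin 4 → Fin m → ℝ) 0 = vv a b r (s * r) := rfl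
  have e1 : (![vv a b r (s * r), vv c d r r, vv a b r (-(s * r)), vv c d r (-r)] :
      Fin 4 → Fin m → ℝ) 1 = vv c d r r := rfl
  have e2 : (![vv a b r (s * r), vv c d r r, vv a b r (-(s * r)), vv c d r (-r)] :
      Fin 4 → Fin m → ℝ) 2 = vv a b r (-(s * r)) := rfl
  have e3 : (![vv a b r (s * r), vv c d r r, vv a b r (-(s * r)), vv c d r (-r)] :
      Fin 4 → Fin m → ℝ) 3 = vv c d r (-r) := rfl
  rw [e0, e1, e2, e3] at h
  have key : Kf R (vv a b r (s * r)) (vv c d r r) + Kf R (vv a b r (-(s * r))) (vv c d r (-r)) =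
      1 / 2 * (- R a c a c - R b d b d - R a d a d - R b c b c) +
        s * (- R a c b d - R a d b c) := by
    unfold Kf
    simp only [R4_eq, sum_vv]
    have f1 := hR.a34 a c c a
    have f2 := hR.a34 b c c b
    have f3 := hR.a34 a d d a
    have f4 := hR.a34 b d d b
    have f5 := hR.a34 a c d b
    have f6 := hR.a34 a d c b
    have f7 := hR.a34 b c d a
    have f8 := hR.a34 b d c a
    have g7 := hR.pr b c a d
    have g8 := hR.pr b d a c
    rw [f1, f2, f3, f4, f5, f6, f7, f8, g7, g8]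
    have hr4 : r * r * (r * r) = 1 / 4 := by rw [hrr]; norm_num
    linear_combination (-2 * (R a c a c + R a d a d) - 2 * s * s * (R b c b c + R b d b d) -
      4 * s * (R a c b d + R a d b c)) * hr4 -
      1 / 2 * (R b c b c + R b d b d) * hs2
  rw [key] at h
  exact h

/-- a coordinate frame -/
theorem coo {m : ℕ} {R : T4 m} {δ Δ : ℝ} (hR : IsAC R) (hB : BiP R δ Δ) {a b c d : Fin m}
    (hab : a ≠ b) (hac : a ≠ c) (had : a ≠ d) (hbc : b ≠ c) (hbd : b ≠ d) (hcd : c ≠ d) :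
    2 * δ ≤ - R a b a b - R c d c d ∧ - R a b a b - R c d c d ≤ 2 * Δ := by
  have hon : ON (![vv a a 1 0, vv b b 1 0, vv c c 1 0, vv d d 1 0] : Fin 4 → Fin m → ℝ) := by
    intro i j
    fin_cases i <;> fin_cases j <;>
      simp [dt_vv, vv, hab, hac, had, hbc, hbd, hcd, hab.symm, hac.symm, had.symm, hbc.symm,
        hbd.symm, hcd.symm]
  have h := hB _ hon
  have e0 : (![vv a a 1 0, vv b b 1 0, vv c c 1 0, vv d d 1 0] :
      Fin 4 → Fin m → ℝ) 0 = vv a a 1 0 := rfl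
  have e1 : (![vv a a 1 0, vv b b 1 0, vv c c 1 0, vv d d 1 0] :
      Fin 4 → Fin m → ℝ) 1 = vv b b 1 0 := rfl
  have e2 : (![vv a a 1 0, vv b b 1 0, vv c c 1 0, vv d d 1 0] :
      Fin 4 → Fin m → ℝ) 2 = vv c c 1 0 := rfl
  have e3 : (![vv a a 1 0, vv b b 1 0, vv c c 1 0, vv d d 1 0] :
      Fin 4 → Fin m → ℝ) 3 = vv d d 1 0 := rfl
  rw [e0, e1, e2, e3] at h
  have key : Kf R (vv a a 1 0) (vv b b 1 0) + Kf R (vv c c 1 0) (vv d d 1 0) =
      - R a b a b - R c d c d := by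
    unfold Kf
    simp only [R4_eq, sum_vv]
    rw [hR.a34 a b b a, hR.a34 c d d c]
    ring
  rw [key] at h
  exact h

theorem bnd (a b α β : Fin 3 → ℝ) (δ S : ℝ) (hα : ∀ i, 0 ≤ α i) (hβ : ∀ j, 0 ≤ β j)
    (h1 : ∑ i, α i = S) (h2 : ∑ j, β j = S) (h : ∀ i j, 2 * δ ≤ a i + b j) :
    2 * δ * S ≤ ∑ i, α i * a i + ∑ j, β j * b j := by
  obtain ⟨i0, hi0⟩ := Finite.exists_min a
  calc 2 * δ * S = ∑ i, α i * a i0 + ∑ j, β j * (2 * δ - a i0) := by
        rw [← Finset.sum_mul, ← Finset.sum_mul, h1, h2]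
        ring
    _ ≤ ∑ i, α i * a i + ∑ j, β j * b j := by
        refine add_le_add (Finset.sum_le_sum fun i _ => ?_) (Finset.sum_le_sum fun j _ => ?_)
        · exact mul_le_mul_of_nonneg_left (hi0 i) (hα i)
        · exact mul_le_mul_of_nonneg_left (by linarith [h i0 j]) (hβ j)

/-- the contribution, in terms of the eigenvalue-like numbers -/
noncomputable def E (a b : Fin 3 → ℝ) (p q u v : ℝ) : ℝ :=
  (p + q) / 2 * (a 0 + b 0) + (q + 2 * u) * a 1 + (q - 2 * u) * b 1 + (p - 2 * v) * a 2 +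
    (p + 2 * v) * b 2

theorem E_eq (a b : Fin 3 → ℝ) (hsum : ∑ i, a i = ∑ i, b i) (p q u v : ℝ) :
    E a b p q u v = ((p + q) / 2 - 2 / 3 * (u - v)) * a 0 + (q + (4 * u + 2 * v) / 3) * a 1 +
      (p - (4 * v + 2 * u) / 3) * a 2 + ((p + q) / 2 + 2 / 3 * (u - v)) * b 0 +
      (q - (4 * u + 2 * v) / 3) * b 1 + (p + (4 * v + 2 * u) / 3) * b 2 := by
  rw [Fin.sum_univ_three, Fin.sum_univ_three] at hsum
  unfold E
  linear_combination (2 / 3 * (u - v)) * hsum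

theorem sum3 (x y z : ℝ) (a : Fin 3 → ℝ) :
    ∑ i, (![x, y, z] : Fin 3 → ℝ) i * a i = x * a 0 + y * a 1 + z * a 2 := by
  rw [Fin.sum_univ_three]
  rfl

/-- the case of one negative coefficient -/
theorem neg_case (a b α β : Fin 3 → ℝ) (δ Δ S T0 T e : ℝ) (i0 j0 : Fin 3)
    (hα : ∀ i, 0 ≤ α i) (hβ : ∀ j, 0 ≤ β j)
    (h1 : ∑ i, α i = S + T0) (h2 : ∑ j, β j = S + T0) (hl : ∀ i j, 2 * δ ≤ a i + b j)
    (hu : ∀ i j, a i + b j ≤ 2 * Δ) (hT0 : 0 ≤ T0) (hT : T0 ≤ T)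
    (he : e = ∑ i, α i * a i + ∑ j, β j * b j - T0 * (a i0 + b j0)) :
    2 * δ * S - 2 * (Δ - δ) * T ≤ e := by
  have h3 := bnd a b α β δ (S + T0) hα hβ h1 h2 hl
  have h4 : T0 * (a i0 + b j0) ≤ T0 * (2 * Δ) := mul_le_mul_of_nonneg_left (hu i0 j0) hT0
  have h5 : 0 ≤ Δ - δ := by linarith [hl i0 j0, hu i0 j0]
  have h6 : (Δ - δ) * T0 ≤ (Δ - δ) * T := mul_le_mul_of_nonneg_left hT h5
  rw [he]
  linarith

theorem real (a b : Fin 3 → ℝ) (δ Δ : ℝ) (hsum : ∑ i, a i = ∑ i, b i)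
    (hl : ∀ i j, 2 * δ ≤ a i + b j) (hu : ∀ i j, a i + b j ≤ 2 * Δ) (A B C D : ℝ) :
    ∃ T, Ls T |A| |B| |C| |D| ∧ 3 * δ * (A ^ 2 + B ^ 2 + C ^ 2 + D ^ 2) - 2 * (Δ - δ) * T ≤
      E a b (A ^ 2 + B ^ 2) (C ^ 2 + D ^ 2) (A * B) (C * D) := by
  obtain ⟨p, hp⟩ : ∃ p, p = A ^ 2 + B ^ 2 := ⟨_, rfl⟩
  obtain ⟨q, hq⟩ : ∃ q, q = C ^ 2 + D ^ 2 := ⟨_, rfl⟩
  obtain ⟨u, hu'⟩ : ∃ u, u = A * B := ⟨_, rfl⟩
  obtain ⟨v, hv'⟩ : ∃ v, v = C * D := ⟨_, rfl⟩
  have hU : |A| * |B| = |u| := by rw [hu', abs_mul]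
  have hW : |C| * |D| = |v| := by rw [hv', abs_mul]
  have hpU : 2 * |u| ≤ p := by
    rw [← hU, hp, ← sq_abs A, ← sq_abs B]
    linarith [sq_nonneg (|A| - |B|)]
  have hqW : 2 * |v| ≤ q := by
    rw [← hW, hq, ← sq_abs C, ← sq_abs D]
    linarith [sq_nonneg (|C| - |D|)]
  have u1 := le_abs_self u
  have u2 := neg_abs_le u
  have v1 := le_abs_self v
  have v2 := neg_abs_le v
  have u0 := abs_nonneg u
  have v0 := abs_nonneg v
  have hN : A ^ 2 + B ^ 2 + C ^ 2 + D ^ 2 = p + q := by rw [hp, hq]; ring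
  have hT1 : (4 * (|A| * |B|) + 2 * (|C| * |D|)) / 3 - |C| ^ 2 - |D| ^ 2 =
      (4 * |u| + 2 * |v|) / 3 - q := by
    rw [hU, hW, sq_abs, sq_abs, hq]
    ring
  have hT2 : (4 * (|C| * |D|) + 2 * (|A| * |B|)) / 3 - |A| ^ 2 - |B| ^ 2 =
      (4 * |v| + 2 * |u|) / 3 - p := by
    rw [hU, hW, sq_abs, sq_abs, hp]
    ring
  rw [hN, ← hp, ← hq, ← hu', ← hv', E_eq a b hsum]
  by_cases c1 : q + (4 * u + 2 * v) / 3 < 0
  · refine ⟨(4 * |u| + 2 * |v|) / 3 - q, Or.inr (Or.inl hT1.symm), ?_⟩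
    have h := neg_case a b ![(p + q) / 2 - 2 / 3 * (u - v), 0, p - (4 * v + 2 * u) / 3]
      ![(p + q) / 2 + 2 / 3 * (u - v) - (q + (4 * u + 2 * v) / 3), q - (4 * u + 2 * v) / 3,
        p + (4 * v + 2 * u) / 3] δ Δ (3 / 2 * (p + q)) (-(q + (4 * u + 2 * v) / 3))
      ((4 * |u| + 2 * |v|) / 3 - q) _ 1 0 ?_ ?_ ?_ ?_ hl hu ?_ ?_ rfl
    · rw [sum3, sum3] at h
      linarith
    · intro i
      fin_cases i <;> simp <;> linarith
    · intro i
      fin_cases i <;> simp <;> linarith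
    · simp [Fin.sum_univ_three]
      ring
    · simp [Fin.sum_univ_three]
      ring
    · linarith
    · linarith
  by_cases c2 : q - (4 * u + 2 * v) / 3 < 0
  · refine ⟨(4 * |u| + 2 * |v|) / 3 - q, Or.inr (Or.inl hT1.symm), ?_⟩
    have h := neg_case a b ![(p + q) / 2 - 2 / 3 * (u - v) - (q - (4 * u + 2 * v) / 3),
        q + (4 * u + 2 * v) / 3, p - (4 * v + 2 * u) / 3]
      ![(p + q) / 2 + 2 / 3 * (u - v), 0, p + (4 * v + 2 * u) / 3] δ Δ (3 / 2 * (p + q))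
      (-(q - (4 * u + 2 * v) / 3)) ((4 * |u| + 2 * |v|) / 3 - q) _ 0 1 ?_ ?_ ?_ ?_ hl hu ?_ ?_
      rfl
    · rw [sum3, sum3] at h
      linarith
    · intro i
      fin_cases i <;> simp <;> linarith
    · intro i
      fin_cases i <;> simp <;> linarith
    · simp [Fin.sum_univ_three]
      ring
    · simp [Fin.sum_univ_three]
      ring
    · linarith
    · linarith
  by_cases c3 : p - (4 * v + 2 * u) / 3 < 0
  · refine ⟨(4 * |v| + 2 * |u|) / 3 - p, Or.inr (Or.inr hT2.symm), ?_⟩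
    have h := neg_case a b ![(p + q) / 2 - 2 / 3 * (u - v), q + (4 * u + 2 * v) / 3, 0]
      ![(p + q) / 2 + 2 / 3 * (u - v) - (p - (4 * v + 2 * u) / 3), q - (4 * u + 2 * v) / 3,
        p + (4 * v + 2 * u) / 3] δ Δ (3 / 2 * (p + q)) (-(p - (4 * v + 2 * u) / 3))
      ((4 * |v| + 2 * |u|) / 3 - p) _ 2 0 ?_ ?_ ?_ ?_ hl hu ?_ ?_ rfl
    · rw [sum3, sum3] at h
      linarith
    · intro i
      fin_cases i <;> simp <;> linarith
    · intro i
      fin_cases i <;> simp <;> linarith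
    · simp [Fin.sum_univ_three]
      ring
    · simp [Fin.sum_univ_three]
      ring
    · linarith
    · linarith
  by_cases c4 : p + (4 * v + 2 * u) / 3 < 0
  · refine ⟨(4 * |v| + 2 * |u|) / 3 - p, Or.inr (Or.inr hT2.symm), ?_⟩
    have h := neg_case a b ![(p + q) / 2 - 2 / 3 * (u - v) - (p + (4 * v + 2 * u) / 3),
        q + (4 * u + 2 * v) / 3, p - (4 * v + 2 * u) / 3]
      ![(p + q) / 2 + 2 / 3 * (u - v), q - (4 * u + 2 * v) / 3, 0] δ Δ (3 / 2 * (p + q))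
      (-(p + (4 * v + 2 * u) / 3)) ((4 * |v| + 2 * |u|) / 3 - p) _ 0 2 ?_ ?_ ?_ ?_ hl hu ?_ ?_
      rfl
    · rw [sum3, sum3] at h
      linarith
    · intro i
      fin_cases i <;> simp <;> linarith
    · intro i
      fin_cases i <;> simp <;> linarith
    · simp [Fin.sum_univ_three]
      ring
    · simp [Fin.sum_univ_three]
      ring
    · linarith
    · linarith
  refine ⟨0, Or.inl rfl, ?_⟩
  push Not at c1 c2 c3 c4
  have h := neg_case a b ![(p + q) / 2 - 2 / 3 * (u - v), q + (4 * u + 2 * v) / 3,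
      p - (4 * v + 2 * u) / 3]
    ![(p + q) / 2 + 2 / 3 * (u - v), q - (4 * u + 2 * v) / 3, p + (4 * v + 2 * u) / 3] δ Δ
    (3 / 2 * (p + q)) 0 0 _ 0 0 ?_ ?_ ?_ ?_ hl hu ?_ ?_ rfl
  · rw [sum3, sum3] at h
    linarith
  · intro i
    fin_cases i <;> simp <;> linarith
  · intro i
    fin_cases i <;> simp <;> linarith
  · simp [Fin.sum_univ_three]
    ring
  · simp [Fin.sum_univ_three]
    ring
  · exact le_rfl
  · exact le_rfl

end Gb

theorem s_gb : S_GB := by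
  intro R δ Δ hR hδ hB w x y z hwx hwy hwz hxy hxz hyz A B C D
  have bi := hR.bi w x y z
  have p1 := hR.pr x y w z
  have p2 := hR.a12 y w x z
  have s1 : R z y z y = R y z y z := by
    have := hR.a12 z y z y
    have := hR.a34 y z z y
    linarith
  have s2 : R z x z x = R x z x z := by
    have := hR.a12 z x z x
    have := hR.a34 x z z x
    linarith
  have s3 : R y x y x = R x y x y := by
    have := hR.a12 y x y x
    have := hR.a34 x y y x
    linarith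
  have t1 := hR.a34 w x z y
  have t2 := hR.a34 w y z x
  have t3 := hR.a34 w z y x
  obtain ⟨a, ha⟩ : ∃ a : Fin 3 → ℝ, a = ![(- R w x w x - R y z y z) / 2 - R w x y z,
    (- R w y w y - R x z x z) / 2 + R w y x z, (- R w z w z - R x y x y) / 2 - R w z x y] :=
    ⟨_, rfl⟩
  obtain ⟨b, hb⟩ : ∃ b : Fin 3 → ℝ, b = ![(- R w x w x - R y z y z) / 2 + R w x y z,
    (- R w y w y - R x z x z) / 2 - R w y x z, (- R w z w z - R x y x y) / 2 + R w z x y] :=
    ⟨_, rfl⟩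
  have a0 : a 0 = (- R w x w x - R y z y z) / 2 - R w x y z := by rw [ha]; rfl
  have a1 : a 1 = (- R w y w y - R x z x z) / 2 + R w y x z := by rw [ha]; rfl
  have a2 : a 2 = (- R w z w z - R x y x y) / 2 - R w z x y := by rw [ha]; rfl
  have b0 : b 0 = (- R w x w x - R y z y z) / 2 + R w x y z := by rw [hb]; rfl
  have b1 : b 1 = (- R w y w y - R x z x z) / 2 - R w y x z := by rw [hb]; rfl
  have b2 : b 2 = (- R w z w z - R x y x y) / 2 + R w z x y := by rw [hb]; rfl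
  have hsum : ∑ i, a i = ∑ i, b i := by
    rw [Fin.sum_univ_three, Fin.sum_univ_three, a0, a1, a2, b0, b1, b2]
    linarith
  have h00 := Gb.coo hR hB hwx hwy hwz hxy hxz hyz
  have h11 := Gb.coo hR hB hwy hwx hwz hxy.symm hyz hxz
  have h22 := Gb.coo hR hB hwz hwx hwy hxz.symm hyz.symm hxy
  have h01 := Gb.mix hR hB hwz hwx hwy hxz.symm hyz.symm hxy (s := -1) (Or.inr rfl)
  have h02 := Gb.mix hR hB hwy hwx hwz hxy.symm hyz hxz (s := 1) (Or.inl rfl)
  have h10 := Gb.mix hR hB hwz hwx hwy hxz.symm hyz.symm hxy (s := 1) (Or.inl rfl)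
  have h12 := Gb.mix hR hB hwx hwy hwz hxy hxz hyz (s := -1) (Or.inr rfl)
  have h20 := Gb.mix hR hB hwy hwx hwz hxy.symm hyz hxz (s := -1) (Or.inr rfl)
  have h21 := Gb.mix hR hB hwx hwy hwz hxy hxz hyz (s := 1) (Or.inl rfl)
  have hl : ∀ i j : Fin 3, 2 * δ ≤ a i + b j := by
    intro i j
    fin_cases i <;> fin_cases j
    · show 2 * δ ≤ a 0 + b 0
      linarith [h00.1]
    · show 2 * δ ≤ a 0 + b 1
      linarith [h01.1]
    · show 2 * δ ≤ a 0 + b 2
      linarith [h02.1]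
    · show 2 * δ ≤ a 1 + b 0
      linarith [h10.1]
    · show 2 * δ ≤ a 1 + b 1
      linarith [h11.1]
    · show 2 * δ ≤ a 1 + b 2
      linarith [h12.1]
    · show 2 * δ ≤ a 2 + b 0
      linarith [h20.1]
    · show 2 * δ ≤ a 2 + b 1
      linarith [h21.1]
    · show 2 * δ ≤ a 2 + b 2
      linarith [h22.1]
  have hu : ∀ i j : Fin 3, a i + b j ≤ 2 * Δ := by
    intro i j
    fin_cases i <;> fin_cases j
    · show a 0 + b 0 ≤ 2 * Δ
      linarith [h00.2]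
    · show a 0 + b 1 ≤ 2 * Δ
      linarith [h01.2]
    · show a 0 + b 2 ≤ 2 * Δ
      linarith [h02.2]
    · show a 1 + b 0 ≤ 2 * Δ
      linarith [h10.2]
    · show a 1 + b 1 ≤ 2 * Δ
      linarith [h11.2]
    · show a 1 + b 2 ≤ 2 * Δ
      linarith [h12.2]
    · show a 2 + b 0 ≤ 2 * Δ
      linarith [h20.2]
    · show a 2 + b 1 ≤ 2 * Δ
      linarith [h21.2]
    · show a 2 + b 2 ≤ 2 * Δ
      linarith [h22.2]
  obtain ⟨T, hT, h⟩ := Gb.real a b δ Δ hsum hl hu A B C D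
  refine ⟨T, hT, h.trans (le_of_eq ?_)⟩
  unfold Gb.E
  rw [a0, a1, a2, b0, b1, b2]
  unfold Pool.Agent.H781.H6.Gb
  ring

end Pool.Agent.H781.H6
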