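import Pool.Agent.H781.H6.A

/-!
Project H6: improvement of the frame.
-/

set_option autoImplicit false
set_option synthInstance.maxHeartbeats 400000
set_option maxHeartbeats 4000000

noncomputable section

namespace Pool.Agent.H781.H6

open Pool.Agent.H781.NG Pool.Agent.H781.CM

namespace Imp

/-- the four vectors of the other two pairs -/
def lk (k : Fin 3) : Fin 4 → Fin 6 := ![ix (k + 1) 0, ix (k + 1) 1, ix (k + 2) 0, ix (k + 2) 1]

theorem ix_inj : ∀ (k : Fin 3) (a b : Fin 2), ix k a = ix k b ↔ a = b := by decide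

theorem lk_inj : ∀ (k : Fin 3) (i j : Fin 4), lk k i = lk k j ↔ i = j := by decide

theorem ix_lk : ∀ (k : Fin 3) (a : Fin 2) (i : Fin 4), ix k a ≠ lk k i := by decide

theorem cov : ∀ (k : Fin 3) (p : Fin 6), (∃ a, p = ix k a) ∨ ∃ i, p = lk k i := by decide

theorem sum_split (k : Fin 3) (f : Fin 6 → ℝ) : ∑ q, f q = ∑ a, f (ix k a) + ∑ i, f (lk k i) := by
  have h : ∀ k : Fin 3, (Finset.univ : Finset (Fin 6)) =
      (Finset.univ.image (ix k)) ∪ (Finset.univ.image (lk k)) := by decide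
  have hd : ∀ k : Fin 3, Disjoint (Finset.univ.image (ix k)) (Finset.univ.image (lk k)) := by decide
  rw [h k, Finset.sum_union (hd k), Finset.sum_image, Finset.sum_image]
  · intro i _ j _ hij
    exact (lk_inj k i j).1 hij
  · intro i _ j _ hij
    exact (ix_inj k i j).1 hij

/-- the frame: the identity on the pair `k` and `O4` on the other vectors -/
def fr (k : Fin 3) (O4 : Fin 4 → Fin 4 → ℝ) : Fin 6 → Fin 6 → ℝ := fun p q =>
  (∑ a, if p = ix k a ∧ q = ix k a then 1 else 0) + ∑ i, ∑ j, if p = lk k i ∧ q = lk k j then O4 i j else 0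

theorem fr_kk (k : Fin 3) (O4 : Fin 4 → Fin 4 → ℝ) (a b : Fin 2) :
    fr k O4 (ix k a) (ix k b) = if a = b then 1 else 0 := by
  unfold fr
  simp only [ix_inj, ix_lk, false_and, if_false, Finset.sum_const_zero, add_zero]
  rw [Finset.sum_eq_single a]
  · simp only [true_and, eq_comm]
  · intro c _ hc
    rw [if_neg]
    rintro ⟨h, -⟩
    exact hc h.symm
  · intro h
    exact absurd (Finset.mem_univ a) h

theorem fr_kl (k : Fin 3) (O4 : Fin 4 → Fin 4 → ℝ) (a : Fin 2) (i : Fin 4) :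
    fr k O4 (ix k a) (lk k i) = 0 := by
  unfold fr
  simp only [ix_inj, ix_lk, (ix_lk k _ _).symm, false_and, and_false, if_false, Finset.sum_const_zero, add_zero]

theorem fr_lk (k : Fin 3) (O4 : Fin 4 → Fin 4 → ℝ) (a : Fin 2) (i : Fin 4) :
    fr k O4 (lk k i) (ix k a) = 0 := by
  unfold fr
  simp only [ix_inj, ix_lk, (ix_lk k _ _).symm, false_and, and_false, if_false, Finset.sum_const_zero, add_zero]

theorem fr_ll (k : Fin 3) (O4 : Fin 4 → Fin 4 → ℝ) (i j : Fin 4) :
    fr k O4 (lk k i) (lk k j) = O4 i j := by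
  unfold fr
  simp only [lk_inj, (ix_lk k _ _).symm, false_and, if_false, Finset.sum_const_zero, zero_add]
  rw [Finset.sum_eq_single i]
  · rw [Finset.sum_eq_single j]
    · simp only [and_self, if_true]
    · intro c _ hc
      rw [if_neg]
      rintro ⟨-, h⟩
      exact hc h.symm
    · intro h
      exact absurd (Finset.mem_univ j) h
  · intro c _ hc
    apply Finset.sum_eq_zero
    intro d _
    rw [if_neg]
    rintro ⟨h, -⟩
    exact hc h.symm
  · intro h
    exact absurd (Finset.mem_univ i) h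

theorem fr_on (k : Fin 3) {O4 : Fin 4 → Fin 4 → ℝ} (h : ON O4) : ON (fr k O4) := by
  intro p q
  unfold dt
  rw [sum_split k]
  rcases cov k p with ⟨a, rfl⟩ | ⟨i, rfl⟩ <;> rcases cov k q with ⟨b, rfl⟩ | ⟨j, rfl⟩
  · simp only [fr_kk, fr_kl, ix_inj, mul_zero, Finset.sum_const_zero, add_zero]
    rw [Finset.sum_eq_single a]
    · simp only [if_true, one_mul, eq_comm]
    · intro c _ hc
      rw [if_neg (fun h => hc h.symm), zero_mul]
    · intro h
      exact absurd (Finset.mem_univ a) h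
  · simp only [fr_kk, fr_kl, fr_lk, fr_ll, ix_lk, mul_zero, zero_mul, Finset.sum_const_zero, add_zero, if_false]
  · simp only [fr_kk, fr_kl, fr_lk, fr_ll, (ix_lk k _ _).symm, mul_zero, zero_mul, Finset.sum_const_zero, add_zero,
      if_false]
  · simp only [fr_lk, fr_ll, lk_inj, mul_zero, Finset.sum_const_zero, zero_add]
    exact h i j

theorem rot_alt {t : Fin 6 → Fin 6 → Fin 6 → ℝ} (ht : Alt3 t) (O : Fin 6 → Fin 6 → ℝ) : Alt3 (rot O t) := by
  constructor
  · intro i j k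
    unfold rot
    rw [Finset.sum_comm, ← Finset.sum_neg_distrib]
    apply Finset.sum_congr rfl
    intro b _
    rw [← Finset.sum_neg_distrib]
    apply Finset.sum_congr rfl
    intro a _
    rw [← Finset.sum_neg_distrib]
    apply Finset.sum_congr rfl
    intro c _
    rw [ht.1 a b c]
    ring
  · intro i j k
    unfold rot
    rw [← Finset.sum_neg_distrib]
    apply Finset.sum_congr rfl
    intro a _
    rw [Finset.sum_comm, ← Finset.sum_neg_distrib]
    apply Finset.sum_congr rfl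
    intro c _
    rw [← Finset.sum_neg_distrib]
    apply Finset.sum_congr rfl
    intro b _
    rw [ht.2 a b c]
    ring

theorem rot_fr (k : Fin 3) (O4 : Fin 4 → Fin 4 → ℝ) (t : Fin 6 → Fin 6 → Fin 6 → ℝ) (a : Fin 2) (i j : Fin 4) :
    rot (fr k O4) t (ix k a) (lk k i) (lk k j) =
      ∑ i', ∑ j', O4 i i' * O4 j j' * t (ix k a) (lk k i') (lk k j') := by
  unfold rot
  simp only [sum_split k]
  simp only [fr_kk, fr_kl, fr_lk, fr_ll, mul_zero, zero_mul, Finset.sum_const_zero, add_zero, zero_add]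
  rw [Finset.sum_eq_single a]
  · simp only [if_true, one_mul]
  · intro c _ hc
    simp only [if_neg (fun h : a = c => hc h.symm), zero_mul, Finset.sum_const_zero]
  · intro h
    exact absurd (Finset.mem_univ a) h

/-- the part `G` in terms of the pair `k` -/
theorem GG_eq {t : Fin 6 → Fin 6 → Fin 6 → ℝ} (ht : Alt3 t) (k : Fin 3) :
    GG t = ∑ a : Fin 2, (t (ix k a) (lk k 0) (lk k 2) ^ 2 + t (ix k a) (lk k 0) (lk k 3) ^ 2 +
      t (ix k a) (lk k 1) (lk k 2) ^ 2 + t (ix k a) (lk k 1) (lk k 3) ^ 2) := by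
  have hc : ∀ i j k, t i j k = t j k i := by
    intro i j k
    rw [ht.1 i j k, ht.2 j i k, neg_neg]
  unfold GG
  fin_cases k
  · simp only [Fin.sum_univ_two]
    simp only [lk, Matrix.cons_val]
    show _ = _
    simp only [Fin.zero_eta, Fin.isValue, zero_add]
    ring
  · simp only [Fin.sum_univ_two]
    have e : ∀ a b c : Fin 2, t (ix 0 a) (ix 1 b) (ix 2 c) = t (ix 1 b) (ix 2 c) (ix 0 a) := fun a b c => hc _ _ _
    simp only [e]
    simp only [lk, Matrix.cons_val]
    have e1 : ((⟨1, by decide⟩ : Fin 3) + 1) = 2 := by decide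
    have e2 : ((⟨1, by decide⟩ : Fin 3) + 2) = 0 := by decide
    simp only [Fin.mk_one, Fin.isValue] at *
    simp only [e1, e2]
    ring
  · simp only [Fin.sum_univ_two]
    have e : ∀ a b c : Fin 2, t (ix 0 a) (ix 1 b) (ix 2 c) = t (ix 2 c) (ix 0 a) (ix 1 b) :=
      fun a b c => by rw [hc, hc]
    simp only [e]
    simp only [lk, Matrix.cons_val]
    have e1 : ((⟨2, by decide⟩ : Fin 3) + 1) = 0 := by decide
    have e2 : ((⟨2, by decide⟩ : Fin 3) + 2) = 1 := by decide
    simp only [Fin.reduceFinMk, Fin.isValue] at *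
    simp only [e1, e2]
    ring

/-- invariance of the norm -/
theorem nrm {O4 : Fin 4 → Fin 4 → ℝ} (h : ON O4) (X : Fin 4 → Fin 4 → ℝ) :
    ∑ i, ∑ j, (∑ i', ∑ j', O4 i i' * O4 j j' * X i' j') ^ 2 = ∑ i, ∑ j, X i j ^ 2 := by
  have h1 : (Matrix.of O4) * (Matrix.of O4).transpose = 1 := by
    ext i j
    rw [Matrix.mul_apply, Matrix.one_apply]
    simpa [dt] using h i j
  have h2 : (Matrix.of O4).transpose * (Matrix.of O4) = 1 := by
    exact mul_eq_one_comm.1 h1
  have htr : ∀ Z : Matrix (Fin 4) (Fin 4) ℝ, ∑ i, ∑ j, Z i j ^ 2 = Matrix.trace (Z * Z.transpose) := by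
    intro Z
    unfold Matrix.trace
    apply Finset.sum_congr rfl
    intro i _
    rw [Matrix.diag_apply, Matrix.mul_apply]
    apply Finset.sum_congr rfl
    intro j _
    rw [Matrix.transpose_apply, sq]
  have e : ∀ i j, ∑ i', ∑ j', O4 i i' * O4 j j' * X i' j' =
      ((Matrix.of O4) * (Matrix.of X) * (Matrix.of O4).transpose) i j := by
    intro i j
    rw [Matrix.mul_apply, Finset.sum_comm]
    apply Finset.sum_congr rfl
    intro j' _
    rw [Matrix.mul_apply, Matrix.transpose_apply, Finset.sum_mul]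
    apply Finset.sum_congr rfl
    intro i' _
    simp only [Matrix.of_apply]
    ring
  simp only [e]
  rw [htr, Matrix.transpose_mul, Matrix.transpose_mul, Matrix.transpose_transpose]
  have e2 : (Matrix.of O4) * (Matrix.of X) * (Matrix.of O4).transpose *
      ((Matrix.of O4) * ((Matrix.of X).transpose * (Matrix.of O4).transpose)) =
      (Matrix.of O4) * ((Matrix.of X) * (Matrix.of X).transpose * (Matrix.of O4).transpose) := by
    calc _ = (Matrix.of O4) * (Matrix.of X) * ((Matrix.of O4).transpose * (Matrix.of O4)) *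
        ((Matrix.of X).transpose * (Matrix.of O4).transpose) := by simp only [Matrix.mul_assoc]
      _ = _ := by rw [h2, Matrix.mul_one]; simp only [Matrix.mul_assoc]
  rw [e2, Matrix.trace_mul_comm, Matrix.mul_assoc, h2, Matrix.mul_one, ← htr]
  rfl

/-- one of the two matrices -/
theorem key {O4 : Fin 4 → Fin 4 → ℝ} (h : ON O4) {X : Fin 4 → Fin 4 → ℝ} (hX : ∀ i j, X i j = - X j i)
    {X' : Fin 4 → Fin 4 → ℝ} (hX' : ∀ i j, X' i j = ∑ a, ∑ b, O4 i a * O4 j b * X a b)
    (h0 : X' 0 1 = 0) (h1 : X' 2 3 = 0) :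
    X' 0 2 ^ 2 + X' 0 3 ^ 2 + X' 1 2 ^ 2 + X' 1 3 ^ 2 =
      X 0 2 ^ 2 + X 0 3 ^ 2 + X 1 2 ^ 2 + X 1 3 ^ 2 + X 0 1 ^ 2 + X 2 3 ^ 2 := by
  have ha : ∀ i j, X' i j = - X' j i := by
    intro i j
    rw [hX', hX', Finset.sum_comm, ← Finset.sum_neg_distrib]
    apply Finset.sum_congr rfl
    intro b _
    rw [← Finset.sum_neg_distrib]
    apply Finset.sum_congr rfl
    intro a _
    rw [hX a b]
    ring
  have hn := nrm h X
  simp only [← hX'] at hn
  have hs : ∀ Z : Fin 4 → Fin 4 → ℝ, (∀ i j, Z i j = - Z j i) → ∑ i, ∑ j, Z i j ^ 2 =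
      2 * (Z 0 2 ^ 2 + Z 0 3 ^ 2 + Z 1 2 ^ 2 + Z 1 3 ^ 2 + Z 0 1 ^ 2 + Z 2 3 ^ 2) := by
    intro Z hZ
    have d : ∀ i, Z i i = 0 := fun i => by linarith [hZ i i]
    simp only [Fin.sum_univ_four]
    rw [hZ 1 0, hZ 2 0, hZ 3 0, hZ 2 1, hZ 3 1, hZ 3 2, d 0, d 1, d 2, d 3]
    ring
  rw [hs X' ha, hs X hX, h0, h1] at hn
  linarith

end Imp

open Pool.Agent.H781.H6.Imp in
theorem s_imp (h : S_L4) : S_IMP := by
  intro t ht k
  obtain ⟨O4, hO, x1, x2, y1, y2⟩ := h (fun i j => t (ix k 0) (lk k i) (lk k j))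
    (fun i j => t (ix k 1) (lk k i) (lk k j)) (fun i j => ht.2 _ _ _) (fun i j => ht.2 _ _ _)
  refine ⟨fr k O4, fr_on k hO, ?_⟩
  rw [GG_eq (rot_alt ht _) k, GG_eq ht k]
  have hk : ∀ a : Fin 2, rot (fr k O4) t (ix k a) (lk k 0) (lk k 1) = 0 ∧
      rot (fr k O4) t (ix k a) (lk k 2) (lk k 3) = 0 := by
    intro a
    rw [rot_fr, rot_fr]
    fin_cases a
    · exact ⟨x1, x2⟩
    · exact ⟨y1, y2⟩
  rw [← Finset.sum_add_distrib]
  apply Finset.sum_congr rfl
  intro a _
  have e := key hO (X := fun i j => t (ix k a) (lk k i) (lk k j)) (fun i j => ht.2 _ _ _)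
    (X' := fun i j => rot (fr k O4) t (ix k a) (lk k i) (lk k j)) (fun i j => rot_fr k O4 t a i j)
    (hk a).1 (hk a).2
  rw [e]
  have l0 : lk k 0 = ix (k + 1) 0 := rfl
  have l1 : lk k 1 = ix (k + 1) 1 := rfl
  have l2 : lk k 2 = ix (k + 2) 0 := rfl
  have l3 : lk k 3 = ix (k + 2) 1 := rfl
  rw [l0, l1, l2, l3]
  ring

end Pool.Agent.H781.H6
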