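import Pool.Agent.H781.H6.A

/-!
Project H6: the first step of the normal form by compactness (helper122).
-/

set_option autoImplicit false
set_option synthInstance.maxHeartbeats 400000
set_option maxHeartbeats 4000000

noncomputable section

namespace Pool.Agent.H781.H6

open Pool.Agent.H781.NG Pool.Agent.H781.CM

namespace Nf

/-- product of frames -/
def mo (P O : Fin 6 → Fin 6 → ℝ) : Fin 6 → Fin 6 → ℝ := fun i a => ∑ b, P i b * O b a

/-- the trilinear form -/
def T3 (t : Fin 6 → Fin 6 → Fin 6 → ℝ) (x y z : Fin 6 → ℝ) : ℝ :=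
  ∑ a, ∑ b, ∑ c, x a * y b * z c * t a b c

lemma T3_x (t : Fin 6 → Fin 6 → Fin 6 → ℝ) (O : Fin 6 → Fin 6 → ℝ) (x y z : Fin 6 → ℝ) :
    T3 t (fun a => ∑ p, x p * O p a) y z = ∑ p, x p * T3 t (O p) y z := by
  unfold T3
  simp_rw [Finset.mul_sum, Finset.sum_mul]
  symm
  rw [Finset.sum_comm]
  refine Finset.sum_congr rfl fun a _ => ?_
  rw [Finset.sum_comm]
  refine Finset.sum_congr rfl fun b _ => ?_
  rw [Finset.sum_comm]
  refine Finset.sum_congr rfl fun c _ => Finset.sum_congr rfl fun p _ => ?_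
  ring

lemma T3_y (t : Fin 6 → Fin 6 → Fin 6 → ℝ) (O : Fin 6 → Fin 6 → ℝ) (x y z : Fin 6 → ℝ) :
    T3 t x (fun a => ∑ p, y p * O p a) z = ∑ p, y p * T3 t x (O p) z := by
  unfold T3
  simp_rw [Finset.mul_sum, Finset.sum_mul]
  symm
  rw [Finset.sum_comm]
  refine Finset.sum_congr rfl fun a _ => ?_
  rw [Finset.sum_comm]
  refine Finset.sum_congr rfl fun b _ => ?_
  rw [Finset.sum_comm]
  refine Finset.sum_congr rfl fun c _ => Finset.sum_congr rfl fun p _ => ?_
  ring

lemma T3_z (t : Fin 6 → Fin 6 → Fin 6 → ℝ) (O : Fin 6 → Fin 6 → ℝ) (x y z : Fin 6 → ℝ) :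
    T3 t x y (fun a => ∑ p, z p * O p a) = ∑ p, z p * T3 t x y (O p) := by
  unfold T3
  simp_rw [Finset.mul_sum, Finset.sum_mul]
  symm
  rw [Finset.sum_comm]
  refine Finset.sum_congr rfl fun a _ => ?_
  rw [Finset.sum_comm]
  refine Finset.sum_congr rfl fun b _ => ?_
  rw [Finset.sum_comm]
  refine Finset.sum_congr rfl fun c _ => Finset.sum_congr rfl fun p _ => ?_
  ring

lemma rot_T3 (O : Fin 6 → Fin 6 → ℝ) (t : Fin 6 → Fin 6 → Fin 6 → ℝ) (i j k : Fin 6) :
    rot O t i j k = T3 t (O i) (O j) (O k) := rfl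

lemma rot_mo (P O : Fin 6 → Fin 6 → ℝ) (t : Fin 6 → Fin 6 → Fin 6 → ℝ) :
    rot P (rot O t) = rot (mo P O) t := by
  funext i j k
  have h1 : rot (mo P O) t i j k = ∑ a, P i a * ∑ b, P j b * ∑ c, P k c * T3 t (O a) (O b) (O c) := by
    rw [rot_T3]
    show T3 t (fun a => ∑ p, P i p * O p a) (fun a => ∑ p, P j p * O p a) (fun a => ∑ p, P k p * O p a) = _
    rw [T3_x]
    refine Finset.sum_congr rfl fun a _ => ?_
    rw [T3_y]
    congr 1
    refine Finset.sum_congr rfl fun b _ => ?_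
    rw [T3_z]
  rw [h1]
  unfold rot T3
  simp_rw [Finset.mul_sum]
  refine Finset.sum_congr rfl fun a _ => Finset.sum_congr rfl fun b _ => Finset.sum_congr rfl fun c _ =>
    Finset.sum_congr rfl fun d _ => Finset.sum_congr rfl fun e _ => Finset.sum_congr rfl fun f _ => ?_
  ring

lemma on_mo {P O : Fin 6 → Fin 6 → ℝ} (hP : ON P) (hO : ON O) : ON (mo P O) := by
  intro i j
  have h1 : dt (mo P O i) (mo P O j) = ∑ b, ∑ c, P i b * P j c * dt (O b) (O c) := by
    unfold dt mo
    simp_rw [Finset.sum_mul_sum, Finset.mul_sum]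
    rw [Finset.sum_comm]
    refine Finset.sum_congr rfl fun b _ => ?_
    rw [Finset.sum_comm]
    refine Finset.sum_congr rfl fun c _ => Finset.sum_congr rfl fun a _ => ?_
    ring
  rw [h1]
  have h2 : ∀ b c, dt (O b) (O c) = if b = c then 1 else 0 := hO
  simp_rw [h2, mul_ite, mul_one, mul_zero, Finset.sum_ite_eq, Finset.mem_univ, if_true]
  exact hP i j

lemma alt_rot (O : Fin 6 → Fin 6 → ℝ) {t : Fin 6 → Fin 6 → Fin 6 → ℝ} (ht : Alt3 t) : Alt3 (rot O t) := by
  constructor
  · intro i j k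
    unfold rot
    rw [Finset.sum_comm, ← Finset.sum_neg_distrib]
    refine Finset.sum_congr rfl fun a _ => ?_
    rw [← Finset.sum_neg_distrib]
    refine Finset.sum_congr rfl fun b _ => ?_
    rw [← Finset.sum_neg_distrib]
    refine Finset.sum_congr rfl fun c _ => ?_
    rw [ht.1 b a c]
    ring
  · intro i j k
    unfold rot
    rw [← Finset.sum_neg_distrib]
    refine Finset.sum_congr rfl fun a _ => ?_
    rw [Finset.sum_comm, ← Finset.sum_neg_distrib]
    refine Finset.sum_congr rfl fun b _ => ?_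
    rw [← Finset.sum_neg_distrib]
    refine Finset.sum_congr rfl fun c _ => ?_
    rw [ht.2 a c b]
    ring

lemma cpt : IsCompact {O : Fin 6 → Fin 6 → ℝ | ON O} := by
  refine IsCompact.of_isClosed_subset
    (isCompact_Icc (a := fun _ _ => (-1 : ℝ)) (b := fun _ _ => (1 : ℝ))) ?_ ?_
  · have e : {O : Fin 6 → Fin 6 → ℝ | ON O} =
        ⋂ i, ⋂ j, {O : Fin 6 → Fin 6 → ℝ | dt (O i) (O j) = if i = j then 1 else 0} := by
      ext O
      simp only [Set.mem_iInter, Set.mem_ofPred_eq]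
      rfl
    rw [e]
    refine isClosed_iInter fun i => isClosed_iInter fun j => isClosed_eq ?_ continuous_const
    unfold dt
    fun_prop
  · intro O hO
    have h1 : ∀ i a, O i a ^ 2 ≤ 1 := by
      intro i a
      have h2 : dt (O i) (O i) = 1 := by rw [hO i i, if_pos rfl]
      unfold dt at h2
      have h3 : O i a * O i a ≤ ∑ a, O i a * O i a :=
        Finset.single_le_sum (f := fun a => O i a * O i a) (fun b _ => mul_self_nonneg _) (Finset.mem_univ a)
      nlinarith
    refine ⟨fun i a => ?_, fun i a => ?_⟩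
    · have := h1 i a
      show -1 ≤ O i a
      nlinarith
    · have := h1 i a
      show O i a ≤ 1
      nlinarith

end Nf

open Nf in
theorem s_nf (h : S_IMP) : S_NF := by
  intro t ht
  have hid : ON (fun i a : Fin 6 => if i = a then (1 : ℝ) else 0) := by
    intro i j
    unfold dt
    simp
  have hc : ContinuousOn (fun O : Fin 6 → Fin 6 → ℝ => GG (rot O t)) {O | ON O} := by
    refine Continuous.continuousOn ?_
    unfold GG rot
    fun_prop
  obtain ⟨O, hO, hmax⟩ := cpt.exists_isMaxOn ⟨_, hid⟩ hc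
  refine ⟨O, hO, ?_⟩
  obtain ⟨s, hs⟩ : ∃ s, s = rot O t := ⟨_, rfl⟩
  have hs3 : Alt3 s := by rw [hs]; exact alt_rot O ht
  rw [← hs]
  have F : ∀ (k : Fin 3) (a : Fin 2), s (ix k a) (ix (k + 1) 0) (ix (k + 1) 1) = 0 ∧
      s (ix k a) (ix (k + 2) 0) (ix (k + 2) 1) = 0 := by
    intro k a
    obtain ⟨P, hP, he⟩ := h s hs3 k
    have h1 : GG (rot P s) ≤ GG s := by
      rw [hs, rot_mo]
      exact hmax (on_mo hP hO)
    rw [he, Fin.sum_univ_two] at h1
    have h2 := sq_nonneg (s (ix k 0) (ix (k + 1) 0) (ix (k + 1) 1))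
    have h3 := sq_nonneg (s (ix k 1) (ix (k + 1) 0) (ix (k + 1) 1))
    have h4 := sq_nonneg (s (ix k 0) (ix (k + 2) 0) (ix (k + 2) 1))
    have h5 := sq_nonneg (s (ix k 1) (ix (k + 2) 0) (ix (k + 2) 1))
    have h6 : a = 0 ∨ a = 1 := by revert a; decide
    rcases h6 with rfl | rfl
    · exact ⟨pow_eq_zero_iff (two_ne_zero) |>.1 (by linarith), pow_eq_zero_iff (two_ne_zero) |>.1 (by linarith)⟩
    · exact ⟨pow_eq_zero_iff (two_ne_zero) |>.1 (by linarith), pow_eq_zero_iff (two_ne_zero) |>.1 (by linarith)⟩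
  have d1 : ∀ i k, s i i k = 0 := by
    intro i k
    have := hs3.1 i i k
    linarith
  have d2 : ∀ i k, s i k k = 0 := by
    intro i k
    have := hs3.2 i k k
    linarith
  have cy : ∀ i j k, s i j k = s k i j := by
    intro i j k
    rw [hs3.2 i j k, hs3.1 i k j, neg_neg]
  have G : ∀ (l : Fin 3) (p : Fin 6), s p (ix l 0) (ix l 1) = 0 := by
    intro l p
    obtain ⟨m, a, rfl⟩ : ∃ m a, p = ix m a := by revert p; decide
    have h6 : l = m ∨ l = m + 1 ∨ l = m + 2 := by revert l m; decide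
    rcases h6 with rfl | rfl | rfl
    · have h7 : a = 0 ∨ a = 1 := by revert a; decide
      rcases h7 with rfl | rfl
      · exact d1 _ _
      · rw [hs3.2, d1, neg_zero]
    · exact (F m a).1
    · exact (F m a).2
  intro i j k hij
  obtain ⟨l, a, b, rfl, rfl⟩ : ∃ l a b, i = ix l a ∧ j = ix l b := by
    clear cy d1 d2 G F
    revert i j
    decide
  have h7 : a = 0 ∨ a = 1 := by clear hij; revert a; decide
  have h8 : b = 0 ∨ b = 1 := by clear hij; revert b; decide
  rcases h7 with rfl | rfl <;> rcases h8 with rfl | rfl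
  · exact d1 _ _
  · rw [cy]; exact G _ _
  · rw [hs3.1, cy, G, neg_zero]
  · exact d1 _ _

end Pool.Agent.H781.H6
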