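import Pool.Agent.H781.H6.A

/-!
Normal form of 3-forms in the Fock space: `S_NF2` from `S_NF` and `S_TOR`.
-/

set_option autoImplicit false
set_option synthInstance.maxHeartbeats 400000
set_option maxHeartbeats 4000000

noncomputable section

namespace Pool.Agent.H781.H6

open Pool.Agent.H781.NG Pool.Agent.H781.CM

namespace Nf2

open Finset

/-- the components of a 3-form -/
def tc (u : Fk 6 ℝ) : Fin 6 → Fin 6 → Fin 6 → ℝ := fun i j k => NG.an k (NG.an j (NG.an i u)) ∅

theorem tc_alt (u : Fk 6 ℝ) : Alt3 (tc u) := by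
  constructor
  · intro i j k
    unfold tc
    rw [an_an j i, map_neg]
    rfl
  · intro i j k
    unfold tc
    rw [an_an k j]
    rfl

theorem tc_val (u : Fk 6 ℝ) {i j k : Fin 6} (hij : i < j) (hjk : j < k) :
    tc u i j k = u {i, j, k} := by
  have hik := hij.trans hjk
  have e0 : sg k (∅ : Finset (Fin 6)) = 1 := by simp [sg]
  have e1 : sg j (insert k (∅ : Finset (Fin 6))) = 1 := by
    rw [sg_insert_of_gt hjk]
    simp [sg]
  have e2 : sg i (insert j (insert k (∅ : Finset (Fin 6)))) = 1 := by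
    rw [sg_insert_of_gt hij, sg_insert_of_gt hik]
    simp [sg]
  unfold tc
  rw [an_apply, if_neg (notMem_empty _), an_apply, if_neg (by simp [hjk.ne]), an_apply,
    if_neg (by simp [hij.ne, hik.ne]), e0, e1, e2]
  simp

/-- the product of two frames -/
def cmp (M O : Fin 6 → Fin 6 → ℝ) : Fin 6 → Fin 6 → ℝ := fun i x => ∑ j, M i j * O j x

theorem L1 (m : Fin 6 → ℝ) (O : Fin 6 → Fin 6 → ℝ) (f : Fin 6 → ℝ) :
    ∑ a, (∑ p, m p * O p a) * f a = ∑ p, m p * ∑ a, O p a * f a := by
  simp only [sum_mul, mul_sum]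
  rw [sum_comm]
  exact sum_congr rfl fun p _ => sum_congr rfl fun a _ => by ring

theorem cmp_on {M O : Fin 6 → Fin 6 → ℝ} (hM : ON M) (hO : ON O) : ON (cmp M O) := by
  intro i j
  have h0 : ∀ p, dt (O p) (cmp M O j) = M j p := by
    intro p
    have h1 : dt (O p) (cmp M O j) = ∑ a, (∑ q, M j q * O q a) * O p a := by
      unfold dt cmp
      exact sum_congr rfl fun a _ => mul_comm _ _
    rw [h1, L1, sum_eq_single p]
    · have h2 := hO p p
      unfold dt at h2
      rw [h2, if_pos rfl, mul_one]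
    · intro q _ hq
      have h2 := hO q p
      unfold dt at h2
      rw [h2, if_neg hq, mul_zero]
    · intro h2
      exact absurd (mem_univ p) h2
  have h1 : dt (cmp M O i) (cmp M O j) = ∑ p, M i p * dt (O p) (cmp M O j) := L1 _ _ _
  rw [h1, ← hM i j]
  exact sum_congr rfl fun p _ => by rw [h0]

/-- the trilinear form of `t` -/
def tf (t : Fin 6 → Fin 6 → Fin 6 → ℝ) (x y z : Fin 6 → ℝ) : ℝ :=
  ∑ a, ∑ b, ∑ c, x a * y b * z c * t a b c

theorem tf1 (t : Fin 6 → Fin 6 → Fin 6 → ℝ) (m : Fin 6 → ℝ) (O : Fin 6 → Fin 6 → ℝ)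
    (y z : Fin 6 → ℝ) :
    tf t (fun x => ∑ p, m p * O p x) y z = ∑ p, m p * tf t (O p) y z := by
  have h : ∀ x : Fin 6 → ℝ, tf t x y z = ∑ a, x a * ∑ b, ∑ c, y b * z c * t a b c := by
    intro x
    unfold tf
    simp only [mul_sum]
    exact sum_congr rfl fun a _ => sum_congr rfl fun b _ => sum_congr rfl fun c _ => by ring
  rw [h, L1]
  exact sum_congr rfl fun p _ => by rw [h]

theorem tf2 (t : Fin 6 → Fin 6 → Fin 6 → ℝ) (m : Fin 6 → ℝ) (O : Fin 6 → Fin 6 → ℝ)
    (x z : Fin 6 → ℝ) :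
    tf t x (fun y => ∑ p, m p * O p y) z = ∑ p, m p * tf t x (O p) z := by
  have h : ∀ y : Fin 6 → ℝ, tf t x y z = ∑ b, y b * ∑ a, ∑ c, x a * z c * t a b c := by
    intro y
    unfold tf
    rw [sum_comm]
    simp only [mul_sum]
    exact sum_congr rfl fun a _ => sum_congr rfl fun b _ => sum_congr rfl fun c _ => by ring
  rw [h, L1]
  exact sum_congr rfl fun p _ => by rw [h]

theorem tf3 (t : Fin 6 → Fin 6 → Fin 6 → ℝ) (m : Fin 6 → ℝ) (O : Fin 6 → Fin 6 → ℝ)
    (x y : Fin 6 → ℝ) :
    tf t x y (fun z => ∑ p, m p * O p z) = ∑ p, m p * tf t x y (O p) := by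
  have h : ∀ z : Fin 6 → ℝ, tf t x y z = ∑ c, z c * ∑ a, ∑ b, x a * y b * t a b c := by
    intro z
    unfold tf
    simp only [mul_sum]
    rw [show (∑ c, ∑ a, ∑ b, z c * (x a * y b * t a b c)) =
      ∑ a, ∑ c, ∑ b, z c * (x a * y b * t a b c) from sum_comm]
    refine sum_congr rfl fun a _ => ?_
    rw [sum_comm]
    exact sum_congr rfl fun b _ => sum_congr rfl fun c _ => by ring
  rw [h, L1]
  exact sum_congr rfl fun p _ => by rw [h]

theorem rot_cmp (M O : Fin 6 → Fin 6 → ℝ) (t : Fin 6 → Fin 6 → Fin 6 → ℝ) (i j k : Fin 6) :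
    rot (cmp M O) t i j k = ∑ p, M i p * ∑ q, M j q * ∑ r, M k r * rot O t p q r := by
  change tf t (fun x => ∑ p, M i p * O p x) (fun x => ∑ p, M j p * O p x)
    (fun x => ∑ p, M k p * O p x) = _
  rw [tf1]
  refine sum_congr rfl fun p _ => ?_
  rw [tf2]
  congr 1
  refine sum_congr rfl fun q _ => ?_
  rw [tf3]
  rfl

theorem rot_alt {O : Fin 6 → Fin 6 → ℝ} {t : Fin 6 → Fin 6 → Fin 6 → ℝ} (h : Alt3 t) :
    Alt3 (rot O t) := by
  constructor
  · intro i j k
    unfold rot
    rw [sum_comm, ← sum_neg_distrib]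
    refine sum_congr rfl fun a _ => ?_
    rw [← sum_neg_distrib]
    refine sum_congr rfl fun b _ => ?_
    rw [← sum_neg_distrib]
    refine sum_congr rfl fun c _ => ?_
    rw [h.1 b a c]
    ring
  · intro i j k
    unfold rot
    rw [← sum_neg_distrib]
    refine sum_congr rfl fun a _ => ?_
    rw [sum_comm, ← sum_neg_distrib]
    refine sum_congr rfl fun b _ => ?_
    rw [← sum_neg_distrib]
    refine sum_congr rfl fun c _ => ?_
    rw [h.2 a c b]
    ring

/-- the rotations of the three planes -/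
def MM (α β γ : ℝ) : Fin 6 → Fin 6 → ℝ :=
  ![![Real.cos α, Real.sin α, 0, 0, 0, 0], ![- Real.sin α, Real.cos α, 0, 0, 0, 0],
    ![0, 0, Real.cos β, Real.sin β, 0, 0], ![0, 0, - Real.sin β, Real.cos β, 0, 0],
    ![0, 0, 0, 0, Real.cos γ, Real.sin γ], ![0, 0, 0, 0, - Real.sin γ, Real.cos γ]]

theorem MM_on (α β γ : ℝ) : ON (MM α β γ) := by
  intro i j
  have hα := Real.sin_sq_add_cos_sq α
  have hβ := Real.sin_sq_add_cos_sq β
  have hγ := Real.sin_sq_add_cos_sq γ
  fin_cases i <;> fin_cases j <;> simp [dt, MM, Fin.sum_univ_six] <;>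
    first | ring1 | linear_combination hα | linear_combination hβ | linear_combination hγ

theorem MM_pair (α β γ : ℝ) (i j : Fin 6) (h : (i : ℕ) / 2 ≠ (j : ℕ) / 2) : MM α β γ i j = 0 := by
  fin_cases i <;> fin_cases j <;> first | (exact absurd rfl h) | simp [MM]

theorem MM0 (α β γ : ℝ) (a : Fin 2) (f : Fin 6 → ℝ) :
    ∑ p, MM α β γ (ix 0 a) p * f p = ∑ a', r2 α a a' * f (ix 0 a') := by
  fin_cases a <;> simp [MM, ix, r2, Fin.sum_univ_six]

theorem MM1 (α β γ : ℝ) (a : Fin 2) (f : Fin 6 → ℝ) :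
    ∑ p, MM α β γ (ix 1 a) p * f p = ∑ a', r2 β a a' * f (ix 1 a') := by
  fin_cases a <;> simp [MM, ix, r2, Fin.sum_univ_six]

theorem MM2 (α β γ : ℝ) (a : Fin 2) (f : Fin 6 → ℝ) :
    ∑ p, MM α β γ (ix 2 a) p * f p = ∑ a', r2 γ a a' * f (ix 2 a') := by
  fin_cases a <;> simp [MM, ix, r2, Fin.sum_univ_six]

theorem tau_an {b : Fin 6 → Fin 6 → ℝ} {τ : Fk 6 ℝ →ₗ[ℝ] Fk 6 ℝ} (h : IsTau b τ) (i : Fin 6)
    (w : Fk 6 ℝ) : τ (NG.an i w) = ∑ a, b i a • NG.an a (τ w) := by
  have h1 : ∑ a, b i a • NG.an a (τ w) = ∑ a, ∑ j, (b i a * b j a) • τ (NG.an j w) := by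
    refine sum_congr rfl fun a _ => ?_
    rw [h.an, smul_sum]
    exact sum_congr rfl fun j _ => by rw [smul_smul]
  rw [h1, sum_comm, sum_eq_single i]
  · have h2 := h.on i i
    unfold dt at h2
    rw [← sum_smul, h2, if_pos rfl, one_smul]
  · intro j _ hj
    have h2 := h.on i j
    unfold dt at h2
    rw [← sum_smul, h2, if_neg hj.symm, zero_smul]
  · intro h2
    exact absurd (mem_univ i) h2

theorem tau_vac {b : Fin 6 → Fin 6 → ℝ} {τ : Fk 6 ℝ →ₗ[ℝ] Fk 6 ℝ} (h : IsTau b τ)
    (w : Fk 6 ℝ) : τ w ∅ = w ∅ := by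
  have e : ∀ w : Fk 6 ℝ, NG.ip vac w = w ∅ := by
    intro w
    unfold NG.ip vac
    simp
  calc τ w ∅ = NG.ip vac (τ w) := (e _).symm
    _ = NG.ip (τ vac) (τ w) := by rw [h.vac]
    _ = w ∅ := by rw [h.ip, e]

theorem tau_tc {b : Fin 6 → Fin 6 → ℝ} {τ : Fk 6 ℝ →ₗ[ℝ] Fk 6 ℝ} (h : IsTau b τ)
    (u : Fk 6 ℝ) (i j k : Fin 6) : tc u i j k = rot b (tc (τ u)) i j k := by
  have h1 : tc u i j k = ∑ c, b k c * ∑ b', b j b' * ∑ a, b i a *
      NG.an c (NG.an b' (NG.an a (τ u))) ∅ := by
    unfold tc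
    rw [← tau_vac h (NG.an k (NG.an j (NG.an i u))), tau_an h, tau_an h, tau_an h]
    simp only [map_sum, LinearMap.map_smul, Finset.sum_apply, Pi.smul_apply, smul_eq_mul, mul_sum]
  rw [h1]
  unfold rot tc
  simp only [mul_sum]
  rw [sum_comm]
  rw [show (∑ b', ∑ c, ∑ a, b k c * (b j b' * (b i a *
      NG.an c (NG.an b' (NG.an a (τ u))) ∅))) = ∑ b', ∑ a, ∑ c, b k c * (b j b' * (b i a *
      NG.an c (NG.an b' (NG.an a (τ u))) ∅)) from sum_congr rfl fun b' _ => sum_comm]
  rw [sum_comm]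
  exact sum_congr rfl fun a _ => sum_congr rfl fun b' _ => sum_congr rfl fun c _ => by ring

theorem val_key {u : Fk 6 ℝ} {s : Fin 6 → Fin 6 → Fin 6 → ℝ} (θ : ℝ)
    (hs : ∀ i j k : Fin 6, i < j → j < k → u {i, j, k} = s i j k) (i j k i' j' k' : Fin 6)
    (n : ℕ) (h1 : i < j) (h2 : j < k) (h3 : i' < j') (h4 : j' < k')
    (hc : ({i, j, k} : Finset (Fin 6))ᶜ = {i', j', k'})
    (hn : ((({i, j, k} : Finset (Fin 6)) ×ˢ ({i, j, k} : Finset (Fin 6))ᶜ).filter
      fun q => q.2 < q.1).card = n) :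
    (Real.cos θ • u + Real.sin θ • st u) {i, j, k} =
      Real.cos θ * s i j k + Real.sin θ * ((-1) ^ n * s i' j' k') := by
  rw [Pi.add_apply, Pi.smul_apply, Pi.smul_apply, smul_eq_mul, smul_eq_mul, hs i j k h1 h2]
  unfold st
  rw [hn, hc, hs i' j' k' h3 h4]

set_option maxRecDepth 20000 in
theorem enum3 : ∀ S : Finset (Fin 6), S.card = 3 →
    S = {0, 1, 2} ∨
    S = {0, 1, 3} ∨
    S = {0, 1, 4} ∨
    S = {0, 1, 5} ∨
    S = {0, 2, 3} ∨
    S = {0, 2, 4} ∨
    S = {0, 2, 5} ∨
    S = {0, 3, 4} ∨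
    S = {0, 3, 5} ∨
    S = {0, 4, 5} ∨
    S = {1, 2, 3} ∨
    S = {1, 2, 4} ∨
    S = {1, 2, 5} ∨
    S = {1, 3, 4} ∨
    S = {1, 3, 5} ∨
    S = {1, 4, 5} ∨
    S = {2, 3, 4} ∨
    S = {2, 3, 5} ∨
    S = {2, 4, 5} ∨
    S = {3, 4, 5} := by
  decide

end Nf2

open Nf2 Finset in
theorem s_nf2 (h1 : S_NF) (h2 : S_TOR) : S_NF2 := by
  intro u hu
  obtain ⟨O, hO, hz⟩ := h1 (tc u) (tc_alt u)
  obtain ⟨α, β, γ, θ, hθ⟩ := h2 (fun a b c => rot O (tc u) (ix 0 a) (ix 1 b) (ix 2 c))
  obtain ⟨s, hsd⟩ : ∃ s, s = rot (cmp (MM α β γ) O) (tc u) := ⟨_, rfl⟩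
  have halt : Alt3 s := by
    rw [hsd]
    exact rot_alt (tc_alt u)
  have hpair : ∀ i j k : Fin 6, (i : ℕ) / 2 = (j : ℕ) / 2 → s i j k = 0 := by
    intro i j k hij
    rw [hsd, rot_cmp]
    refine sum_eq_zero fun p _ => ?_
    by_cases hp : (i : ℕ) / 2 = (p : ℕ) / 2
    · rw [sum_eq_zero, mul_zero]
      intro q _
      by_cases hq : (j : ℕ) / 2 = (q : ℕ) / 2
      · rw [sum_eq_zero, mul_zero]
        intro r _
        rw [hz p q r (by omega), mul_zero]
      · rw [MM_pair _ _ _ _ _ hq, zero_mul]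
    · rw [MM_pair _ _ _ _ _ hp, zero_mul]
  have hpair2 : ∀ i j k : Fin 6, (j : ℕ) / 2 = (k : ℕ) / 2 → s i j k = 0 := by
    intro i j k hjk
    rw [halt.1, halt.2, hpair j k i hjk, neg_zero, neg_zero]
  have hT : ∀ a b c : Fin 2, s (ix 0 a) (ix 1 b) (ix 2 c) =
      rt3 α β γ (fun a b c => rot O (tc u) (ix 0 a) (ix 1 b) (ix 2 c)) a b c := by
    intro a b c
    rw [hsd, rot_cmp, MM0]
    unfold rt3
    refine sum_congr rfl fun a' _ => ?_
    rw [MM1, mul_sum]
    refine sum_congr rfl fun b' _ => ?_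
    rw [MM2, mul_sum, mul_sum]
    refine sum_congr rfl fun c' _ => ?_
    ring
  have hodd : ∀ a b c : Fin 2, a + b + c = 1 → Real.cos θ * s (ix 0 a) (ix 1 b) (ix 2 c) +
      Real.sin θ * s (ix 0 (1 - a)) (ix 1 (1 - b)) (ix 2 (1 - c)) = 0 := by
    intro a b c habc
    rw [hT, hT]
    exact hθ a b c habc
  refine ⟨cmp (MM α β γ) O, θ, Real.cos θ * s 0 2 4 - Real.sin θ * s 1 3 5,
    Real.cos θ * s 0 3 5 - Real.sin θ * s 1 2 4, Real.cos θ * s 1 2 5 - Real.sin θ * s 0 3 4,
    Real.cos θ * s 1 3 4 - Real.sin θ * s 0 2 5, cmp_on (MM_on _ _ _) hO, ?_⟩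
  intro τ hτ u' hu'
  have hd : Deg 3 u' := (hτ.deg 3 u').1 (by rw [hu']; exact hu)
  have hs : ∀ i j k : Fin 6, i < j → j < k → u' {i, j, k} = s i j k := by
    intro i j k hij hjk
    rw [← tc_val u' hij hjk, tau_tc hτ, hu', hsd]
  funext S
  by_cases hS : S.card = 3
  · rcases enum3 S hS with rfl | rfl | rfl | rfl | rfl | rfl | rfl | rfl | rfl | rfl | rfl |
      rfl | rfl | rfl | rfl | rfl | rfl | rfl | rfl | rfl
    · rw [val_key θ hs 0 1 2 3 4 5 0 (by decide) (by decide) (by decide) (by decide)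
        (by decide) (by decide)]
      unfold mono
      rw [if_neg (by decide), if_neg (by decide), if_neg (by decide), if_neg (by decide)]
      rw [hpair 0 1 2 rfl, hpair2 3 4 5 rfl]
      ring
    · rw [val_key θ hs 0 1 3 2 4 5 1 (by decide) (by decide) (by decide) (by decide)
        (by decide) (by decide)]
      unfold mono
      rw [if_neg (by decide), if_neg (by decide), if_neg (by decide), if_neg (by decide)]
      rw [hpair 0 1 3 rfl, hpair2 2 4 5 rfl]
      ring
    · rw [val_key θ hs 0 1 4 2 3 5 2 (by decide) (by decide) (by decide) (by decide)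
        (by decide) (by decide)]
      unfold mono
      rw [if_neg (by decide), if_neg (by decide), if_neg (by decide), if_neg (by decide)]
      rw [hpair 0 1 4 rfl, hpair 2 3 5 rfl]
      ring
    · rw [val_key θ hs 0 1 5 2 3 4 3 (by decide) (by decide) (by decide) (by decide)
        (by decide) (by decide)]
      unfold mono
      rw [if_neg (by decide), if_neg (by decide), if_neg (by decide), if_neg (by decide)]
      rw [hpair 0 1 5 rfl, hpair 2 3 4 rfl]
      ring
    · rw [val_key θ hs 0 2 3 1 4 5 2 (by decide) (by decide) (by decide) (by decide)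
        (by decide) (by decide)]
      unfold mono
      rw [if_neg (by decide), if_neg (by decide), if_neg (by decide), if_neg (by decide)]
      rw [hpair2 0 2 3 rfl, hpair2 1 4 5 rfl]
      ring
    · rw [val_key θ hs 0 2 4 1 3 5 3 (by decide) (by decide) (by decide) (by decide)
        (by decide) (by decide)]
      unfold mono
      rw [if_pos rfl]
      ring
    · rw [val_key θ hs 0 2 5 1 3 4 4 (by decide) (by decide) (by decide) (by decide)
        (by decide) (by decide)]
      unfold mono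
      rw [if_neg (by decide), if_neg (by decide), if_neg (by decide), if_neg (by decide)]
      have h3 : Real.cos θ * s 0 2 5 + Real.sin θ * s 1 3 4 = 0 := hodd 0 0 1 rfl
      linear_combination h3
    · rw [val_key θ hs 0 3 4 1 2 5 4 (by decide) (by decide) (by decide) (by decide)
        (by decide) (by decide)]
      unfold mono
      rw [if_neg (by decide), if_neg (by decide), if_neg (by decide), if_neg (by decide)]
      have h3 : Real.cos θ * s 0 3 4 + Real.sin θ * s 1 2 5 = 0 := hodd 0 1 0 rfl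
      linear_combination h3
    · rw [val_key θ hs 0 3 5 1 2 4 5 (by decide) (by decide) (by decide) (by decide)
        (by decide) (by decide)]
      unfold mono
      rw [if_neg (by decide), if_pos rfl]
      ring
    · rw [val_key θ hs 0 4 5 1 2 3 6 (by decide) (by decide) (by decide) (by decide)
        (by decide) (by decide)]
      unfold mono
      rw [if_neg (by decide), if_neg (by decide), if_neg (by decide), if_neg (by decide)]
      rw [hpair2 0 4 5 rfl, hpair2 1 2 3 rfl]
      ring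
    · rw [val_key θ hs 1 2 3 0 4 5 3 (by decide) (by decide) (by decide) (by decide)
        (by decide) (by decide)]
      unfold mono
      rw [if_neg (by decide), if_neg (by decide), if_neg (by decide), if_neg (by decide)]
      rw [hpair2 1 2 3 rfl, hpair2 0 4 5 rfl]
      ring
    · rw [val_key θ hs 1 2 4 0 3 5 4 (by decide) (by decide) (by decide) (by decide)
        (by decide) (by decide)]
      unfold mono
      rw [if_neg (by decide), if_neg (by decide), if_neg (by decide), if_neg (by decide)]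
      have h3 : Real.cos θ * s 1 2 4 + Real.sin θ * s 0 3 5 = 0 := hodd 1 0 0 rfl
      linear_combination h3
    · rw [val_key θ hs 1 2 5 0 3 4 5 (by decide) (by decide) (by decide) (by decide)
        (by decide) (by decide)]
      unfold mono
      rw [if_neg (by decide), if_neg (by decide), if_pos rfl]
      ring
    · rw [val_key θ hs 1 3 4 0 2 5 5 (by decide) (by decide) (by decide) (by decide)
        (by decide) (by decide)]
      unfold mono
      rw [if_neg (by decide), if_neg (by decide), if_neg (by decide), if_pos rfl]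
      ring
    · rw [val_key θ hs 1 3 5 0 2 4 6 (by decide) (by decide) (by decide) (by decide)
        (by decide) (by decide)]
      unfold mono
      rw [if_neg (by decide), if_neg (by decide), if_neg (by decide), if_neg (by decide)]
      have h3 : Real.cos θ * s 1 3 5 + Real.sin θ * s 0 2 4 = 0 := hodd 1 1 1 rfl
      linear_combination h3
    · rw [val_key θ hs 1 4 5 0 2 3 7 (by decide) (by decide) (by decide) (by decide)
        (by decide) (by decide)]
      unfold mono
      rw [if_neg (by decide), if_neg (by decide), if_neg (by decide), if_neg (by decide)]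
      rw [hpair2 1 4 5 rfl, hpair2 0 2 3 rfl]
      ring
    · rw [val_key θ hs 2 3 4 0 1 5 6 (by decide) (by decide) (by decide) (by decide)
        (by decide) (by decide)]
      unfold mono
      rw [if_neg (by decide), if_neg (by decide), if_neg (by decide), if_neg (by decide)]
      rw [hpair 2 3 4 rfl, hpair 0 1 5 rfl]
      ring
    · rw [val_key θ hs 2 3 5 0 1 4 7 (by decide) (by decide) (by decide) (by decide)
        (by decide) (by decide)]
      unfold mono
      rw [if_neg (by decide), if_neg (by decide), if_neg (by decide), if_neg (by decide)]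
      rw [hpair 2 3 5 rfl, hpair 0 1 4 rfl]
      ring
    · rw [val_key θ hs 2 4 5 0 1 3 8 (by decide) (by decide) (by decide) (by decide)
        (by decide) (by decide)]
      unfold mono
      rw [if_neg (by decide), if_neg (by decide), if_neg (by decide), if_neg (by decide)]
      rw [hpair2 2 4 5 rfl, hpair 0 1 3 rfl]
      ring
    · rw [val_key θ hs 3 4 5 0 1 2 9 (by decide) (by decide) (by decide) (by decide)
        (by decide) (by decide)]
      unfold mono
      rw [if_neg (by decide), if_neg (by decide), if_neg (by decide), if_neg (by decide)]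
      rw [hpair2 3 4 5 rfl, hpair 0 1 2 rfl]
      ring
  · have hc : (Sᶜ).card ≠ 3 := by
      rw [card_compl, Fintype.card_fin]
      have h3 : S.card ≤ 6 := by
        have := card_le_univ S
        rwa [Fintype.card_fin] at this
      omega
    rw [Pi.add_apply, Pi.smul_apply, Pi.smul_apply, hd S hS]
    unfold st mono
    rw [hd Sᶜ hc, if_neg (fun h3 => hS (by rw [h3]; rfl)), if_neg (fun h3 => hS (by rw [h3]; rfl)),
      if_neg (fun h3 => hS (by rw [h3]; rfl)), if_neg (fun h3 => hS (by rw [h3]; rfl))]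
    simp

end Pool.Agent.H781.H6
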