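import Pool.Agent.H781.H6.A

/-!
1-forms and 5-forms
-/

set_option autoImplicit false
set_option synthInstance.maxHeartbeats 400000
set_option maxHeartbeats 4000000

noncomputable section

namespace Pool.Agent.H781.H6

open Pool.Agent.H781.NG Pool.Agent.H781.CM

namespace P15

theorem an_deg1 {u : Fk 6 ℝ} (hu : Deg 1 u) (a : Fin 6) : an a u = u {a} • (vac : Fk 6 ℝ) := by
  funext S
  rw [an_apply, Pi.smul_apply, smul_eq_mul]
  unfold vac
  by_cases hS : S = ∅
  · subst hS
    rw [if_neg (Finset.notMem_empty a), if_pos rfl, mul_one]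
    have h1 : sg a (∅ : Finset (Fin 6)) = 1 := by
      unfold sg
      rw [Finset.filter_empty, Finset.card_empty, pow_zero]
    rw [h1, Int.cast_one, one_mul]
    rfl
  · rw [if_neg hS, mul_zero]
    split_ifs with ha
    · rfl
    · have h1 : u (insert a S) = 0 := by
        apply hu
        rw [Finset.card_insert_of_notMem ha]
        have h2 : 0 < S.card := Finset.card_pos.2 (Finset.nonempty_iff_ne_empty.2 hS)
        omega
      rw [h1, mul_zero]

theorem ip_vac : ip (vac : Fk 6 ℝ) vac = 1 := by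
  unfold ip vac
  rw [Finset.sum_eq_single (∅ : Finset (Fin 6))]
  · rw [if_pos rfl, mul_one]
  · intro S _ hS
    rw [if_neg hS, mul_zero]
  · intro h
    exact absurd (Finset.mem_univ _) h

theorem ip_cr_cr_vac (b d : Fin 6) :
    ip (cr b (vac : Fk 6 ℝ)) (cr d vac) = if b = d then 1 else 0 := by
  rw [ip_cr, an_cr, an_vac, map_zero, sub_zero]
  split_ifs with h
  · exact ip_vac
  · exact ip_zero_right _

theorem rc_deg1 (R : T4 6) {u : Fk 6 ℝ} (hu : Deg 1 u) :
    rc R u = - ∑ a, ∑ b, ∑ c, R a b c b * u {a} * u {c} := by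
  unfold rc
  congr 1
  refine Finset.sum_congr rfl fun a _ => Finset.sum_congr rfl fun b _ =>
    Finset.sum_congr rfl fun c _ => ?_
  rw [Finset.sum_eq_single b]
  · rw [an_deg1 hu, an_deg1 hu, LinearMap.map_smul, LinearMap.map_smul, ip_smul_left,
      ip_smul_right, ip_cr_cr_vac, if_pos rfl]
    ring
  · intro d _ hd
    rw [an_deg1 hu, an_deg1 hu, LinearMap.map_smul, LinearMap.map_smul, ip_smul_left,
      ip_smul_right, ip_cr_cr_vac, if_neg (Ne.symm hd)]
    ring
  · intro h
    exact absurd (Finset.mem_univ _) h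

theorem pos1 {R : T4 6} (hR : RicP R) {u : Fk 6 ℝ} (h0 : u ≠ 0) (hu : Deg 1 u) :
    0 < rc R u := by
  rw [rc_deg1 R hu]
  refine hR (fun a => u {a}) fun hv => h0 ?_
  funext S
  by_cases hS : S.card = 1
  · obtain ⟨a, rfl⟩ := Finset.card_eq_one.1 hS
    exact congrFun hv a
  · exact hu S hS

theorem ip_self_eq_zero {u : Fk 6 ℝ} (h : ip u u = 0) : u = 0 := by
  funext S
  unfold ip at h
  have h1 := (Finset.sum_eq_zero_iff_of_nonneg fun T _ => mul_self_nonneg (u T)).1 h S
    (Finset.mem_univ S)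
  exact mul_self_eq_zero.1 h1

end P15

theorem s_p15 (h : S_STAR) : S_P15 := by
  intro R hA hR u h0 hu
  rcases hu with hu | hu
  · exact P15.pos1 hR h0 hu
  · have h1 : Deg 1 (st u) := h.1 5 u (by norm_num) hu
    have h2 : st u ≠ 0 := by
      intro hs
      apply h0
      apply P15.ip_self_eq_zero
      rw [← h.2.1 u u, hs, ip_zero_left]
    have h3 := P15.pos1 hR h2 h1
    rw [(h.2.2 R hA).1 u] at h3
    exact h3

end Pool.Agent.H781.H6
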