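import Pool.Agent.H781.H6.G
import Pool.Graph.R_seed8.H821R2.Riem

/-!
Project H6: pinched sectional curvature implies positive Ricci curvature and pinched biorthogonal
curvature.
-/

set_option autoImplicit false
set_option synthInstance.maxHeartbeats 400000
set_option maxHeartbeats 4000000
set_option linter.unusedSectionVars false

open Bundle Manifold ContDiff VectorField MeasureTheory Filter
open scoped Topology

noncomputable section

namespace Pool.Agent.H781.H6

open Pool.Agent.H781.NG Pool.Agent.H781.CM Pool.Agent.H821R2 Pool.Agent.H821R3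
  Pool.Agent.H893R5.HO Pool.Agent.H781.S22

namespace Pin6

section alg

variable {V : Type*} [AddCommGroup V] [Module ℝ V]

/-- one summand of the Ricci curvature -/
theorem term_ge (B : V →ₗ[ℝ] V →ₗ[ℝ] ℝ) (hs : ∀ u v, B u v = B v u)
    (hp : ∀ v, v ≠ 0 → 0 < B v v) (R : V →ₗ[ℝ] V →ₗ[ℝ] V →ₗ[ℝ] V)
    (ha : ∀ X Y Z, R X Y Z = - R Y X Z) (hk : ∀ X Y Z W, B (R X Y Z) W = - B Z (R X Y W))
    (δ : ℝ) (hsec : ∀ e : Fin 2 → V, (∀ i j, B (e i) (e j) = if i = j then 1 else 0) →
      δ ≤ B (R (e 0) (e 1) (e 1)) (e 0))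
    (f v : V) (hf : B f f = 1) : δ * (B v v - B f v ^ 2) ≤ B (R f v v) f := by
  obtain ⟨w, hw⟩ : ∃ w : V, w = v - B f v • f := ⟨_, rfl⟩
  have hv : v = w + B f v • f := by rw [hw]; abel
  have hR0 : ∀ X Z, R X X Z = 0 := by
    intro X Z
    have h2 : (2 : ℝ) • R X X Z = 0 := by
      rw [two_smul]
      exact add_eq_zero_iff_eq_neg.2 (ha X X Z)
    exact (smul_eq_zero.1 h2).resolve_left two_ne_zero
  have hB0 : ∀ X Y, B (R X Y X) X = 0 := by
    intro X Y
    have h1 := hk X Y X X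
    rw [hs X] at h1
    linarith
  have hfw : B f w = 0 := by
    rw [hw, map_sub, map_smul, hf, smul_eq_mul, mul_one, sub_self]
  have hww : B w w = B v v - B f v ^ 2 := by
    have h1 : B v v = B w w + B f v * B w f + B f v * B f w + B f v * (B f v * B f f) := by
      conv_lhs => rw [hv]
      simp only [map_add, map_smul, LinearMap.add_apply, LinearMap.smul_apply, smul_eq_mul]
      ring
    rw [hs w f, hfw, hf] at h1
    linarith
  have hterm : B (R f v v) f = B (R f w w) f := by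
    have h1 : R f v v = R f w w + B f v • R f w f := by
      have h2 : R f v = R f w := by
        conv_lhs => rw [hv]
        rw [map_add, map_smul]
        have h3 : R f f = 0 := by
          ext Z
          rw [hR0]; rfl
        rw [h3, smul_zero, add_zero]
      rw [h2]
      conv_lhs => rw [hv]
      rw [map_add, map_smul]
    rw [h1, map_add, map_smul, LinearMap.add_apply, LinearMap.smul_apply, hB0, smul_zero,
      add_zero]
  rw [hterm, ← hww]
  by_cases h0 : w = 0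
  · rw [h0]; simp
  · have hpos := hp w h0
    obtain ⟨r, hr⟩ : ∃ r : ℝ, r = Real.sqrt (B w w) := ⟨_, rfl⟩
    have hr0 : 0 < r := by rw [hr]; exact Real.sqrt_pos.2 hpos
    have hr2 : r ^ 2 = B w w := by rw [hr]; exact Real.sq_sqrt hpos.le
    have hon : ∀ i j : Fin 2, B ((![f, r⁻¹ • w] : Fin 2 → V) i) ((![f, r⁻¹ • w] : Fin 2 → V) j) =
        if i = j then 1 else 0 := by
      have h1 : B f (r⁻¹ • w) = 0 := by rw [map_smul, hfw, smul_zero]
      have h2 : B (r⁻¹ • w) f = 0 := by rw [hs, h1]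
      have h3 : B (r⁻¹ • w) (r⁻¹ • w) = 1 := by
        rw [map_smul, map_smul, LinearMap.smul_apply, ← hr2, smul_eq_mul, smul_eq_mul]
        field_simp
      intro i j
      fin_cases i <;> fin_cases j
      · simpa using hf
      · simpa using h1
      · simpa using h2
      · simpa using h3
    have h4 := hsec _ hon
    have h5 : B (R ((![f, r⁻¹ • w] : Fin 2 → V) 0) ((![f, r⁻¹ • w] : Fin 2 → V) 1)
        ((![f, r⁻¹ • w] : Fin 2 → V) 1)) ((![f, r⁻¹ • w] : Fin 2 → V) 0) =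
        r⁻¹ * (r⁻¹ * B (R f w w) f) := by
      change B (R f (r⁻¹ • w) (r⁻¹ • w)) f = _
      simp only [map_smul, LinearMap.smul_apply, smul_eq_mul]
    rw [h5] at h4
    have h6 : B w w * δ ≤ B w w * (r⁻¹ * (r⁻¹ * B (R f w w) f)) :=
      mul_le_mul_of_nonneg_left h4 hpos.le
    have h7 : B w w * (r⁻¹ * (r⁻¹ * B (R f w w) f)) = B (R f w w) f := by
      rw [← hr2]
      field_simp
    rw [h7] at h6
    linarith

/-- inequality of Bessel -/
theorem bessel (B : V →ₗ[ℝ] V →ₗ[ℝ] ℝ) (hs : ∀ u v, B u v = B v u)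
    (hp : ∀ v, v ≠ 0 → 0 < B v v) {n : ℕ} (f : Fin n → V)
    (hf : ∀ i j, B (f i) (f j) = if i = j then 1 else 0) (v : V) :
    ∑ i, B (f i) v ^ 2 ≤ B v v := by
  have hnn : ∀ u, 0 ≤ B u u := by
    intro u
    by_cases h : u = 0
    · rw [h]; simp
    · exact (hp u h).le
  have h1 := hnn (v - ∑ i, B (f i) v • f i)
  have h2 : B v (∑ i, B (f i) v • f i) = ∑ i, B (f i) v ^ 2 := by
    rw [map_sum]
    refine Finset.sum_congr rfl fun i _ => ?_
    rw [map_smul, smul_eq_mul, hs v (f i)]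
    ring
  have h3 : B (∑ i, B (f i) v • f i) (∑ i, B (f i) v • f i) = ∑ i, B (f i) v ^ 2 := by
    rw [map_sum B, LinearMap.sum_apply]
    refine Finset.sum_congr rfl fun i _ => ?_
    rw [map_smul, LinearMap.smul_apply, map_sum, Finset.sum_eq_single i]
    · rw [map_smul, hf, if_pos rfl, smul_eq_mul, smul_eq_mul]
      ring
    · intro j _ hj
      rw [map_smul, hf, if_neg hj.symm, smul_zero]
    · intro h
      exact absurd (Finset.mem_univ _) h
  rw [map_sub, map_sub, LinearMap.sub_apply, LinearMap.sub_apply, h2, h3,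
    hs (∑ i, B (f i) v • f i) v, h2] at h1
  linarith

/-- positive sectional curvature gives positive Ricci curvature -/
theorem ric_pos (B : V →ₗ[ℝ] V →ₗ[ℝ] ℝ) (hs : ∀ u v, B u v = B v u)
    (hp : ∀ v, v ≠ 0 → 0 < B v v) (R : V →ₗ[ℝ] V →ₗ[ℝ] V →ₗ[ℝ] V)
    (ha : ∀ X Y Z, R X Y Z = - R Y X Z) (hk : ∀ X Y Z W, B (R X Y Z) W = - B Z (R X Y W))
    (δ : ℝ) (hδ : 0 < δ)
    (hsec : ∀ e : Fin 2 → V, (∀ i j, B (e i) (e j) = if i = j then 1 else 0) →
      δ ≤ B (R (e 0) (e 1) (e 1)) (e 0))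
    (f : Fin 6 → V) (hf : ∀ i j, B (f i) (f j) = if i = j then 1 else 0) (v : V) (hv : v ≠ 0) :
    0 < ∑ i, B (R (f i) v v) (f i) := by
  have h1 : ∑ i, δ * (B v v - B (f i) v ^ 2) ≤ ∑ i, B (R (f i) v v) (f i) :=
    Finset.sum_le_sum fun i _ => term_ge B hs hp R ha hk δ hsec (f i) v (by rw [hf, if_pos rfl])
  rw [← Finset.mul_sum, Finset.sum_sub_distrib, Finset.sum_const, Finset.card_univ,
    Fintype.card_fin, nsmul_eq_mul] at h1
  have h2 := bessel B hs hp f hf v
  have h3 := hp v hv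
  have h4 : 0 < ((6 : ℕ) : ℝ) * B v v - ∑ i, B (f i) v ^ 2 := by
    push_cast
    linarith
  exact lt_of_lt_of_le (mul_pos hδ h4) h1

end alg

section geo

variable {M : Type} [TopologicalSpace M] [T2Space M] [CompactSpace M]
  [ChartedSpace (EU 6) M] [IsManifold (𝓡 6) ∞ M]

/-- symmetries of the Riemann tensor -/
theorem curv_sym {g : Met 6 M} {cov : Cov 6 M} {R : CurvField (𝓡 6) M}
    (h : IsLeviCivita g cov) (hR : IsRiemannTensor cov R) (p : M) :
    (∀ X Y Z, R p X Y Z = - R p Y X Z) ∧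
    (∀ X Y Z W, g.inner p (R p X Y Z) W = - g.inner p Z (R p X Y W)) := by
  let _ : RiemannianBundle (fun x : M => TangentSpace (𝓡 6) x) := ⟨g.toRiemannianMetric⟩
  have h' : IsLeviCivitaB cov := ⟨h.smooth, h.metric, h.torsionFree⟩
  have hc := isCurvatureTensor h' hR p
  exact ⟨hc.antisymm, hc.skew⟩

/-- the inner product as a bilinear form -/
def bil (g : Met 6 M) (x : M) :
    TangentSpace (𝓡 6) x →ₗ[ℝ] TangentSpace (𝓡 6) x →ₗ[ℝ] ℝ :=
  LinearMap.mk₂ ℝ (fun u v => g.inner x u v)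
    (fun u u' v => by rw [map_add]; rfl) (fun c u v => by rw [map_smul]; rfl)
    (fun u v v' => map_add _ _ _) (fun c u v => map_smul _ _ _)

theorem bil_apply (g : Met 6 M) (x : M) (u v : TangentSpace (𝓡 6) x) :
    bil g x u v = g.inner x u v := rfl

theorem ricci (g : Met 6 M) (cov : Cov 6 M) (R : CurvField (𝓡 6) M) (h : IsLeviCivita g cov)
    (hR : IsRiemannTensor cov R) (x : M) (δ : ℝ) (hδ : 0 < δ)
    (hsec : ∀ e : Fin 2 → TangentSpace (𝓡 6) x, IsOrthonormalFrame g x e →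
      δ ≤ H6.sec g R x (e 0) (e 1))
    (f : Fin 6 → TangentSpace (𝓡 6) x) (hf : IsOrthonormalFrame g x f)
    (v : TangentSpace (𝓡 6) x) (hv : v ≠ 0) : 0 < ∑ i, H6.sec g R x (f i) v := by
  obtain ⟨ha, hk⟩ := curv_sym h hR x
  exact ric_pos (bil g x) (fun u w => g.symm x u w) (fun w hw => g.pos x w hw) (R x) ha hk δ hδ
    hsec f hf v hv

end geo

end Pin6

theorem s_pin6 : S_PIN6 := by
  intro M _ _ _ _ _ _ g hg
  obtain ⟨hex, hall⟩ := hg
  refine ⟨⟨hex, ?_⟩, ⟨hex, ?_⟩⟩
  · intro cov R hLC hRT x f hf v hv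
    obtain ⟨δ, Δ, hδ, _, hsec⟩ := hall cov R hLC hRT x
    exact Pin6.ricci g cov R hLC hRT x δ hδ (fun e he => (hsec e he).1) f hf v hv
  · intro cov R hLC hRT x
    obtain ⟨δ, Δ, hδ, hΔ, hsec⟩ := hall cov R hLC hRT x
    refine ⟨δ, Δ, hδ, hΔ, fun f hf => ?_⟩
    have h01 : IsOrthonormalFrame g x (![f 0, f 1] : Fin 2 → TangentSpace (𝓡 6) x) := by
      intro i j
      fin_cases i <;> fin_cases j
      · exact (hf 0 0).trans (by simp)
      · exact (hf 0 1).trans (by simp)
      · exact (hf 1 0).trans (by simp)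
      · exact (hf 1 1).trans (by simp)
    have h23 : IsOrthonormalFrame g x (![f 2, f 3] : Fin 2 → TangentSpace (𝓡 6) x) := by
      intro i j
      fin_cases i <;> fin_cases j
      · exact (hf 2 2).trans (by simp)
      · exact (hf 2 3).trans (by simp)
      · exact (hf 3 2).trans (by simp)
      · exact (hf 3 3).trans (by simp)
    have h1 := hsec _ h01
    have h2 := hsec _ h23
    have h3 : δ ≤ H6.sec g R x (f 0) (f 1) ∧ H6.sec g R x (f 0) (f 1) ≤ Δ := h1
    have h4 : δ ≤ H6.sec g R x (f 2) (f 3) ∧ H6.sec g R x (f 2) (f 3) ≤ Δ := h2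
    constructor
    · linarith [h3.1, h4.1]
    · linarith [h3.2, h4.2]

end Pool.Agent.H781.H6
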