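import Pool.Agent.H781.H6.A

/-!
Project H6: assembly of the pointwise theorem.
-/

set_option autoImplicit false
set_option synthInstance.maxHeartbeats 400000
set_option maxHeartbeats 4000000

noncomputable section

namespace Pool.Agent.H781.H6

open Pool.Agent.H781.NG Pool.Agent.H781.CM

namespace Pw

theorem col {b : Fin 6 → Fin 6 → ℝ} (hb : ON b) (a c : Fin 6) :
    ∑ i, b i a * b i c = if a = c then 1 else 0 := by
  have h1 : Matrix.of b * (Matrix.of b).transpose = 1 := by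
    ext i j
    rw [Matrix.mul_apply, Matrix.one_apply]
    exact hb i j
  have h2 : (Matrix.of b).transpose * Matrix.of b = 1 := mul_eq_one_comm.1 h1
  have h3 := congrFun (congrFun h2 a) c
  rw [Matrix.mul_apply, Matrix.one_apply] at h3
  exact h3

theorem le_of_bip {R : T4 6} {δ Δ : ℝ} (hB : BiP R δ Δ) {b : Fin 6 → Fin 6 → ℝ} (hb : ON b) :
    δ ≤ Δ := by
  have h1 : ON (fun i : Fin 4 => b (Fin.castLE (by norm_num) i)) := by
    intro i j
    rw [hb]
    by_cases h : i = j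
    · rw [h, if_pos rfl, if_pos rfl]
    · rw [if_neg h, if_neg]
      intro h2
      exact h (Fin.castLE_injective _ h2)
  have h2 := hB _ h1
  linarith [h2.1, h2.2]

end Pw

theorem s_pw (h1 : S_TAU) (h2 : S_RCT) (h3 : S_STAR) (h4 : S_NF2) (h5 : S_Q4) (h6 : S_GB)
    (h7 : S_TS) (h8 : S_BIC) : S_PW := by
  intro R δ Δ hR hδ hB u hu
  obtain ⟨b, θ, A, B, C, D, hb, hmono⟩ := h4 u hu
  obtain ⟨τ, hτ⟩ := h1 6 6 b hb
  have hcol := Pw.col hb
  obtain ⟨u', hu'⟩ := hτ.range u (fun c => by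
    simp only [hcol, ite_smul, one_smul, zero_smul, Finset.sum_ite_eq, Finset.mem_univ, if_true])
  have hdeg : Deg 3 u' := by
    rw [← hτ.deg, hu']
    exact hu
  obtain ⟨hAC, hBi⟩ := h8 6 6 b R hb hR
  have hB' := hBi δ Δ hB
  have hrct := h2 6 6 b τ R hτ
    (fun a e c d => by
      simp only [hcol, ite_mul, one_mul, zero_mul, Finset.sum_ite_eq, Finset.mem_univ, if_true])
    (fun a e c d => by
      simp only [hcol, ite_mul, one_mul, zero_mul, Finset.sum_ite_eq, Finset.mem_univ, if_true]) u'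
  rw [hu'] at hrct
  obtain ⟨hs1, hs2⟩ := (h3.2.2 _ hAC).2 u' hdeg θ
  rw [hmono τ hτ u' hu'] at hs1 hs2
  have hip : ip u u = A ^ 2 + B ^ 2 + C ^ 2 + D ^ 2 := by
    rw [← (h5 _ hAC A B C D).2, hs2, ← hτ.ip u' u', hu']
  rw [hrct, ← hs1, hip, (h5 _ hAC A B C D).1]
  obtain ⟨T₁, hT₁, hL₁⟩ := h6 _ δ Δ hAC hδ hB' 2 3 4 5 (by decide) (by decide) (by decide)
    (by decide) (by decide) (by decide) A B C D
  obtain ⟨T₂, hT₂, hL₂⟩ := h6 _ δ Δ hAC hδ hB' 0 1 4 5 (by decide) (by decide) (by decide)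
    (by decide) (by decide) (by decide) A C B D
  obtain ⟨T₃, hT₃, hL₃⟩ := h6 _ δ Δ hAC hδ hB' 0 1 2 3 (by decide) (by decide) (by decide)
    (by decide) (by decide) (by decide) A D B C
  have hT := h7 |A| |B| |C| |D| T₁ T₂ T₃ (abs_nonneg _) (abs_nonneg _) (abs_nonneg _)
    (abs_nonneg _) hT₁ hT₂ hT₃
  rw [sq_abs, sq_abs, sq_abs, sq_abs] at hT
  have hle := Pw.le_of_bip hB hb
  have h9 := mul_le_mul_of_nonneg_left hT (by linarith : 0 ≤ 2 * (Δ - δ))
  linarith

end Pool.Agent.H781.H6
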