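import Pool.Agent.H781.H6.A

set_option autoImplicit false
set_option synthInstance.maxHeartbeats 400000
set_option maxHeartbeats 4000000

noncomputable section

namespace Pool.Agent.H781.H6

open Pool.Agent.H781.NG Pool.Agent.H781.CM

namespace Q4

/-- basis -/
def eb (S : Finset (Fin 6)) : Fk 6 ℝ := fun S' => if S' = S then 1 else 0

theorem an_eb (a : Fin 6) (S : Finset (Fin 6)) :
    an a (eb S) = if a ∈ S then ((sg a (S.erase a) : ℤ) : ℝ) • eb (S.erase a) else 0 := by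
  funext S'
  rw [an_apply]
  by_cases ha : a ∈ S
  · rw [if_pos ha, Pi.smul_apply, smul_eq_mul]
    unfold eb
    by_cases ha' : a ∈ S'
    · rw [if_pos ha', if_neg, mul_zero]
      intro h
      rw [h] at ha'
      exact Finset.notMem_erase a S ha'
    · rw [if_neg ha']
      by_cases h : S' = S.erase a
      · rw [if_pos h, h, if_pos (Finset.insert_erase ha)]
      · rw [if_neg h, if_neg, mul_zero, mul_zero]
        intro h2
        apply h
        rw [← h2, Finset.erase_insert ha']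
  · rw [if_neg ha, Pi.zero_apply]
    by_cases ha' : a ∈ S'
    · rw [if_pos ha']
    · rw [if_neg ha']
      unfold eb
      rw [if_neg, mul_zero]
      intro h
      exact ha (h ▸ Finset.mem_insert_self a S')

theorem cr_eb (b : Fin 6) (T : Finset (Fin 6)) :
    cr b (eb T) = if b ∉ T then ((sg b (insert b T) : ℤ) : ℝ) • eb (insert b T) else 0 := by
  funext S'
  rw [cr_apply]
  by_cases hb : b ∈ T
  · rw [if_neg (not_not.2 hb), Pi.zero_apply]
    by_cases hb' : b ∈ S'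
    · rw [if_pos hb']
      unfold eb
      rw [if_neg, mul_zero]
      intro h
      exact Finset.notMem_erase b S' (h ▸ hb)
    · rw [if_neg hb']
  · rw [if_pos hb, Pi.smul_apply, smul_eq_mul]
    unfold eb
    by_cases hb' : b ∈ S'
    · rw [if_pos hb']
      by_cases h : S' = insert b T
      · rw [if_pos h, h, if_pos (Finset.erase_insert hb)]
      · rw [if_neg h, if_neg, mul_zero, mul_zero]
        intro h2
        apply h
        rw [← h2, Finset.insert_erase hb']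
    · rw [if_neg hb', if_neg, mul_zero]
      intro h
      exact hb' (h ▸ Finset.mem_insert_self b T)

theorem ip_eb (S T : Finset (Fin 6)) : ip (eb S) (eb T) = if S = T then 1 else 0 := by
  unfold ip eb
  simp only [ite_mul, one_mul, zero_mul, Finset.sum_ite_eq', Finset.mem_univ, if_true]

/-- the sign of the operator on a basis element -/
def g1 (a b : Fin 6) (S : Finset (Fin 6)) : ℤ :=
  if a ∈ S ∧ b ∉ S.erase a then sg a (S.erase a) * sg b (insert b (S.erase a)) else 0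

theorem cr_an_eb (a b : Fin 6) (S : Finset (Fin 6)) :
    cr b (an a (eb S)) = (g1 a b S : ℝ) • eb (insert b (S.erase a)) := by
  rw [an_eb, g1]
  by_cases ha : a ∈ S
  · rw [if_pos ha, map_smul, cr_eb]
    by_cases hb : b ∈ S.erase a
    · rw [if_neg (not_not.2 hb), if_neg (fun h => h.2 hb), Int.cast_zero, zero_smul, smul_zero]
    · rw [if_pos hb, if_pos ⟨ha, hb⟩, smul_smul, Int.cast_mul]
  · rw [if_neg ha, if_neg (fun h => ha h.1), map_zero, Int.cast_zero, zero_smul]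

/-- the matrix elements -/
def G (a b c d : Fin 6) (S T : Finset (Fin 6)) : ℤ :=
  if a ∈ S then (if c ∈ T then (if insert b (S.erase a) = insert d (T.erase c) then
    g1 a b S * g1 c d T else 0) else 0) else 0

theorem ip_G (a b c d : Fin 6) (S T : Finset (Fin 6)) :
    ip (cr b (an a (eb S))) (cr d (an c (eb T))) = (G a b c d S T : ℝ) := by
  rw [cr_an_eb, cr_an_eb, ip_smul_left, ip_smul_right, ip_eb, G]
  by_cases ha : a ∈ S
  · by_cases hc : c ∈ T
    · rw [if_pos ha, if_pos hc]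
      split_ifs <;> simp
    · rw [if_pos ha, if_neg hc]
      have : g1 c d T = 0 := by
        rw [g1, if_neg (fun h => hc h.1)]
      rw [this]
      simp
  · rw [if_neg ha]
    have : g1 a b S = 0 := by
      rw [g1, if_neg (fun h => ha h.1)]
    rw [this]
    simp

/-- a sparse table -/
def tb (l : List (Fin 6 × Fin 6 × Fin 6 × Fin 6 × ℤ)) (a b c d : Fin 6) : ℤ :=
  (l.map fun q => if q.1 = a then (if q.2.1 = b then (if q.2.2.1 = c then (if q.2.2.2.1 = d then
    q.2.2.2.2 else 0) else 0) else 0) else 0).sum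

theorem sum_tb (R : T4 6) (l : List (Fin 6 × Fin 6 × Fin 6 × Fin 6 × ℤ)) :
    ∑ a, ∑ b, ∑ c, ∑ d, R a b c d * ((tb l a b c d : ℤ) : ℝ) =
      (l.map fun q => R q.1 q.2.1 q.2.2.1 q.2.2.2.1 * (q.2.2.2.2 : ℝ)).sum := by
  induction l with
  | nil => simp [tb]
  | cons q l ih =>
    rw [List.map_cons, List.sum_cons, ← ih]
    have h : ∀ a b c d, R a b c d * ((tb (q :: l) a b c d : ℤ) : ℝ) =
        (if q.1 = a then (if q.2.1 = b then (if q.2.2.1 = c then (if q.2.2.2.1 = d then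
          R a b c d * (q.2.2.2.2 : ℝ) else 0) else 0) else 0) else 0) +
        R a b c d * ((tb l a b c d : ℤ) : ℝ) := by
      intro a b c d
      unfold tb
      rw [List.map_cons, List.sum_cons, Int.cast_add, mul_add]
      congr 1
      split_ifs <;> simp
    simp only [h, Finset.sum_add_distrib]
    congr 1
    rw [Finset.sum_eq_single q.1, Finset.sum_eq_single q.2.1, Finset.sum_eq_single q.2.2.1,
      Finset.sum_eq_single q.2.2.2.1]
    · simp
    · intro d _ hd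
      simp [Ne.symm hd]
    · simp
    · intro d _ hd
      simp [Ne.symm hd]
    · simp
    · intro d _ hd
      simp [Ne.symm hd]
    · simp
    · intro d _ hd
      simp [Ne.symm hd]
    · simp

/-- the four basis elements -/
def S0 : Finset (Fin 6) := {0, 2, 4}
/-- the four basis elements -/
def S1 : Finset (Fin 6) := {0, 3, 5}
/-- the four basis elements -/
def S2 : Finset (Fin 6) := {1, 2, 5}
/-- the four basis elements -/
def S3 : Finset (Fin 6) := {1, 3, 4}

def L00 : List (Fin 6 × Fin 6 × Fin 6 × Fin 6 × ℤ) := [(0, 0, 0, 0, 1), (0, 0, 2, 2, 1), (0, 0, 4, 4, 1), (0, 1, 0, 1, 1), (0, 3, 0, 3, 1), (0, 5, 0, 5, 1), (2, 1, 2, 1, 1), (2, 2, 0, 0, 1), (2, 2, 2, 2, 1), (2, 2, 4, 4, 1), (2, 3, 2, 3, 1), (2, 5, 2, 5, 1), (4, 1, 4, 1, 1), (4, 3, 4, 3, 1), (4, 4, 0, 0, 1), (4, 4, 2, 2, 1), (4, 4, 4, 4, 1), (4, 5, 4, 5, 1)]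

theorem t00 : ∀ a b c d : Fin 6, G a b c d S0 S0 = tb L00 a b c d := by decide +kernel

def L01 : List (Fin 6 × Fin 6 × Fin 6 × Fin 6 × ℤ) := [(2, 3, 5, 4, 1), (2, 5, 3, 4, -1), (4, 3, 5, 2, -1), (4, 5, 3, 2, 1)]

theorem t01 : ∀ a b c d : Fin 6, G a b c d S0 S1 = tb L01 a b c d := by decide +kernel

def L02 : List (Fin 6 × Fin 6 × Fin 6 × Fin 6 × ℤ) := [(0, 1, 5, 4, 1), (0, 5, 1, 4, -1), (4, 1, 5, 0, -1), (4, 5, 1, 0, 1)]

theorem t02 : ∀ a b c d : Fin 6, G a b c d S0 S2 = tb L02 a b c d := by decide +kernel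

def L03 : List (Fin 6 × Fin 6 × Fin 6 × Fin 6 × ℤ) := [(0, 1, 3, 2, 1), (0, 3, 1, 2, -1), (2, 1, 3, 0, -1), (2, 3, 1, 0, 1)]

theorem t03 : ∀ a b c d : Fin 6, G a b c d S0 S3 = tb L03 a b c d := by decide +kernel

def L11 : List (Fin 6 × Fin 6 × Fin 6 × Fin 6 × ℤ) := [(0, 0, 0, 0, 1), (0, 0, 3, 3, 1), (0, 0, 5, 5, 1), (0, 1, 0, 1, 1), (0, 2, 0, 2, 1), (0, 4, 0, 4, 1), (3, 1, 3, 1, 1), (3, 2, 3, 2, 1), (3, 3, 0, 0, 1), (3, 3, 3, 3, 1), (3, 3, 5, 5, 1), (3, 4, 3, 4, 1), (5, 1, 5, 1, 1), (5, 2, 5, 2, 1), (5, 4, 5, 4, 1), (5, 5, 0, 0, 1), (5, 5, 3, 3, 1), (5, 5, 5, 5, 1)]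

theorem t11 : ∀ a b c d : Fin 6, G a b c d S1 S1 = tb L11 a b c d := by decide +kernel

def L12 : List (Fin 6 × Fin 6 × Fin 6 × Fin 6 × ℤ) := [(0, 1, 2, 3, 1), (0, 2, 1, 3, -1), (3, 1, 2, 0, -1), (3, 2, 1, 0, 1)]

theorem t12 : ∀ a b c d : Fin 6, G a b c d S1 S2 = tb L12 a b c d := by decide +kernel

def L13 : List (Fin 6 × Fin 6 × Fin 6 × Fin 6 × ℤ) := [(0, 1, 4, 5, 1), (0, 4, 1, 5, -1), (5, 1, 4, 0, -1), (5, 4, 1, 0, 1)]

theorem t13 : ∀ a b c d : Fin 6, G a b c d S1 S3 = tb L13 a b c d := by decide +kernel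

def L22 : List (Fin 6 × Fin 6 × Fin 6 × Fin 6 × ℤ) := [(1, 0, 1, 0, 1), (1, 1, 1, 1, 1), (1, 1, 2, 2, 1), (1, 1, 5, 5, 1), (1, 3, 1, 3, 1), (1, 4, 1, 4, 1), (2, 0, 2, 0, 1), (2, 2, 1, 1, 1), (2, 2, 2, 2, 1), (2, 2, 5, 5, 1), (2, 3, 2, 3, 1), (2, 4, 2, 4, 1), (5, 0, 5, 0, 1), (5, 3, 5, 3, 1), (5, 4, 5, 4, 1), (5, 5, 1, 1, 1), (5, 5, 2, 2, 1), (5, 5, 5, 5, 1)]

theorem t22 : ∀ a b c d : Fin 6, G a b c d S2 S2 = tb L22 a b c d := by decide +kernel

def L23 : List (Fin 6 × Fin 6 × Fin 6 × Fin 6 × ℤ) := [(2, 3, 4, 5, 1), (2, 4, 3, 5, -1), (5, 3, 4, 2, -1), (5, 4, 3, 2, 1)]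

theorem t23 : ∀ a b c d : Fin 6, G a b c d S2 S3 = tb L23 a b c d := by decide +kernel

def L33 : List (Fin 6 × Fin 6 × Fin 6 × Fin 6 × ℤ) := [(1, 0, 1, 0, 1), (1, 1, 1, 1, 1), (1, 1, 3, 3, 1), (1, 1, 4, 4, 1), (1, 2, 1, 2, 1), (1, 5, 1, 5, 1), (3, 0, 3, 0, 1), (3, 2, 3, 2, 1), (3, 3, 1, 1, 1), (3, 3, 3, 3, 1), (3, 3, 4, 4, 1), (3, 5, 3, 5, 1), (4, 0, 4, 0, 1), (4, 2, 4, 2, 1), (4, 4, 1, 1, 1), (4, 4, 3, 3, 1), (4, 4, 4, 4, 1), (4, 5, 4, 5, 1)]

theorem t33 : ∀ a b c d : Fin 6, G a b c d S3 S3 = tb L33 a b c d := by decide +kernel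


/-- the contribution of two basis elements -/
def PP (R : T4 6) (S T : Finset (Fin 6)) : ℝ :=
  ∑ a, ∑ b, ∑ c, ∑ d, R a b c d * (G a b c d S T : ℝ)

theorem PP_tb (R : T4 6) (S T : Finset (Fin 6)) (l : List (Fin 6 × Fin 6 × Fin 6 × Fin 6 × ℤ))
    (h : ∀ a b c d : Fin 6, G a b c d S T = tb l a b c d) :
    PP R S T = (l.map fun q => R q.1 q.2.1 q.2.2.1 q.2.2.2.1 * (q.2.2.2.2 : ℝ)).sum := by
  rw [← sum_tb]
  unfold PP
  simp only [h]

theorem G_comm (a b c d : Fin 6) (S T : Finset (Fin 6)) : G a b c d S T = G c d a b T S := by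
  unfold G
  by_cases ha : a ∈ S
  · by_cases hc : c ∈ T
    · rw [if_pos ha, if_pos hc, if_pos hc, if_pos ha, mul_comm (g1 a b S)]
      by_cases h : insert b (S.erase a) = insert d (T.erase c)
      · rw [if_pos h, if_pos h.symm]
      · rw [if_neg h, if_neg (fun h2 => h h2.symm)]
    · rw [if_pos ha, if_neg hc, if_neg hc]
  · rw [if_neg ha]
    by_cases hc : c ∈ T
    · rw [if_pos hc, if_neg ha]
    · rw [if_neg hc]

theorem PP_comm (R : T4 6) (hR : IsAC R) (S T : Finset (Fin 6)) : PP R S T = PP R T S := by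
  unfold PP
  have h : ∀ a b c d, R a b c d * (G a b c d S T : ℝ) = R c d a b * (G c d a b T S : ℝ) := by
    intro a b c d
    rw [hR.pr a b c d, G_comm]
  simp only [h]
  calc ∑ a, ∑ b, ∑ c, ∑ d, R c d a b * (G c d a b T S : ℝ)
      = ∑ a, ∑ c, ∑ b, ∑ d, R c d a b * (G c d a b T S : ℝ) := by
        refine Finset.sum_congr rfl fun a _ => ?_
        rw [Finset.sum_comm]
    _ = ∑ c, ∑ a, ∑ b, ∑ d, R c d a b * (G c d a b T S : ℝ) := Finset.sum_comm
    _ = ∑ c, ∑ a, ∑ d, ∑ b, R c d a b * (G c d a b T S : ℝ) := by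
        refine Finset.sum_congr rfl fun c _ => Finset.sum_congr rfl fun a _ => ?_
        rw [Finset.sum_comm]
    _ = ∑ c, ∑ d, ∑ a, ∑ b, R c d a b * (G c d a b T S : ℝ) := by
        refine Finset.sum_congr rfl fun c _ => ?_
        rw [Finset.sum_comm]

theorem mono_eq (A B C D : ℝ) :
    mono A B C D = A • eb S0 + B • eb S1 + C • eb S2 + D • eb S3 := by
  funext S
  simp only [Pi.add_apply, Pi.smul_apply, smul_eq_mul, mono, eb]
  have h01 : S0 ≠ S1 := by decide
  have h02 : S0 ≠ S2 := by decide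
  have h03 : S0 ≠ S3 := by decide
  have h12 : S1 ≠ S2 := by decide
  have h13 : S1 ≠ S3 := by decide
  have h23 : S2 ≠ S3 := by decide
  change (if S = S0 then A else if S = S1 then B else if S = S2 then C else if S = S3 then D
    else 0) = _
  by_cases h0 : S = S0
  · subst h0
    simp [h01, h02, h03]
  · by_cases h1 : S = S1
    · subst h1
      simp [h01.symm, h12, h13]
    · by_cases h2 : S = S2
      · subst h2
        simp [h02.symm, h12.symm, h23]
      · by_cases h3 : S = S3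
        · subst h3
          simp [h03.symm, h13.symm, h23.symm]
        · simp [h0, h1, h2, h3]

theorem ip_mono (a b c d : Fin 6) (A B C D : ℝ) :
    ip (cr b (an a (mono A B C D))) (cr d (an c (mono A B C D))) =
      A * A * (G a b c d S0 S0 : ℝ) + B * B * (G a b c d S1 S1 : ℝ) +
      C * C * (G a b c d S2 S2 : ℝ) + D * D * (G a b c d S3 S3 : ℝ) +
      A * B * ((G a b c d S0 S1 : ℝ) + (G a b c d S1 S0 : ℝ)) +
      A * C * ((G a b c d S0 S2 : ℝ) + (G a b c d S2 S0 : ℝ)) +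
      A * D * ((G a b c d S0 S3 : ℝ) + (G a b c d S3 S0 : ℝ)) +
      B * C * ((G a b c d S1 S2 : ℝ) + (G a b c d S2 S1 : ℝ)) +
      B * D * ((G a b c d S1 S3 : ℝ) + (G a b c d S3 S1 : ℝ)) +
      C * D * ((G a b c d S2 S3 : ℝ) + (G a b c d S3 S2 : ℝ)) := by
  rw [mono_eq]
  simp only [map_add, map_smul, ip_add_left, ip_add_right, ip_smul_left, ip_smul_right, ip_G]
  ring

theorem rc_mono (R : T4 6) (hR : IsAC R) (A B C D : ℝ) :
    rc R (mono A B C D) = - (A * A * PP R S0 S0 + B * B * PP R S1 S1 + C * C * PP R S2 S2 +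
      D * D * PP R S3 S3 + A * B * (2 * PP R S0 S1) + A * C * (2 * PP R S0 S2) +
      A * D * (2 * PP R S0 S3) + B * C * (2 * PP R S1 S2) + B * D * (2 * PP R S1 S3) +
      C * D * (2 * PP R S2 S3)) := by
  unfold rc
  congr 1
  have h2 : ∀ S T, 2 * PP R S T = PP R S T + PP R T S := by
    intro S T
    rw [PP_comm R hR T S]
    ring
  simp only [h2]
  unfold PP
  simp only [ip_mono, Finset.mul_sum, ← Finset.sum_add_distrib]
  refine Finset.sum_congr rfl fun a _ => Finset.sum_congr rfl fun b _ =>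
    Finset.sum_congr rfl fun c _ => Finset.sum_congr rfl fun d _ => ?_
  ring

theorem R_self (R : T4 6) (hR : IsAC R) (a c d : Fin 6) : R a a c d = 0 := by
  have := hR.a12 a a c d
  linarith

theorem off (R : T4 6) (hR : IsAC R) (w x y z : Fin 6) :
    R w x z y - R w z x y - R y x z w + R y z x w = - (2 * R w y x z) := by
  linarith [hR.a34 w x z y, hR.a34 y x z w, hR.pr y x z w, hR.a12 z w y x, hR.a34 w z y x,
    hR.bi w x y z, hR.bi w z x y, hR.pr y z x w, hR.a12 x w y z, hR.pr w x y z, hR.a12 y z w x,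
    hR.a12 w x y z, hR.a34 w x y z, hR.pr z w x y, hR.a12 z w x y, hR.a34 y z x w, hR.a12 y x z w,
    hR.a12 x y z w, hR.pr x y z w, hR.a12 y w x z, hR.a12 z w y x, hR.a34 w z x y,
    hR.pr w z x y, hR.a12 x y w z, hR.a34 y x w z, hR.a12 z x w y, hR.a34 x z w y, hR.pr w y x z,
    hR.a34 x z y w, hR.a12 w y x z, hR.a34 w y x z, hR.a12 x z w y, hR.pr y w x z]

end Q4

open Q4 in
theorem s_q4 : S_Q4 := by
  intro R hR A B C D
  constructor
  · rw [rc_mono R hR]
    have z := R_self R hR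
    have p00 := PP_tb R S0 S0 L00 t00
    have p11 := PP_tb R S1 S1 L11 t11
    have p22 := PP_tb R S2 S2 L22 t22
    have p33 := PP_tb R S3 S3 L33 t33
    have p01 := PP_tb R S0 S1 L01 t01
    have p02 := PP_tb R S0 S2 L02 t02
    have p03 := PP_tb R S0 S3 L03 t03
    have p12 := PP_tb R S1 S2 L12 t12
    have p13 := PP_tb R S1 S3 L13 t13
    have p23 := PP_tb R S2 S3 L23 t23
    unfold L00 at p00
    unfold L11 at p11
    unfold L22 at p22
    unfold L33 at p33
    unfold L01 at p01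
    unfold L02 at p02
    unfold L03 at p03
    unfold L12 at p12
    unfold L13 at p13
    unfold L23 at p23
    simp only [List.map_cons, List.map_nil, List.sum_cons, List.sum_nil, Int.cast_one,
      Int.cast_neg, mul_one, mul_neg, add_zero, z, zero_add] at p00 p11 p22 p33 p01 p02 p03 p12 p13 p23
    have q01 : PP R S0 S1 = - (2 * R 2 4 3 5) := by
      rw [p01, ← off R hR 2 3 4 5]
      ring
    have q02 : PP R S0 S2 = - (2 * R 0 4 1 5) := by
      rw [p02, ← off R hR 0 1 4 5]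
      ring
    have q03 : PP R S0 S3 = - (2 * R 0 2 1 3) := by
      rw [p03, ← off R hR 0 1 2 3]
      ring
    have q12 : PP R S1 S2 = - (2 * R 0 3 1 2) := by
      rw [p12, ← off R hR 0 1 3 2]
      ring
    have q13 : PP R S1 S3 = - (2 * R 0 5 1 4) := by
      rw [p13, ← off R hR 0 1 5 4]
      ring
    have q23 : PP R S2 S3 = - (2 * R 2 5 3 4) := by
      rw [p23, ← off R hR 2 3 5 4]
      ring
    have sy : ∀ a b : Fin 6, R a b a b = R b a b a := by
      intro a b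
      rw [hR.a12, hR.a34, neg_neg]
    rw [q01, q02, q03, q12, q13, q23, p00, p11, p22, p33]
    unfold Gb
    rw [sy 1 0, sy 3 0, sy 4 0, sy 5 0, sy 2 1, sy 4 1, sy 5 1, sy 3 2, sy 4 2, sy 5 2, sy 4 3,
      sy 5 3, sy 5 4, sy 2 0, sy 3 1]
    ring
  · rw [mono_eq]
    have h01 : S0 ≠ S1 := by decide
    have h02 : S0 ≠ S2 := by decide
    have h03 : S0 ≠ S3 := by decide
    have h12 : S1 ≠ S2 := by decide
    have h13 : S1 ≠ S3 := by decide
    have h23 : S2 ≠ S3 := by decide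
    simp only [ip_add_left, ip_add_right, ip_smul_left, ip_smul_right, ip_eb, if_neg h01,
      if_neg h02, if_neg h03, if_neg h12, if_neg h13, if_neg h23, if_neg h01.symm,
      if_neg h02.symm, if_neg h03.symm, if_neg h12.symm, if_neg h13.symm, if_neg h23.symm,
      if_true]
    ring

end Pool.Agent.H781.H6
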