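import Pool.Agent.H781.H6.A

/-!
Project H6: transfer of the Weitzenböck form (`S_RCT`).
-/

set_option autoImplicit false
set_option synthInstance.maxHeartbeats 400000
set_option maxHeartbeats 4000000

noncomputable section

namespace Pool.Agent.H781.H6

open Pool.Agent.H781.NG Pool.Agent.H781.CM
open Finset

namespace Rct

variable {N m : ℕ}

/-- the projection -/
def P (b : Fin m → Fin N → ℝ) (e e' : Fin N) : ℝ := ∑ i, b i e * b i e'

theorem P_b (b : Fin m → Fin N → ℝ) (hb : ON b) (k : Fin m) (c' : Fin N) :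
    ∑ c, b k c * P b c c' = b k c' := by
  have h1 : ∑ c, b k c * P b c c' = ∑ i, (∑ c, b k c * b i c) * b i c' := by
    unfold P
    simp only [Finset.mul_sum, Finset.sum_mul]
    rw [Finset.sum_comm]
    refine sum_congr rfl fun i _ => sum_congr rfl fun c _ => ?_
    ring
  rw [h1]
  have h2 : ∀ i, ∑ c, b k c * b i c = if k = i then 1 else 0 := fun i => hb k i
  simp only [h2, ite_mul, one_mul, zero_mul, Finset.sum_ite_eq, Finset.mem_univ, if_true]

/-- the algebraic identity -/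
theorem core (b : Fin m → Fin N → ℝ) (hb : ON b) (R : T4 N)
    (h1 : ∀ a e c d, ∑ e', P b e e' * R a e' c d = R a e c d)
    (h2 : ∀ a e c d, ∑ c', P b c c' * R a e c' d = ∑ d', P b d d' * R a e c d')
    (k : Fin m) (p : Fin N → ℝ) (M : Fin N → Fin N → ℝ) :
    ∑ j, ∑ l, R4 R p (b j) (b k) (b l) * ∑ e, ∑ d, b j e * (b l d * M e d) =
      ∑ a, ∑ e, ∑ c, ∑ d, R a e c d * (p a * (b k c * M e d)) := by
  -- expand
  have s1 : ∑ j, ∑ l, R4 R p (b j) (b k) (b l) * ∑ e, ∑ d, b j e * (b l d * M e d) =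
      ∑ j, ∑ l, ∑ a, ∑ e', ∑ c, ∑ d', ∑ e, ∑ d,
        (R a e' c d' * p a * b j e' * b k c * b l d') * (b j e * (b l d * M e d)) := by
    unfold R4
    refine sum_congr rfl fun j _ => sum_congr rfl fun l _ => ?_
    simp only [Finset.sum_mul]
    simp only [Finset.mul_sum]
  have s2 : (∑ j : Fin m, ∑ l : Fin m, ∑ a : Fin N, ∑ e' : Fin N, ∑ c : Fin N, ∑ d' : Fin N,
        ∑ e : Fin N, ∑ d : Fin N,
        (R a e' c d' * p a * b j e' * b k c * b l d') * (b j e * (b l d * M e d))) =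
      ∑ a : Fin N, ∑ c : Fin N, ∑ e : Fin N, ∑ d : Fin N, ∑ d' : Fin N, ∑ l : Fin m,
        ∑ e' : Fin N, ∑ j : Fin m,
        (p a * b k c * M e d) * ((b l d * b l d') * ((b j e * b j e') * R a e' c d')) := by
    have h := Fintype.sum_equiv
      (⟨fun x => (x.2.2.1, x.2.2.2.2.1, x.2.2.2.2.2.2.1, x.2.2.2.2.2.2.2, x.2.2.2.2.2.1, x.2.1,
          x.2.2.2.1, x.1),
        fun y => (y.2.2.2.2.2.2.2, y.2.2.2.2.2.1, y.1, y.2.2.2.2.2.2.1, y.2.1, y.2.2.2.2.1,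
          y.2.2.1, y.2.2.2.1),
        fun _ => rfl, fun _ => rfl⟩ :
        (Fin m × Fin m × Fin N × Fin N × Fin N × Fin N × Fin N × Fin N) ≃
          (Fin N × Fin N × Fin N × Fin N × Fin N × Fin m × Fin N × Fin m))
      (fun x => (R x.2.2.1 x.2.2.2.1 x.2.2.2.2.1 x.2.2.2.2.2.1 * p x.2.2.1 * b x.1 x.2.2.2.1 *
        b k x.2.2.2.2.1 * b x.2.1 x.2.2.2.2.2.1) * (b x.1 x.2.2.2.2.2.2.1 *
          (b x.2.1 x.2.2.2.2.2.2.2 * M x.2.2.2.2.2.2.1 x.2.2.2.2.2.2.2)))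
      (fun y => (p y.1 * b k y.2.1 * M y.2.2.1 y.2.2.2.1) *
        ((b y.2.2.2.2.2.1 y.2.2.2.1 * b y.2.2.2.2.2.1 y.2.2.2.2.1) *
          ((b y.2.2.2.2.2.2.2 y.2.2.1 * b y.2.2.2.2.2.2.2 y.2.2.2.2.2.2.1) *
            R y.1 y.2.2.2.2.2.2.1 y.2.1 y.2.2.2.2.1)))
      (fun x => by simp only [Equiv.coe_fn_mk]; ring)
    simpa only [Fintype.sum_prod_type] using h
  have s3 : (∑ a : Fin N, ∑ c : Fin N, ∑ e : Fin N, ∑ d : Fin N, ∑ d' : Fin N, ∑ l : Fin m,
        ∑ e' : Fin N, ∑ j : Fin m,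
        (p a * b k c * M e d) * ((b l d * b l d') * ((b j e * b j e') * R a e' c d'))) =
      ∑ a : Fin N, ∑ c : Fin N, ∑ e : Fin N, ∑ d : Fin N,
        (p a * b k c * M e d) * ∑ c', P b c c' * R a e c' d := by
    refine sum_congr rfl fun a _ => sum_congr rfl fun c _ => sum_congr rfl fun e _ =>
      sum_congr rfl fun d _ => ?_
    rw [h2, Finset.mul_sum]
    refine sum_congr rfl fun d' _ => ?_
    rw [← h1 a e c d']
    unfold P
    simp only [Finset.mul_sum, Finset.sum_mul]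
    rw [Finset.sum_comm]
    refine sum_congr rfl fun e' _ => ?_
    rw [Finset.sum_comm]
  have s4 : (∑ a : Fin N, ∑ c : Fin N, ∑ e : Fin N, ∑ d : Fin N,
        (p a * b k c * M e d) * ∑ c', P b c c' * R a e c' d) =
      ∑ a, ∑ e, ∑ c', ∑ d, R a e c' d * (p a * ((∑ c, b k c * P b c c') * M e d)) := by
    simp only [Finset.mul_sum, Finset.sum_mul]
    refine sum_congr rfl fun a _ => ?_
    have h := Fintype.sum_equiv
      (⟨fun x => (x.2.1, x.2.2.2, x.2.2.1, x.1),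
        fun y => (y.2.2.2, y.1, y.2.2.1, y.2.1),
        fun _ => rfl, fun _ => rfl⟩ :
        (Fin N × Fin N × Fin N × Fin N) ≃ (Fin N × Fin N × Fin N × Fin N))
      (fun x => p a * b k x.1 * M x.2.1 x.2.2.1 * (P b x.1 x.2.2.2 * R a x.2.1 x.2.2.2 x.2.2.1))
      (fun y => R a y.1 y.2.1 y.2.2.1 * (p a * (b k y.2.2.2 * P b y.2.2.2 y.2.1 *
        M y.1 y.2.2.1)))
      (fun x => by simp only [Equiv.coe_fn_mk]; ring)
    simpa only [Fintype.sum_prod_type] using h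
  rw [s1, s2, s3, s4]
  simp only [P_b b hb]

end Rct

open Rct in
theorem s_rct : S_RCT := by
  intro N m b τ R hτ h1 h2 u
  have hL : ∀ a e c d, NG.ip (NG.cr e (NG.an a (τ u))) (NG.cr d (NG.an c (τ u))) =
      ∑ i, ∑ k, b i a * (b k c * NG.ip (NG.cr e (τ (NG.an i u))) (NG.cr d (τ (NG.an k u)))) := by
    intro a e c d
    rw [hτ.an, hτ.an, map_sum, map_sum, ip_sum_left]
    refine sum_congr rfl fun i _ => ?_
    rw [ip_sum_right]
    refine sum_congr rfl fun k _ => ?_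
    rw [map_smul, map_smul, ip_smul_left, ip_smul_right]
  have hR : ∀ i j k l, NG.ip (NG.cr j (NG.an i u)) (NG.cr l (NG.an k u)) =
      ∑ e, ∑ d, b j e * (b l d * NG.ip (NG.cr e (τ (NG.an i u))) (NG.cr d (τ (NG.an k u)))) := by
    intro i j k l
    rw [← hτ.ip, ← hτ.cr, ← hτ.cr, ip_sum_left]
    refine sum_congr rfl fun e _ => ?_
    rw [ip_sum_right]
    refine sum_congr rfl fun d _ => ?_
    rw [ip_smul_left, ip_smul_right]
  unfold rc
  rw [neg_inj]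
  simp only [hL, hR]
  have hcore := fun i k => core b hτ.on R h1 h2 k (b i)
    (fun e d => NG.ip (NG.cr e (τ (NG.an i u))) (NG.cr d (τ (NG.an k u))))
  have e1 : (∑ a, ∑ e, ∑ c, ∑ d, R a e c d * ∑ i, ∑ k,
      b i a * (b k c * NG.ip (NG.cr e (τ (NG.an i u))) (NG.cr d (τ (NG.an k u))))) =
      ∑ i, ∑ k, ∑ a, ∑ e, ∑ c, ∑ d, R a e c d *
        (b i a * (b k c * NG.ip (NG.cr e (τ (NG.an i u))) (NG.cr d (τ (NG.an k u))))) := by
    simp only [Finset.mul_sum]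
    have h := Fintype.sum_equiv
      (⟨fun x => (x.2.2.2.2.1, x.2.2.2.2.2, x.1, x.2.1, x.2.2.1, x.2.2.2.1),
        fun y => (y.2.2.1, y.2.2.2.1, y.2.2.2.2.1, y.2.2.2.2.2, y.1, y.2.1),
        fun _ => rfl, fun _ => rfl⟩ :
        (Fin N × Fin N × Fin N × Fin N × Fin m × Fin m) ≃
          (Fin m × Fin m × Fin N × Fin N × Fin N × Fin N))
      (fun x => R x.1 x.2.1 x.2.2.1 x.2.2.2.1 * (b x.2.2.2.2.1 x.1 * (b x.2.2.2.2.2 x.2.2.1 *
        NG.ip (NG.cr x.2.1 (τ (NG.an x.2.2.2.2.1 u)))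
          (NG.cr x.2.2.2.1 (τ (NG.an x.2.2.2.2.2 u))))))
      (fun y => R y.2.2.1 y.2.2.2.1 y.2.2.2.2.1 y.2.2.2.2.2 * (b y.1 y.2.2.1 *
        (b y.2.1 y.2.2.2.2.1 * NG.ip (NG.cr y.2.2.2.1 (τ (NG.an y.1 u)))
          (NG.cr y.2.2.2.2.2 (τ (NG.an y.2.1 u))))))
      (fun x => rfl)
    simpa only [Fintype.sum_prod_type] using h
  rw [e1]
  refine sum_congr rfl fun i _ => ?_
  exact (sum_congr rfl fun k _ => (hcore i k).symm).trans Finset.sum_comm

end Pool.Agent.H781.H6
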