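import Pool.Agent.H781.H6.G

/-!
Project H6: the Weitzenböck term at a point.
-/

set_option autoImplicit false
set_option synthInstance.maxHeartbeats 400000
set_option maxHeartbeats 4000000
set_option linter.unusedSectionVars false

open Bundle Manifold ContDiff VectorField MeasureTheory Filter
open scoped Topology

noncomputable section

namespace Pool.Agent.H781.H6

open Pool.Agent.H781.NG Pool.Agent.H781.CM Pool.Agent.H821R2 Pool.Agent.H821R3
  Pool.Agent.H893R5.HO Pool.Agent.H781.S22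

namespace Ricx

section ring

variable {N : ℕ} {A B : Type*} [CommRing A] [CommRing B] (φ : A →+* B)

/-- the values of the coefficients -/
def mp (u : Fk N A) : Fk N B := fun S => φ (u S)

theorem mp_an (i : Fin N) (u : Fk N A) : NG.an i (mp φ u) = mp φ (NG.an i u) := by
  funext S
  show NG.an i (mp φ u) S = φ (NG.an i u S)
  rw [an_apply, an_apply]
  split_ifs with h
  · rw [map_zero]
  · rw [map_mul, map_intCast]
    rfl

theorem mp_cr (i : Fin N) (u : Fk N A) : NG.cr i (mp φ u) = mp φ (NG.cr i u) := by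
  funext S
  show NG.cr i (mp φ u) S = φ (NG.cr i u S)
  rw [cr_apply, cr_apply]
  split_ifs with h
  · rw [map_mul, map_intCast]
    rfl
  · rw [map_zero]

theorem mp_ip (u v : Fk N A) : NG.ip (mp φ u) (mp φ v) = φ (NG.ip u v) := by
  unfold NG.ip
  rw [map_sum]
  refine Finset.sum_congr rfl fun S _ => ?_
  rw [map_mul]
  rfl

theorem mp_ric [Algebra ℝ A] (F : Fr N A) (u : Fk N A) :
    φ (ric F u) = - ∑ a, ∑ b, ∑ c, ∑ d, φ (Rm F a b c d) *
      NG.ip (NG.cr b (NG.an a (mp φ u))) (NG.cr d (NG.an c (mp φ u))) := by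
  unfold ric
  rw [map_neg, map_sum]
  congr 1
  refine Finset.sum_congr rfl fun a _ => ?_
  rw [map_sum]
  refine Finset.sum_congr rfl fun b _ => ?_
  rw [map_sum]
  refine Finset.sum_congr rfl fun c _ => ?_
  rw [map_sum]
  refine Finset.sum_congr rfl fun d _ => ?_
  rw [map_mul, mp_an, mp_cr, mp_an, mp_cr, mp_ip]

end ring

end Ricx

open Ricx in
theorem s_ricx (h1 : S_TAU) (h2 : S_RCT) : S_RICX := by
  intro n M _ _ _ _ _ _ _ N D x f b hF p u hu hp
  obtain ⟨τ, hτ⟩ := h1 N n b hF.on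
  set φ : SA n M →+* ℝ := (evA x : SA n M →ₐ[ℝ] ℝ).toRingHom with hφ
  have hφx : ∀ g : SA n M, φ g = evA x g := fun g => rfl
  let w : Fk N (SA n M) := u
  have hw : ∀ c, NG.an c w = ∑ a, Pm D.T c a • NG.an a w := hu
  have hv : ∀ c, NG.an c (mp φ w) = ∑ a, (∑ i, b i c * b i a) • NG.an a (mp φ w) := by
    intro c
    rw [mp_an, hw c]
    funext S
    show φ ((∑ a, Pm D.T c a • NG.an a w) S) = (∑ a, (∑ i, b i c * b i a) • NG.an a (mp φ w)) S
    rw [Finset.sum_apply, Finset.sum_apply, map_sum]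
    refine Finset.sum_congr rfl fun a _ => ?_
    rw [Pi.smul_apply, Pi.smul_apply, smul_eq_mul, smul_eq_mul, map_mul, mp_an, ← hF.P c a]
    rfl
  obtain ⟨u', hu'⟩ := hτ.range (mp φ w) hv
  obtain ⟨r1, r2, r3, r4⟩ := rmp M N D.C
  have q1 : ∀ c d a' b', ∑ c', Pm D.T c c' * Rm D.F a' b' c' d =
      ∑ d', Pm D.T d d' * Rm D.F a' b' c d' := fun c d a' b' => r1 a' b' c d
  have q2 : ∀ a b c d, ∑ a', Pm D.T a a' * Rm D.F a' b c d = Rm D.F a b c d := r2
  have q3 : ∀ a b c d, Rm D.F a b c d = - Rm D.F b a c d := r3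
  refine ⟨u', ?_, ?_, ?_⟩
  · rw [← hτ.deg, hu']
    intro S hS
    show φ (w S) = 0
    have h3 : w S = 0 := hp S hS
    rw [h3, map_zero]
  · have e1 : evA x (ric D.F u) = rc (fun a b c d => evA x (Rm D.F a b c d)) (mp φ w) :=
      mp_ric φ D.F w
    have e2 : (fun i j k l => R4 (fun a b c d => evA x (Rm D.F a b c d)) (b i) (b j) (b k) (b l)) =
        Rpt D x f := by
      funext i j k l
      exact hF.R i j k l
    rw [e1, ← hu', h2 N n b τ _ hτ ?_ ?_, e2]
    · intro a e c d
      have h3 : ∀ e', (∑ i, b i e * b i e') * evA x (Rm D.F a e' c d) =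
          - φ (Pm D.T e e' * Rm D.F e' a c d) := by
        intro e'
        rw [← hF.P e e', map_mul, hφx, hφx, q3 a e' c d, map_neg]
        ring
      rw [Finset.sum_congr rfl fun e' _ => h3 e', Finset.sum_neg_distrib, ← map_sum, q2, hφx,
        q3 a e c d, map_neg]
    · intro a e c d
      have h3 : ∀ c', (∑ i, b i c * b i c') * evA x (Rm D.F a e c' d) =
          φ (Pm D.T c c' * Rm D.F a e c' d) := by
        intro c'
        rw [← hF.P c c', map_mul, hφx, hφx]
      have h4 : ∀ d', (∑ i, b i d * b i d') * evA x (Rm D.F a e c d') =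
          φ (Pm D.T d d' * Rm D.F a e c d') := by
        intro d'
        rw [← hF.P d d', map_mul, hφx, hφx]
      rw [Finset.sum_congr rfl fun c' _ => h3 c', Finset.sum_congr rfl fun d' _ => h4 d',
        ← map_sum, ← map_sum, q1]
  · rw [← hτ.ip, hu']
    unfold NG.ip
    refine Finset.sum_congr rfl fun S _ => ?_
    rw [sq]
    rfl

end Pool.Agent.H781.H6
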