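import Pool.Agent.H781.H6.A

/-!
Project H6: the Hodge star operator of `Λ ℝ⁶` preserves the Weitzenböck form.
-/

set_option autoImplicit false
set_option synthInstance.maxHeartbeats 400000
set_option maxHeartbeats 4000000

noncomputable section

namespace Pool.Agent.H781.H6

open Pool.Agent.H781.NG Pool.Agent.H781.CM

namespace Star

/-- the sign of the star operator -/
def eps (S : Finset (Fin 6)) : ℤ := (-1) ^ ((S ×ˢ Sᶜ).filter fun q => q.2 < q.1).card

theorem st_apply (u : Fk 6 ℝ) (S : Finset (Fin 6)) : st u S = (eps S : ℝ) * u Sᶜ := by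
  unfold st eps
  push_cast
  rfl

theorem eps_sq (S : Finset (Fin 6)) : (eps S : ℝ) * (eps S : ℝ) = 1 := by
  unfold eps
  push_cast
  rw [← mul_pow]
  norm_num

theorem eps_compl : ∀ S : Finset (Fin 6), S.card = 3 → eps Sᶜ = - eps S := by
  unfold eps
  decide +kernel

theorem eps_key : ∀ (S : Finset (Fin 6)) (i j : Fin 6), i ∉ S → j ∈ S →
    sg j S * sg i (S.erase j) * eps (insert i (S.erase j)) =
      - (eps S * (sg i Sᶜ * sg j (Sᶜ.erase i))) := by
  unfold eps sg
  decide +kernel

theorem sum_compl (f : Finset (Fin 6) → ℝ) : ∑ S, f Sᶜ = ∑ S, f S :=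
  Fintype.sum_equiv (Function.Involutive.toPerm compl compl_involutive) _ _ fun S => rfl

theorem ip_st (u v : Fk 6 ℝ) : ip (st u) (st v) = ip u v := by
  unfold ip
  rw [← sum_compl (fun S => u S * v S)]
  refine Finset.sum_congr rfl fun S _ => ?_
  rw [st_apply, st_apply]
  linear_combination (u Sᶜ * v Sᶜ) * eps_sq S

theorem st_deg (p : ℕ) (u : Fk 6 ℝ) (hp : p ≤ 6) (hu : Deg p u) : Deg (6 - p) (st u) := by
  intro S hS
  have h1 : Sᶜ.card ≠ p := by
    have h2 := Finset.card_compl S
    have h3 : S.card ≤ 6 := by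
      have := Finset.card_le_univ S
      simpa using this
    rw [Fintype.card_fin] at h2
    omega
  rw [st_apply, hu _ h1, mul_zero]

theorem st_neg (u : Fk 6 ℝ) : st (-u) = - st u := by
  funext S
  rw [Pi.neg_apply, st_apply, st_apply, Pi.neg_apply]
  ring

/-- the key identity -/
theorem key {i j : Fin 6} (hij : i ≠ j) (u : Fk 6 ℝ) :
    cr j (an i (st u)) = - st (cr i (an j u)) := by
  funext S
  rw [Pi.neg_apply, st_apply, cr_apply j (an i (st u)) S, cr_apply i (an j u) Sᶜ]
  by_cases hj : j ∈ S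
  · rw [if_pos hj, an_apply i (st u)]
    by_cases hi : i ∈ S
    · rw [if_pos (Finset.mem_erase.2 ⟨hij, hi⟩), if_neg (by simpa using hi)]
      ring
    · have hi' : i ∈ Sᶜ := Finset.mem_compl.2 hi
      rw [if_neg (fun h => hi (Finset.mem_of_mem_erase h)), if_pos hi', an_apply j u,
        if_neg (fun h => (Finset.mem_compl.1 (Finset.mem_of_mem_erase h)) hj), st_apply]
      have e1 : (insert i (S.erase j))ᶜ = insert j (Sᶜ.erase i) := by
        ext x
        simp only [Finset.mem_compl, Finset.mem_insert, Finset.mem_erase]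
        by_cases hx : x = j
        · subst hx
          simp [hij.symm]
        · simp [hx]
      rw [e1]
      have e2 := eps_key S i j hi hj
      have e3 : ((sg j S * sg i (S.erase j) * eps (insert i (S.erase j)) : ℤ) : ℝ) =
          ((- (eps S * (sg i Sᶜ * sg j (Sᶜ.erase i))) : ℤ) : ℝ) := by rw [e2]
      push_cast at e3
      linear_combination u (insert j (Sᶜ.erase i)) * e3
  · rw [if_neg hj]
    by_cases hi : i ∈ Sᶜ
    · rw [if_pos hi, an_apply j u, if_pos (Finset.mem_erase.2 ⟨hij.symm, Finset.mem_compl.2 hj⟩)]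
      ring
    · rw [if_neg hi]
      ring

/-- the polarised form -/
def Bf (R : T4 6) (u v : Fk 6 ℝ) : ℝ :=
  ∑ a, ∑ b, ∑ c, ∑ d, R a b c d * ip (cr b (an a u)) (cr d (an c v))

theorem rc_eq (R : T4 6) (u : Fk 6 ℝ) : rc R u = - Bf R u u := rfl

theorem Bf_comm {R : T4 6} (hR : IsAC R) (u v : Fk 6 ℝ) : Bf R u v = Bf R v u := by
  unfold Bf
  calc ∑ a, ∑ b, ∑ c, ∑ d, R a b c d * ip (cr b (an a u)) (cr d (an c v)) =
      ∑ a, ∑ c, ∑ b, ∑ d, R a b c d * ip (cr b (an a u)) (cr d (an c v)) :=
        Finset.sum_congr rfl fun a _ => Finset.sum_comm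
    _ = ∑ c, ∑ a, ∑ b, ∑ d, R a b c d * ip (cr b (an a u)) (cr d (an c v)) := Finset.sum_comm
    _ = ∑ c, ∑ a, ∑ d, ∑ b, R a b c d * ip (cr b (an a u)) (cr d (an c v)) :=
        Finset.sum_congr rfl fun c _ => Finset.sum_congr rfl fun a _ => Finset.sum_comm
    _ = ∑ c, ∑ d, ∑ a, ∑ b, R a b c d * ip (cr b (an a u)) (cr d (an c v)) :=
        Finset.sum_congr rfl fun c _ => Finset.sum_comm
    _ = _ := by
        refine Finset.sum_congr rfl fun c _ => Finset.sum_congr rfl fun d _ =>
          Finset.sum_congr rfl fun a _ => Finset.sum_congr rfl fun b _ => ?_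
        rw [hR.pr a b c d, ip_comm]

/-- renaming of the indices -/
theorem Bf_swap {R : T4 6} (hR : IsAC R) (u v : Fk 6 ℝ) :
    ∑ a, ∑ b, ∑ c, ∑ d, R a b c d * ip (cr a (an b u)) (cr c (an d v)) = Bf R u v := by
  unfold Bf
  rw [Finset.sum_comm]
  refine Finset.sum_congr rfl fun a _ => Finset.sum_congr rfl fun b _ => ?_
  rw [Finset.sum_comm]
  refine Finset.sum_congr rfl fun c _ => Finset.sum_congr rfl fun d _ => ?_
  rw [hR.a12 b a d c, hR.a34 a b d c, neg_neg]

theorem R_self12 {R : T4 6} (hR : IsAC R) (a c d : Fin 6) : R a a c d = 0 := by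
  have := hR.a12 a a c d
  linarith

theorem R_self34 {R : T4 6} (hR : IsAC R) (a b c : Fin 6) : R a b c c = 0 := by
  have := hR.a34 a b c c
  linarith

theorem Bf_st {R : T4 6} (hR : IsAC R) (u v : Fk 6 ℝ) : Bf R (st u) (st v) = Bf R u v := by
  rw [← Bf_swap hR u v]
  unfold Bf
  refine Finset.sum_congr rfl fun a _ => Finset.sum_congr rfl fun b _ =>
    Finset.sum_congr rfl fun c _ => Finset.sum_congr rfl fun d _ => ?_
  by_cases hab : a = b
  · subst hab
    rw [R_self12 hR, zero_mul, zero_mul]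
  by_cases hcd : c = d
  · subst hcd
    rw [R_self34 hR, zero_mul, zero_mul]
  rw [key hab, key hcd, ip_neg_left, ip_neg_right, neg_neg, ip_st]

/-- on 3-forms the star operator is antisymmetric -/
theorem ip_st_anti {u v : Fk 6 ℝ} (hu : Deg 3 u) : ip u (st v) = - ip (st u) v := by
  unfold ip
  rw [← sum_compl (fun S => st u S * v S), ← Finset.sum_neg_distrib]
  refine Finset.sum_congr rfl fun S _ => ?_
  rw [st_apply, st_apply, compl_compl]
  by_cases hS : S.card = 3
  · rw [eps_compl S hS]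
    push_cast
    ring
  · rw [hu S hS]
    ring

theorem Deg_X {a b : Fin 6} {u : Fk 6 ℝ} (hu : Deg 3 u) : Deg 3 (cr b (an a u)) := by
  intro S hS
  rw [cr_apply]
  split_ifs with hb
  · rw [an_apply]
    split_ifs with ha
    · rw [mul_zero]
    · have h1 : (insert a (S.erase b)).card = S.card := by
        rw [Finset.card_insert_of_notMem ha, Finset.card_erase_of_mem hb]
        have := Finset.card_pos.2 ⟨b, hb⟩
        omega
      rw [hu _ (by rw [h1]; exact hS), mul_zero, mul_zero]
  · rfl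

theorem Bf_zero {R : T4 6} (hR : IsAC R) {u : Fk 6 ℝ} (hu : Deg 3 u) : Bf R u (st u) = 0 := by
  have h1 : Bf R u (st u) = - Bf R (st u) u := by
    rw [← Bf_swap hR (st u) u]
    unfold Bf
    simp only [← Finset.sum_neg_distrib]
    refine Finset.sum_congr rfl fun a _ => Finset.sum_congr rfl fun b _ =>
      Finset.sum_congr rfl fun c _ => Finset.sum_congr rfl fun d _ => ?_
    by_cases hab : a = b
    · subst hab
      rw [R_self12 hR, zero_mul, zero_mul, neg_zero]
    by_cases hcd : c = d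
    · subst hcd
      rw [R_self34 hR, zero_mul, zero_mul, neg_zero]
    rw [key hcd, key (Ne.symm hab), ip_neg_left, ip_neg_right, ip_st_anti (Deg_X hu)]
    ring
  have h2 := Bf_comm hR u (st u)
  linarith

theorem Bf_expand (R : T4 6) (x y : ℝ) (u v : Fk 6 ℝ) :
    Bf R (x • u + y • v) (x • u + y • v) =
      x ^ 2 * Bf R u u + x * y * (Bf R u v + Bf R v u) + y ^ 2 * Bf R v v := by
  unfold Bf
  simp only [map_add, LinearMap.map_smul, ip_add_left, ip_add_right, ip_smul_left, ip_smul_right]
  simp only [mul_add, Finset.mul_sum, ← Finset.sum_add_distrib]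
  refine Finset.sum_congr rfl fun a _ => Finset.sum_congr rfl fun b _ =>
    Finset.sum_congr rfl fun c _ => Finset.sum_congr rfl fun d _ => ?_
  ring

end Star

open Star in
theorem s_star : S_STAR := by
  refine ⟨fun p u hp hu => st_deg p u hp hu, ip_st, fun R hR => ⟨fun u => ?_, fun u hu θ => ⟨?_, ?_⟩⟩⟩
  · rw [rc_eq, rc_eq, Bf_st hR]
  · have h1 := Real.sin_sq_add_cos_sq θ
    rw [rc_eq, rc_eq, Bf_expand, Bf_st hR, Bf_comm hR (st u) u, Bf_zero hR hu]
    linear_combination (- Bf R u u) * h1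
  · have h1 := Real.sin_sq_add_cos_sq θ
    have h2 : ip u (st u) = 0 := by
      have := ip_st_anti (v := u) hu
      rw [ip_comm (st u) u] at this
      linarith
    have h3 : ip (st u) u = 0 := by rw [ip_comm]; exact h2
    rw [ip_add_left, ip_add_right, ip_add_right, ip_smul_left, ip_smul_left, ip_smul_right,
      ip_smul_right, ip_smul_left, ip_smul_left, ip_smul_right, ip_smul_right, h2, h3, ip_st]
    linear_combination (ip u u) * h1

end Pool.Agent.H781.H6
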