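import Pool.Agent.H781.H6.A
import Pool.Agent.H781.CM.Lin4

/-!
The homomorphism of exterior algebras given by an orthonormal family (H6-01, by helper921 for
helper781).
-/

set_option autoImplicit false
set_option synthInstance.maxHeartbeats 400000
set_option maxHeartbeats 4000000

noncomputable section

namespace Pool.Agent.H781.H6

open Pool.Agent.H781.NG Pool.Agent.H781.CM

namespace Tau

open Pool.Agent.H781.CM.Lin4

variable {N m : ℕ}

/-! ### basis elements -/

/-- the basis element number `S` -/
def del (S : Finset (Fin m)) : Fk m ℝ := fun T => if T = S then 1 else 0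

theorem del_empty : del (∅ : Finset (Fin m)) = vac := rfl

theorem sum_del (u : Fk m ℝ) : u = ∑ S, u S • del S := by
  funext T
  rw [Finset.sum_apply, Finset.sum_eq_single T]
  · rw [Pi.smul_apply]
    show u T = u T • (if T = T then (1 : ℝ) else 0)
    rw [if_pos rfl, smul_eq_mul, mul_one]
  · intro S _ hS
    rw [Pi.smul_apply]
    show u S • (if T = S then (1 : ℝ) else 0) = 0
    rw [if_neg (Ne.symm hS), smul_zero]
  · intro h
    exact absurd (Finset.mem_univ T) h

theorem cr_del_mem {i : Fin m} {S : Finset (Fin m)} (h : i ∈ S) : cr i (del S) = 0 := by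
  funext T
  rw [cr_apply]
  split_ifs with hT
  · show (sg i T : ℝ) * (if T.erase i = S then (1 : ℝ) else 0) = 0
    rw [if_neg, mul_zero]
    intro h1
    rw [← h1] at h
    exact Finset.notMem_erase i T h
  · rfl

theorem cr_del {i : Fin m} {S : Finset (Fin m)} (h : i ∉ S) :
    cr i (del S) = (sg i S : ℝ) • del (insert i S) := by
  funext T
  rw [cr_apply, Pi.smul_apply]
  by_cases hT : T = insert i S
  · subst hT
    rw [if_pos (Finset.mem_insert_self i S), Finset.erase_insert h, sg_insert_self]
    show (sg i S : ℝ) * (if S = S then (1 : ℝ) else 0) =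
      (sg i S : ℝ) * (if insert i S = insert i S then (1 : ℝ) else 0)
    rw [if_pos rfl, if_pos rfl]
  · have h1 : (sg i S : ℝ) • del (insert i S) T = 0 := by
      show (sg i S : ℝ) * (if T = insert i S then (1 : ℝ) else 0) = 0
      rw [if_neg hT, mul_zero]
    rw [h1]
    split_ifs with hi
    · show (sg i T : ℝ) * (if T.erase i = S then (1 : ℝ) else 0) = 0
      rw [if_neg, mul_zero]
      intro h2
      apply hT
      rw [← h2, Finset.insert_erase hi]
    · rfl

theorem del_insert {i : Fin m} {S : Finset (Fin m)} (h : i ∉ S) :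
    del (insert i S) = (sg i S : ℝ) • cr i (del S) := by
  rw [cr_del h, smul_smul, sg_sqA, one_smul]

/-- the vacuum generates the Fock space -/
theorem ind {P : Fk m ℝ → Prop} (h0 : P 0) (hadd : ∀ u v, P u → P v → P (u + v))
    (hs : ∀ (c : ℝ) u, P u → P (c • u)) (hv : P vac) (hc : ∀ i u, P u → P (cr i u)) :
    ∀ u, P u := by
  have h1 : ∀ S : Finset (Fin m), P (del S) := by
    intro S
    induction S using Finset.induction_on with
    | empty => exact hv
    | insert i S hi ih =>
      rw [del_insert hi]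
      exact hs _ _ (hc i _ ih)
  intro u
  rw [sum_del u]
  have h2 : ∀ s : Finset (Finset (Fin m)), P (∑ S ∈ s, u S • del S) := by
    intro s
    induction s using Finset.induction_on with
    | empty =>
      rw [Finset.sum_empty]
      exact h0
    | insert S s hS ih =>
      rw [Finset.sum_insert hS]
      exact hadd _ _ (hs _ _ (h1 S)) ih
  exact h2 _

theorem ext_del {f g : Fk m ℝ →ₗ[ℝ] Fk N ℝ} (h : ∀ S, f (del S) = g (del S)) (u : Fk m ℝ) :
    f u = g u := by
  rw [sum_del u, map_sum, map_sum]
  exact Finset.sum_congr rfl fun S _ => by rw [map_smul, map_smul, h]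

/-! ### the map -/

variable (b : Fin m → Fin N → ℝ)

/-- the image of the basis element number `S` -/
def E (S : Finset (Fin m)) : Fk N ℝ := CL b S.sort

theorem E_empty : E b ∅ = vac := by
  unfold E
  rw [Finset.sort_empty]
  rfl

theorem E_insert {i : Fin m} {S : Finset (Fin m)} (h : ∀ j ∈ S, i < j) :
    E b (insert i S) = Cv (b i) (E b S) := by
  unfold E
  rw [Finset.sort_insert (r := fun a b => a ≤ b) (fun j hj => (h j hj).le)
    (fun hi => lt_irrefl i (h i hi)), CL_cons]

theorem Cv_E_mem {i : Fin m} {S : Finset (Fin m)} (h : i ∈ S) : Cv (b i) (E b S) = 0 :=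
  Cv_CL_mem ((Finset.mem_sort _).2 h)

theorem Cv_E (i : Fin m) (S : Finset (Fin m)) :
    i ∉ S → Cv (b i) (E b S) = (sg i S : ℝ) • E b (insert i S) := by
  induction S using Finset.induction_on_min with
  | empty =>
    intro _
    rw [E_insert b (fun j hj => absurd hj (Finset.notMem_empty j))]
    have : (sg i (∅ : Finset (Fin m)) : ℝ) = 1 := by
      unfold sg
      rw [Finset.filter_empty, Finset.card_empty, pow_zero, Int.cast_one]
    rw [this, one_smul]
  | insert a s ha ih =>
    intro hi
    have hia : i ≠ a := fun h => hi (by rw [h]; exact Finset.mem_insert_self a s)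
    have his : i ∉ s := fun h => hi (Finset.mem_insert_of_mem h)
    have has : a ∉ s := fun h => lt_irrefl a (ha a h)
    rcases lt_or_gt_of_ne hia with h | h
    · have h1 : ∀ j ∈ insert a s, i < j := by
        intro j hj
        rcases Finset.mem_insert.1 hj with rfl | hj
        · exact h
        · exact h.trans (ha j hj)
      rw [E_insert b h1]
      have : (sg i (insert a s) : ℝ) = 1 := by
        unfold sg
        rw [Finset.filter_false_of_mem (fun j hj => not_lt.2 (h1 j hj).le), Finset.card_empty,
          pow_zero, Int.cast_one]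
      rw [this, one_smul]
    · have h1 : ∀ j ∈ insert i s, a < j := by
        intro j hj
        rcases Finset.mem_insert.1 hj with rfl | hj
        · exact h
        · exact ha j hj
      rw [E_insert b ha, Cv_Cv, ih his, map_smul, ← E_insert b h1, sg_insert_of_lt h has,
        Finset.insert_comm, Int.cast_neg, neg_smul]

/-- the homomorphism of the exterior algebras -/
def tau : Fk m ℝ →ₗ[ℝ] Fk N ℝ := ∑ S, (LinearMap.proj S : Fk m ℝ →ₗ[ℝ] ℝ).smulRight (E b S)

theorem tau_apply (u : Fk m ℝ) : tau b u = ∑ S, u S • E b S := by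
  unfold tau
  rw [LinearMap.sum_apply]
  rfl

theorem tau_del (S : Finset (Fin m)) : tau b (del S) = E b S := by
  rw [tau_apply, Finset.sum_eq_single S]
  · show (if S = S then (1 : ℝ) else 0) • E b S = E b S
    rw [if_pos rfl, one_smul]
  · intro T _ hT
    show (if T = S then (1 : ℝ) else 0) • E b T = 0
    rw [if_neg hT, zero_smul]
  · intro h
    exact absurd (Finset.mem_univ S) h

theorem tau_vac : tau b vac = vac := by
  rw [← del_empty, tau_del, E_empty]

theorem Cv_tau (i : Fin m) (u : Fk m ℝ) : Cv (b i) (tau b u) = tau b (cr i u) := by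
  refine ext_del (f := Cv (b i) ∘ₗ tau b) (g := tau b ∘ₗ cr i) (fun S => ?_) u
  show Cv (b i) (tau b (del S)) = tau b (cr i (del S))
  by_cases h : i ∈ S
  · rw [tau_del, cr_del_mem h, Cv_E_mem b h, map_zero]
  · rw [tau_del, cr_del h, Cv_E b i S h, map_smul, tau_del]

theorem an_Cv (a : Fin N) (t : Fin N → ℝ) (u : Fk N ℝ) :
    an a (Cv t u) = t a • u - Cv t (an a u) := by
  rw [Cv_apply, Cv_apply, map_sum]
  have h1 : ∀ c, an a (t c • cr c u) = (if a = c then t c • u else 0) - t c • cr c (an a u) := by
    intro c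
    rw [map_smul, an_cr, smul_sub]
    split_ifs
    · rfl
    · rw [smul_zero]
  rw [Finset.sum_congr rfl fun c _ => h1 c, Finset.sum_sub_distrib, Finset.sum_ite_eq,
    if_pos (Finset.mem_univ a)]

theorem an_tau (a : Fin N) (u : Fk m ℝ) : an a (tau b u) = ∑ i, b i a • tau b (an i u) := by
  revert u
  refine ind ?_ ?_ ?_ ?_ ?_
  · rw [map_zero, map_zero]
    refine (Finset.sum_eq_zero fun i _ => ?_).symm
    rw [map_zero, map_zero, smul_zero]
  · intro u v hu hv
    rw [map_add, map_add, hu, hv, ← Finset.sum_add_distrib]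
    exact Finset.sum_congr rfl fun i _ => by rw [map_add, map_add, smul_add]
  · intro c u hu
    rw [map_smul, map_smul, hu, Finset.smul_sum]
    exact Finset.sum_congr rfl fun i _ => by rw [map_smul, map_smul, smul_comm]
  · rw [tau_vac, an_vac]
    refine (Finset.sum_eq_zero fun i _ => ?_).symm
    rw [an_vac, map_zero, smul_zero]
  · intro j u hu
    rw [← Cv_tau, an_Cv, hu, map_sum]
    have h1 : ∀ i, b i a • tau b (an i (cr j u)) =
        (if i = j then b i a • tau b u else 0) - Cv (b j) (b i a • tau b (an i u)) := by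
      intro i
      rw [an_cr, map_sub, smul_sub, ← Cv_tau, map_smul]
      split_ifs
      · rfl
      · rw [map_zero, smul_zero]
    rw [Finset.sum_congr rfl fun i _ => h1 i, Finset.sum_sub_distrib, Finset.sum_ite_eq',
      if_pos (Finset.mem_univ j)]

variable {b}

theorem Av_tau (hb : ON b) (j : Fin m) (u : Fk m ℝ) : Av (b j) (tau b u) = tau b (an j u) := by
  have h1 : ∀ a, b j a • an a (tau b u) = ∑ i, (b j a * b i a) • tau b (an i u) := by
    intro a
    rw [an_tau, Finset.smul_sum]
    exact Finset.sum_congr rfl fun i _ => by rw [smul_smul]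
  rw [Av_apply, Finset.sum_congr rfl fun a _ => h1 a, Finset.sum_comm]
  have h2 : ∀ i, ∑ a, (b j a * b i a) • tau b (an i u) =
      if j = i then tau b (an i u) else 0 := by
    intro i
    rw [← Finset.sum_smul]
    have h3 : ∑ a, b j a * b i a = if j = i then 1 else 0 := hb j i
    rw [h3]
    split_ifs
    · rw [one_smul]
    · rw [zero_smul]
  rw [Finset.sum_congr rfl fun i _ => h2 i, Finset.sum_ite_eq, if_pos (Finset.mem_univ j)]

theorem ip_tau (hb : ON b) (u : Fk m ℝ) : ∀ v, ip (tau b u) (tau b v) = ip u v := by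
  revert u
  refine ind ?_ ?_ ?_ ?_ ?_
  · intro v
    rw [map_zero, ip_zero_left, ip_zero_left]
  · intro u v hu hv w
    rw [map_add, ip_add_left, ip_add_left, hu, hv]
  · intro c u hu w
    rw [map_smul, ip_smul_left, ip_smul_left, hu]
  · refine ind ?_ ?_ ?_ ?_ ?_
    · rw [map_zero, ip_zero_right, ip_zero_right]
    · intro u v hu hv
      rw [map_add, ip_add_right, ip_add_right, hu, hv]
    · intro c u hu
      rw [map_smul, ip_smul_right, ip_smul_right, hu]
    · rw [tau_vac, ip_vac, ip_vac]
    · intro j u _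
      rw [tau_vac, ← Cv_tau, ip_comm vac (Cv (b j) (tau b u)), ip_comm vac (cr j u), ip_Cv, Av_vac,
        ip_zero_right, ip_cr, an_vac, ip_zero_right]
  · intro j u hu v
    rw [← Cv_tau, ip_Cv, Av_tau hb, hu, ip_cr]

theorem tau_inj (hb : ON b) {u v : Fk m ℝ} (h : tau b u = tau b v) : u = v := by
  have h1 : ip (u - v) (u - v) = 0 := by
    rw [← ip_tau hb, map_sub, h, sub_self, ip_zero_left]
  unfold ip at h1
  rw [Finset.sum_eq_zero_iff_of_nonneg fun S _ => mul_self_nonneg _] at h1
  funext S
  exact sub_eq_zero.1 (mul_self_eq_zero.1 (h1 S (Finset.mem_univ S)))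

theorem deg_iff {k p : ℕ} (u : Fk k ℝ) : Deg p u ↔ ∑ a, cr a (an a u) = (p : ℝ) • u := by
  constructor
  · intro h
    funext S
    rw [number, Pi.smul_apply, smul_eq_mul]
    by_cases hS : S.card = p
    · rw [hS]
    · rw [h S hS, mul_zero, mul_zero]
  · intro h S hS
    have h1 := congrFun h S
    rw [number, Pi.smul_apply, smul_eq_mul] at h1
    have h2 : ((S.card : ℝ) - p) * u S = 0 := by rw [sub_mul, h1, sub_self]
    rcases mul_eq_zero.1 h2 with h3 | h3
    · exact absurd (by exact_mod_cast sub_eq_zero.1 h3) hS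
    · exact h3

theorem number_tau (u : Fk m ℝ) :
    ∑ a, cr a (an a (tau b u)) = tau b (∑ i, cr i (an i u)) := by
  have h1 : ∀ a, cr a (an a (tau b u)) = ∑ i, b i a • cr a (tau b (an i u)) := by
    intro a
    rw [an_tau, map_sum]
    exact Finset.sum_congr rfl fun i _ => by rw [map_smul]
  rw [Finset.sum_congr rfl fun a _ => h1 a, Finset.sum_comm, map_sum]
  refine Finset.sum_congr rfl fun i _ => ?_
  rw [← Cv_apply, Cv_tau]

theorem deg_tau (hb : ON b) (p : ℕ) (u : Fk m ℝ) : Deg p (tau b u) ↔ Deg p u := by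
  rw [deg_iff, deg_iff, number_tau, ← map_smul]
  exact ⟨fun h => tau_inj hb h, fun h => by rw [h]⟩

theorem CL_range (L : List (Fin m)) : CL b L ∈ LinearMap.range (tau b) := by
  induction L with
  | nil => exact ⟨vac, tau_vac b⟩
  | cons i L ih =>
    obtain ⟨u, hu⟩ := ih
    exact ⟨cr i u, by rw [← Cv_tau, hu, CL_cons]⟩

theorem MS_range (p : ℕ) : MS b p ≤ LinearMap.range (tau b) := by
  refine Submodule.span_le.2 ?_
  rintro _ ⟨L, -, rfl⟩
  exact CL_range L

theorem an_dpt_zero (c : Fin N) (u : Fk N ℝ) : an c (dpt 0 u) = 0 := by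
  funext S
  rw [an_apply]
  split_ifs with h
  · rfl
  · show (sg c S : ℝ) * (if (insert c S).card = 0 then u (insert c S) else 0) = 0
    rw [if_neg (by rw [Finset.card_insert_of_notMem h]; omega), mul_zero]

theorem an_dpt_succ (p : ℕ) (c : Fin N) (u : Fk N ℝ) : an c (dpt (p + 1) u) = dpt p (an c u) := by
  funext S
  rw [an_apply]
  show _ = if S.card = p then an c u S else 0
  rw [an_apply]
  split_ifs with h h1 h1
  · rfl
  · rfl
  · show (sg c S : ℝ) * (if (insert c S).card = p + 1 then u (insert c S) else 0) = _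
    rw [if_pos (by rw [Finset.card_insert_of_notMem h, h1])]
  · show (sg c S : ℝ) * (if (insert c S).card = p + 1 then u (insert c S) else 0) = _
    rw [if_neg (by rw [Finset.card_insert_of_notMem h]; omega), mul_zero]

theorem dpt_sum_smul {ι : Type*} (s : Finset ι) (p : ℕ) (c : ι → ℝ) (f : ι → Fk N ℝ) :
    dpt p (∑ i ∈ s, c i • f i) = ∑ i ∈ s, c i • dpt p (f i) := by
  funext S
  rw [Finset.sum_apply]
  show (if S.card = p then (∑ i ∈ s, c i • f i) S else 0) = _
  split_ifs with h
  · rw [Finset.sum_apply]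
    refine Finset.sum_congr rfl fun i _ => ?_
    show c i • f i S = c i • (if S.card = p then f i S else 0)
    rw [if_pos h]
  · refine (Finset.sum_eq_zero fun i _ => ?_).symm
    show c i • (if S.card = p then f i S else 0) = 0
    rw [if_neg h, smul_zero]

theorem deg_dpt (p : ℕ) (u : Fk N ℝ) : Deg p (dpt p u) := fun _ hS => if_neg hS

theorem sum_dpt (u : Fk N ℝ) : u = ∑ p ∈ Finset.range (N + 1), dpt p u := by
  funext S
  rw [Finset.sum_apply, Finset.sum_eq_single S.card]
  · show u S = if S.card = S.card then u S else 0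
    rw [if_pos rfl]
  · intro p _ hp
    exact if_neg (Ne.symm hp)
  · intro h
    exfalso
    apply h
    rw [Finset.mem_range]
    have := S.card_le_univ
    rw [Fintype.card_fin] at this
    omega

theorem hor_dpt {P : Fin N → Fin N → ℝ} {u : Fk N ℝ} (h : HorP P u) (p : ℕ) :
    HorP P (dpt p u) := by
  intro c
  cases p with
  | zero =>
    rw [an_dpt_zero]
    exact (Finset.sum_eq_zero fun a _ => by rw [an_dpt_zero, smul_zero]).symm
  | succ p =>
    rw [an_dpt_succ, h c, dpt_sum_smul]
    exact Finset.sum_congr rfl fun a _ => by rw [an_dpt_succ]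

end Tau

open Tau Lin4 in
theorem s_tau : S_TAU := by
  intro N m b hb
  refine ⟨tau b, ⟨hb, an_tau b, fun i u => ?_, ip_tau hb, tau_vac b, deg_tau hb, fun u hu => ?_⟩⟩
  · rw [← Cv_tau, Cv_apply]
  · have h1 : HorP (fun a c => ∑ i, b i a * b i c) u := hu
    rw [← LinearMap.mem_range, sum_dpt u]
    exact Submodule.sum_mem _ fun p _ => MS_range p
      (mem_MS (fun _ _ => rfl) p _ (hor_dpt h1 p) (deg_dpt p u))

end Pool.Agent.H781.H6
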