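import Pool.Agent.H781.H6.A

/-!
Normal form of `2 × 2 × 2` tensors under rotations.
-/

set_option autoImplicit false

noncomputable section

namespace Pool.Agent.H781.H6

open Pool.Agent.H781.NG Pool.Agent.H781.CM

namespace Tor

theorem exists_phase (A B : ℝ) : ∃ φ : ℝ, Real.cos φ * B + Real.sin φ * A = 0 := by
  refine ⟨-(Complex.arg ⟨A, B⟩), ?_⟩
  rw [Real.cos_neg, Real.sin_neg]
  have h1 := Complex.norm_mul_cos_arg (⟨A, B⟩ : ℂ)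
  have h2 := Complex.norm_mul_sin_arg (⟨A, B⟩ : ℂ)
  simp only at h1 h2
  linear_combination (-Real.cos (Complex.arg ⟨A, B⟩)) * h2 + Real.sin (Complex.arg ⟨A, B⟩) * h1

theorem rt3_apply (α β γ : ℝ) (T : Fin 2 → Fin 2 → Fin 2 → ℝ) (a b c : Fin 2) :
    rt3 α β γ T a b c =
      r2 α a 0 * (r2 β b 0 * (r2 γ c 0 * T 0 0 0 + r2 γ c 1 * T 0 0 1) +
        r2 β b 1 * (r2 γ c 0 * T 0 1 0 + r2 γ c 1 * T 0 1 1)) +
      r2 α a 1 * (r2 β b 0 * (r2 γ c 0 * T 1 0 0 + r2 γ c 1 * T 1 0 1) +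
        r2 β b 1 * (r2 γ c 0 * T 1 1 0 + r2 γ c 1 * T 1 1 1)) := by
  unfold rt3
  simp only [Fin.sum_univ_two]
  ring

theorem r00 (α : ℝ) : r2 α 0 0 = Real.cos α := rfl
theorem r01 (α : ℝ) : r2 α 0 1 = Real.sin α := rfl
theorem r10 (α : ℝ) : r2 α 1 0 = - Real.sin α := rfl
theorem r11 (α : ℝ) : r2 α 1 1 = Real.cos α := rfl

theorem c1 (α β γ θ : ℝ) (T : Fin 2 → Fin 2 → Fin 2 → ℝ) :
    (Real.cos θ * rt3 α β γ T 1 1 1 + Real.sin θ * rt3 α β γ T 0 0 0) +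
      (Real.cos θ * rt3 α β γ T 1 0 0 + Real.sin θ * rt3 α β γ T 0 1 1) +
      (Real.cos θ * rt3 α β γ T 0 1 0 + Real.sin θ * rt3 α β γ T 1 0 1) -
      (Real.cos θ * rt3 α β γ T 0 0 1 + Real.sin θ * rt3 α β γ T 1 1 0) =
    Real.cos (θ - α - β + γ) * (T 1 1 1 + T 1 0 0 + T 0 1 0 - T 0 0 1) +
      Real.sin (θ - α - β + γ) * (T 0 0 0 + T 0 1 1 + T 1 0 1 - T 1 1 0) := by
  simp only [rt3_apply, r00, r01, r10, r11, Real.cos_add, Real.sin_add, Real.cos_sub, Real.sin_sub]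
  ring

theorem c2 (α β γ θ : ℝ) (T : Fin 2 → Fin 2 → Fin 2 → ℝ) :
    (Real.cos θ * rt3 α β γ T 1 1 1 + Real.sin θ * rt3 α β γ T 0 0 0) +
      (Real.cos θ * rt3 α β γ T 1 0 0 + Real.sin θ * rt3 α β γ T 0 1 1) -
      (Real.cos θ * rt3 α β γ T 0 1 0 + Real.sin θ * rt3 α β γ T 1 0 1) +
      (Real.cos θ * rt3 α β γ T 0 0 1 + Real.sin θ * rt3 α β γ T 1 1 0) =
    Real.cos (θ - α + β - γ) * (T 1 1 1 + T 1 0 0 - T 0 1 0 + T 0 0 1) +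
      Real.sin (θ - α + β - γ) * (T 0 0 0 + T 0 1 1 - T 1 0 1 + T 1 1 0) := by
  simp only [rt3_apply, r00, r01, r10, r11, Real.cos_add, Real.sin_add, Real.cos_sub, Real.sin_sub]
  ring

theorem c3 (α β γ θ : ℝ) (T : Fin 2 → Fin 2 → Fin 2 → ℝ) :
    (Real.cos θ * rt3 α β γ T 1 1 1 + Real.sin θ * rt3 α β γ T 0 0 0) -
      (Real.cos θ * rt3 α β γ T 1 0 0 + Real.sin θ * rt3 α β γ T 0 1 1) +
      (Real.cos θ * rt3 α β γ T 0 1 0 + Real.sin θ * rt3 α β γ T 1 0 1) +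
      (Real.cos θ * rt3 α β γ T 0 0 1 + Real.sin θ * rt3 α β γ T 1 1 0) =
    Real.cos (θ + α - β - γ) * (T 1 1 1 - T 1 0 0 + T 0 1 0 + T 0 0 1) +
      Real.sin (θ + α - β - γ) * (T 0 0 0 - T 0 1 1 + T 1 0 1 + T 1 1 0) := by
  simp only [rt3_apply, r00, r01, r10, r11, Real.cos_add, Real.sin_add, Real.cos_sub, Real.sin_sub]
  ring

theorem c4 (α β γ θ : ℝ) (T : Fin 2 → Fin 2 → Fin 2 → ℝ) :
    (Real.cos θ * rt3 α β γ T 1 1 1 + Real.sin θ * rt3 α β γ T 0 0 0) -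
      (Real.cos θ * rt3 α β γ T 1 0 0 + Real.sin θ * rt3 α β γ T 0 1 1) -
      (Real.cos θ * rt3 α β γ T 0 1 0 + Real.sin θ * rt3 α β γ T 1 0 1) -
      (Real.cos θ * rt3 α β γ T 0 0 1 + Real.sin θ * rt3 α β γ T 1 1 0) =
    Real.cos (θ + α + β + γ) * (T 1 1 1 - T 1 0 0 - T 0 1 0 - T 0 0 1) +
      Real.sin (θ + α + β + γ) * (T 0 0 0 - T 0 1 1 - T 1 0 1 - T 1 1 0) := by
  simp only [rt3_apply, r00, r01, r10, r11, Real.cos_add, Real.sin_add]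
  ring

end Tor

open Tor in
theorem s_tor : S_TOR := by
  intro T
  obtain ⟨φ1, h1⟩ := exists_phase (T 0 0 0 + T 0 1 1 + T 1 0 1 - T 1 1 0)
    (T 1 1 1 + T 1 0 0 + T 0 1 0 - T 0 0 1)
  obtain ⟨φ2, h2⟩ := exists_phase (T 0 0 0 + T 0 1 1 - T 1 0 1 + T 1 1 0)
    (T 1 1 1 + T 1 0 0 - T 0 1 0 + T 0 0 1)
  obtain ⟨φ3, h3⟩ := exists_phase (T 0 0 0 - T 0 1 1 + T 1 0 1 + T 1 1 0)
    (T 1 1 1 - T 1 0 0 + T 0 1 0 + T 0 0 1)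
  obtain ⟨φ4, h4⟩ := exists_phase (T 0 0 0 - T 0 1 1 - T 1 0 1 - T 1 1 0)
    (T 1 1 1 - T 1 0 0 - T 0 1 0 - T 0 0 1)
  obtain ⟨α, hα⟩ : ∃ α, α = (-φ1 - φ2 + φ3 + φ4) / 4 := ⟨_, rfl⟩
  obtain ⟨β, hβ⟩ : ∃ β, β = (-φ1 + φ2 - φ3 + φ4) / 4 := ⟨_, rfl⟩
  obtain ⟨γ, hγ⟩ : ∃ γ, γ = (φ1 - φ2 - φ3 + φ4) / 4 := ⟨_, rfl⟩
  obtain ⟨θ, hθ⟩ : ∃ θ, θ = (φ1 + φ2 + φ3 + φ4) / 4 := ⟨_, rfl⟩
  have e1 : θ - α - β + γ = φ1 := by rw [hα, hβ, hγ, hθ]; ring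
  have e2 : θ - α + β - γ = φ2 := by rw [hα, hβ, hγ, hθ]; ring
  have e3 : θ + α - β - γ = φ3 := by rw [hα, hβ, hγ, hθ]; ring
  have e4 : θ + α + β + γ = φ4 := by rw [hα, hβ, hγ, hθ]; ring
  have k1 := c1 α β γ θ T
  have k2 := c2 α β γ θ T
  have k3 := c3 α β γ θ T
  have k4 := c4 α β γ θ T
  rw [e1, h1] at k1
  rw [e2, h2] at k2
  rw [e3, h3] at k3
  rw [e4, h4] at k4
  refine ⟨α, β, γ, θ, ?_⟩
  have y0 : Real.cos θ * rt3 α β γ T 1 1 1 + Real.sin θ * rt3 α β γ T 0 0 0 = 0 := by linarith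
  have y1 : Real.cos θ * rt3 α β γ T 1 0 0 + Real.sin θ * rt3 α β γ T 0 1 1 = 0 := by linarith
  have y2 : Real.cos θ * rt3 α β γ T 0 1 0 + Real.sin θ * rt3 α β γ T 1 0 1 = 0 := by linarith
  have y3 : Real.cos θ * rt3 α β γ T 0 0 1 + Real.sin θ * rt3 α β γ T 1 1 0 = 0 := by linarith
  intro a b c habc
  fin_cases a <;> fin_cases b <;> fin_cases c
  · exact absurd habc (by decide)
  · exact y3
  · exact y2
  · exact absurd habc (by decide)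
  · exact y1
  · exact absurd habc (by decide)
  · exact absurd habc (by decide)
  · exact y0

end Pool.Agent.H781.H6
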