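import Pool.Agent.H781.H6.A

/-!
# The sum of the losses: all the 27 quadratic forms are positive semidefinite
-/

set_option autoImplicit false

namespace Pool.Agent.H781.H6

open Pool.Agent.H781.NG Pool.Agent.H781.CM

theorem s_ts : S_TS := by
  intro a b c d T₁ T₂ T₃ _ _ _ _ h1 h2 h3
  rcases h1 with rfl | rfl | rfl <;> rcases h2 with rfl | rfl | rfl <;>
    rcases h3 with rfl | rfl | rfl
  · nlinarith [sq_nonneg (a), sq_nonneg (b), sq_nonneg (c), sq_nonneg (d)]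
  · nlinarith [sq_nonneg (a - d), sq_nonneg (b - (1 / 5) * c), sq_nonneg (c)]
  · nlinarith [sq_nonneg (a - (1 / 5) * d), sq_nonneg (b - c), sq_nonneg (d)]
  · nlinarith [sq_nonneg (a - c), sq_nonneg (b - (1 / 5) * d), sq_nonneg (d)]
  · nlinarith [sq_nonneg (a - c - d), sq_nonneg (b - (1 / 8) * c - (1 / 8) * d), sq_nonneg (c - (17 / 23) * d), sq_nonneg (d)]
  · nlinarith [sq_nonneg (a - (2 / 5) * c - (1 / 5) * d), sq_nonneg (b - (2 / 5) * c - (1 / 5) * d), sq_nonneg (c - 2 * d), sq_nonneg (d)]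
  · nlinarith [sq_nonneg (a - (1 / 5) * c), sq_nonneg (b - d), sq_nonneg (c)]
  · nlinarith [sq_nonneg (a - (1 / 5) * c - (2 / 5) * d), sq_nonneg (b - (1 / 5) * c - (2 / 5) * d), sq_nonneg (c - (2 / 19) * d), sq_nonneg (d)]
  · nlinarith [sq_nonneg (a - (1 / 8) * c - (1 / 8) * d), sq_nonneg (b - c - d), sq_nonneg (c - (17 / 23) * d), sq_nonneg (d)]
  · nlinarith [sq_nonneg (a - b), sq_nonneg (c - (1 / 5) * d), sq_nonneg (d)]
  · nlinarith [sq_nonneg (a - b - d), sq_nonneg (b - (1 / 3) * c - (2 / 3) * d), sq_nonneg (c - (5 / 23) * d), sq_nonneg (d)]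
  · nlinarith [sq_nonneg (a - (2 / 5) * b - (1 / 5) * d), sq_nonneg (b - (5 / 3) * c - (1 / 3) * d), sq_nonneg (c - d), sq_nonneg (d)]
  · nlinarith [sq_nonneg (a - b - c), sq_nonneg (b - (2 / 3) * c - (1 / 3) * d), sq_nonneg (c - d), sq_nonneg (d)]
  · nlinarith [sq_nonneg (a - b - c - d), sq_nonneg (b - (1 / 2) * c - (1 / 2) * d), sq_nonneg (c - d)]
  · nlinarith [sq_nonneg (a - (2 / 5) * b - (2 / 5) * c - (1 / 5) * d), sq_nonneg (b - (2 / 3) * c - (1 / 3) * d), sq_nonneg (c - d), sq_nonneg (d)]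
  · nlinarith [sq_nonneg (a - (2 / 5) * b - (1 / 5) * c), sq_nonneg (b - (1 / 3) * c - (5 / 3) * d), sq_nonneg (c - (5 / 23) * d), sq_nonneg (d)]
  · nlinarith [sq_nonneg (a - (2 / 5) * b - (1 / 5) * c - (2 / 5) * d), sq_nonneg (b - (1 / 3) * c - (2 / 3) * d), sq_nonneg (c - (7 / 31) * d), sq_nonneg (d)]
  · nlinarith [sq_nonneg (a - (1 / 4) * b - (1 / 8) * c - (1 / 8) * d), sq_nonneg (b - (3 / 2) * c - (3 / 2) * d), sq_nonneg (c - d)]
  · nlinarith [sq_nonneg (a - (1 / 5) * b), sq_nonneg (b), sq_nonneg (c - d)]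
  · nlinarith [sq_nonneg (a - (1 / 5) * b - (2 / 5) * d), sq_nonneg (b - (5 / 39) * c - (2 / 39) * d), sq_nonneg (c - (8 / 19) * d), sq_nonneg (d)]
  · nlinarith [sq_nonneg (a - (1 / 8) * b - (1 / 8) * d), sq_nonneg (b - (16 / 39) * c - (1 / 39) * d), sq_nonneg (c - (40 / 23) * d), sq_nonneg (d)]
  · nlinarith [sq_nonneg (a - (1 / 5) * b - (2 / 5) * c), sq_nonneg (b - (2 / 39) * c - (5 / 39) * d), sq_nonneg (c - (40 / 23) * d), sq_nonneg (d)]
  · nlinarith [sq_nonneg (a - (1 / 5) * b - (2 / 5) * c - (2 / 5) * d), sq_nonneg (b - (7 / 54) * c - (7 / 54) * d), sq_nonneg (c - (23 / 31) * d), sq_nonneg (d)]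
  · nlinarith [sq_nonneg (a - (1 / 8) * b - (1 / 4) * c - (1 / 8) * d), sq_nonneg (b - (2 / 7) * c - (1 / 7) * d), sq_nonneg (c - 3 * d)]
  · nlinarith [sq_nonneg (a - (1 / 8) * b - (1 / 8) * c), sq_nonneg (b - (1 / 39) * c - (16 / 39) * d), sq_nonneg (c - (8 / 19) * d), sq_nonneg (d)]
  · nlinarith [sq_nonneg (a - (1 / 8) * b - (1 / 8) * c - (1 / 4) * d), sq_nonneg (b - (1 / 7) * c - (2 / 7) * d), sq_nonneg (c - (1 / 3) * d)]
  · nlinarith [sq_nonneg (a - (1 / 11) * b - (1 / 11) * c - (1 / 11) * d), sq_nonneg (b - (23 / 54) * c - (23 / 54) * d), sq_nonneg (c - (23 / 31) * d), sq_nonneg (d)]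

end Pool.Agent.H781.H6
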