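import Pool.Agent.H781.H6.Main6
import Pool.Agent.H781.H6.Tau
import Pool.Agent.H781.H6.Rct
import Pool.Agent.H781.H6.Star
import Pool.Agent.H781.H6.P15
import Pool.Agent.H781.H6.L4
import Pool.Agent.H781.H6.Imp
import Pool.Agent.H781.H6.Nf
import Pool.Agent.H781.H6.Tor
import Pool.Agent.H781.H6.Nf2
import Pool.Agent.H781.H6.Q4
import Pool.Agent.H781.H6.Gb
import Pool.Agent.H781.H6.Ts
import Pool.Agent.H781.H6.Bic
import Pool.Agent.H781.H6.Pw
import Pool.Agent.H781.H6.Vanc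
import Pool.Agent.H781.H6.Frm
import Pool.Agent.H781.H6.Ricx
import Pool.Agent.H781.H6.Bix
import Pool.Agent.H781.H6.Pin6

/-!
Assembly of project H6.
-/

set_option autoImplicit false

namespace Pool.Agent.H781.H6

theorem pw : S_PW :=
  s_pw s_tau s_rct s_star (s_nf2 (s_nf (s_imp s_l4)) s_tor) s_q4 s_gb s_ts s_bic

theorem main6 : S_MAIN6 :=
  s_main6 s_vanc s_frm (s_ricx s_tau s_rct) s_bix pw (s_p15 s_star)

end Pool.Agent.H781.H6
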