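import Pool.Agent.H781.CM.FDefs

/-!
Definitions: sectional curvature, positive Ricci curvature, pinched sectional curvature, pinched
biorthogonal curvature.
-/

open Bundle Manifold ContDiff VectorField
open scoped Topology

set_option autoImplicit false

noncomputable section

namespace Pool.Agent.H781.H6

open Pool.Agent.H821R2 Pool.Agent.H781.S22

variable {E : Type*} [NormedAddCommGroup E] [NormedSpace ℝ E]
  {H : Type*} [TopologicalSpace H] {I : ModelWithCorners ℝ E H}
  {M : Type*} [TopologicalSpace M] [ChartedSpace H M] [IsManifold I ∞ M]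

/-- `⟨R(u, v) v, u⟩`: the sectional curvature of the plane of two orthonormal tangent vectors -/
def sec (g : ContMDiffRiemannianMetric I ∞ E (fun x : M => TangentSpace I x)) (R : CurvField I M)
    (x : M) (u v : TangentSpace I x) : ℝ := g.inner x (R x u v v) u

/-- The Levi-Civita connection and the Riemann tensor exist, and `Q` holds for them at every
point. -/
def AtEveryPoint (g : ContMDiffRiemannianMetric I ∞ E (fun x : M => TangentSpace I x))
    (Q : CurvField I M → M → Prop) : Prop :=
  (∃ (cov : CovariantDerivative I E (TangentSpace I : M → Type _)) (R : CurvField I M),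
    IsLeviCivita g cov ∧ IsRiemannTensor cov R) ∧
  ∀ (cov : CovariantDerivative I E (TangentSpace I : M → Type _)) (R : CurvField I M),
    IsLeviCivita g cov → IsRiemannTensor cov R → ∀ x : M, Q R x

/-- Positive Ricci curvature of an `n`-dimensional manifold: `Ric(v, v) = ∑_i ⟨R(f_i, v) v, f_i⟩`
is positive for `v ≠ 0`, where `f` is any orthonormal frame of `T_x M`. -/
def RicciPos (n : ℕ) (g : ContMDiffRiemannianMetric I ∞ E (fun x : M => TangentSpace I x)) :
    Prop :=
  AtEveryPoint g fun R x => ∀ f : Fin n → TangentSpace I x, IsOrthonormalFrame g x f →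
    ∀ v : TangentSpace I x, v ≠ 0 → 0 < ∑ i, sec g R x (f i) v

/-- Pointwise pinched biorthogonal curvature: at every point there are `δ > 0` and
`Δ < (31 / 4) δ` such that the mean of the sectional curvatures of any two orthogonal planes is
between `δ` and `Δ`. -/
def BiorthPinched (g : ContMDiffRiemannianMetric I ∞ E (fun x : M => TangentSpace I x)) : Prop :=
  AtEveryPoint g fun R x => ∃ δ Δ : ℝ, 0 < δ ∧ Δ < 31 / 4 * δ ∧
    ∀ f : Fin 4 → TangentSpace I x, IsOrthonormalFrame g x f →
      δ ≤ (sec g R x (f 0) (f 1) + sec g R x (f 2) (f 3)) / 2 ∧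
      (sec g R x (f 0) (f 1) + sec g R x (f 2) (f 3)) / 2 ≤ Δ

/-- Pointwise pinched positive sectional curvature: at every point there are `δ > 0` and
`Δ < (31 / 4) δ` such that all sectional curvatures are between `δ` and `Δ`. -/
def SecPinched (g : ContMDiffRiemannianMetric I ∞ E (fun x : M => TangentSpace I x)) : Prop :=
  AtEveryPoint g fun R x => ∃ δ Δ : ℝ, 0 < δ ∧ Δ < 31 / 4 * δ ∧
    ∀ f : Fin 2 → TangentSpace I x, IsOrthonormalFrame g x f →
      δ ≤ sec g R x (f 0) (f 1) ∧ sec g R x (f 0) (f 1) ≤ Δ

end Pool.Agent.H781.H6
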