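import Pool.Agent.H781.CM.AllG
import Pool.Agent.H781.CM.Harm
import Pool.Agent.H781.CM.Bri
import Pool.Agent.H781.H6.A
import Pool.Agent.H781.H6.D

/-!
Project H6, geometric part: statements.
-/

set_option autoImplicit false
set_option synthInstance.maxHeartbeats 400000
set_option maxHeartbeats 4000000
set_option linter.unusedSectionVars false

open Bundle Manifold ContDiff VectorField MeasureTheory Filter
open scoped Topology

noncomputable section

namespace Pool.Agent.H781.H6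

open Pool.Agent.H781.NG Pool.Agent.H781.CM Pool.Agent.H821R2 Pool.Agent.H821R3
  Pool.Agent.H893R5.HO Pool.Agent.H781.S22

/-- vanishing theorem of Bochner -/
def S_VANC : Prop := ∀ (M : Type) [TopologicalSpace M] [CompactSpace M] [MeasurableSpace M]
  [BorelSpace M] (N : ℕ) (C : CD M N), Moll C → Dense2 C → Reg C → ∀ p : ℕ,
  (∀ u : Fk N C.A, Hor C u → Deg p u → ∀ x : M, (∃ S, C.ev x (u S) ≠ 0) →
    0 < C.ev x (ric C.F u)) → Subsingleton (Hp C p)

section frame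

variable {n : ℕ} {M : Type} [TopologicalSpace M] [ChartedSpace (EU n) M]
  [IsManifold (𝓡 n) ∞ M] [MeasurableSpace M] {N : ℕ}

/-- the curvature tensor in a frame at `x` -/
def Rpt (D : GD n M N) (x : M) (f : Fin n → TangentSpace (𝓡 n) x) : T4 n :=
  fun i j k l => D.g.inner x (D.R x (f i) (f j) (f k)) (f l)

/-- an orthonormal frame of `T_x M` as an orthonormal family in `ℝ^N` -/
structure IsFr (D : GD n M N) (x : M) (f : Fin n → TangentSpace (𝓡 n) x)
    (b : Fin n → Fin N → ℝ) : Prop where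
  orth : IsOrthonormalFrame D.g x f
  bX : ∀ i a, b i a = D.g.inner x (f i) (D.T.X a x)
  on : ON b
  P : ∀ a c, evA x (Pm D.T a c) = ∑ i, b i a * b i c
  R : ∀ i j k l, R4 (fun a b c d => evA x (Rm D.F a b c d)) (b i) (b j) (b k) (b l) =
    Rpt D x f i j k l
  ac : IsAC (Rpt D x f)

end frame

/-- existence of orthonormal frames -/
def S_FRM : Prop := ∀ (n : ℕ) (M : Type) [TopologicalSpace M] [T2Space M] [CompactSpace M]
  [ChartedSpace (EU n) M] [IsManifold (𝓡 n) ∞ M] [MeasurableSpace M] [BorelSpace M] (N : ℕ)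
  (D : GD n M N) (x : M), 1 ≤ n → ∃ f b, IsFr D x f b

/-- the Weitzenböck term in an orthonormal frame -/
def S_RICX : Prop := ∀ (n : ℕ) (M : Type) [TopologicalSpace M] [T2Space M] [CompactSpace M]
  [ChartedSpace (EU n) M] [IsManifold (𝓡 n) ∞ M] [MeasurableSpace M] [BorelSpace M] (N : ℕ)
  (D : GD n M N) (x : M) f b, IsFr D x f b → ∀ (p : ℕ) (u : Fk N D.C.A), Hor D.C u → Deg p u →
  ∃ u' : Fk n ℝ, Deg p u' ∧ evA x (ric D.F u) = rc (Rpt D x f) u' ∧
    ip u' u' = ∑ S, evA x (u S) ^ 2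

/-- transfer of the curvature conditions -/
def S_BIX : Prop := ∀ (n : ℕ) (M : Type) [TopologicalSpace M] [T2Space M] [CompactSpace M]
  [ChartedSpace (EU n) M] [IsManifold (𝓡 n) ∞ M] [MeasurableSpace M] [BorelSpace M] (N : ℕ)
  (D : GD n M N) (x : M) f b, IsFr D x f b →
  (∀ δ Δ : ℝ, (∀ e : Fin 4 → TangentSpace (𝓡 n) x, IsOrthonormalFrame D.g x e →
    δ ≤ (sec D.g D.R x (e 0) (e 1) + sec D.g D.R x (e 2) (e 3)) / 2 ∧
    (sec D.g D.R x (e 0) (e 1) + sec D.g D.R x (e 2) (e 3)) / 2 ≤ Δ) →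
    BiP (Rpt D x f) δ Δ) ∧
  ((∀ v : TangentSpace (𝓡 n) x, v ≠ 0 → 0 < ∑ i, sec D.g D.R x (f i) v) → RicP (Rpt D x f))

/-- the theorem -/
def S_MAIN6 : Prop := ∀ (M : Type) [TopologicalSpace M] [T2Space M] [CompactSpace M]
  [ConnectedSpace M] [ChartedSpace (EU 6) M] [IsManifold (𝓡 6) ∞ M] (g : Met 6 M),
  RicciPos 6 g → BiorthPinched g →
  ∃ b : ℕ → ℕ, (∀ p, F.IsBetti (𝓡 6) M p (b p)) ∧ b 1 = 0 ∧ b 3 = 0 ∧ b 5 = 0 ∧
    0 < ∑ p ∈ Finset.range 7, (-1 : ℤ) ^ p * (b p : ℤ)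

/-- pinched sectional curvature -/
def S_PIN6 : Prop := ∀ (M : Type) [TopologicalSpace M] [T2Space M] [CompactSpace M]
  [ConnectedSpace M] [ChartedSpace (EU 6) M] [IsManifold (𝓡 6) ∞ M] (g : Met 6 M),
  SecPinched g → RicciPos 6 g ∧ BiorthPinched g

end Pool.Agent.H781.H6
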