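import Pool.Agent.H781.H6.G
import Pool.Agent.H781.CM.All

/-!
The main theorem from the pointwise theorem and the vanishing theorem of Bochner.
-/

set_option autoImplicit false
set_option synthInstance.maxHeartbeats 400000
set_option maxHeartbeats 4000000
set_option linter.unusedSectionVars false

open Bundle Manifold ContDiff VectorField MeasureTheory Filter
open scoped Topology

noncomputable section

namespace Pool.Agent.H781.H6

open Pool.Agent.H781.NG Pool.Agent.H781.CM Pool.Agent.H821R2 Pool.Agent.H821R3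
  Pool.Agent.H893R5.HO Pool.Agent.H781.S22

namespace Main6

/-- the constant function 1 as a 0-form -/
def one (n : ℕ) (M : Type) [TopologicalSpace M] [ChartedSpace (EU n) M] : AF n M 0 :=
  fun _ => AlternatingMap.constOfIsEmpty ℝ _ (Fin 0) (1 : ℝ)

theorem one_apply {n : ℕ} {M : Type} [TopologicalSpace M] [ChartedSpace (EU n) M] (x : M)
    (v : Fin 0 → TangentSpace (𝓡 n) x) : one n M x v = 1 := rfl

theorem one_mem (n : ℕ) (M : Type) [TopologicalSpace M] [ChartedSpace (EU n) M]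
    [IsManifold (𝓡 n) ∞ M] : one n M ∈ ZF n M 0 := by
  refine ⟨fun Y _ => Sm.const 1, ?_⟩
  intro Y hY x
  unfold extD
  have h0 : ∀ j : Fin (0 + 1), der (Y j) (fun y => one n M y (fun k => j.removeNth Y k y)) x = 0 :=
    fun j => congrFun (der_const (Z := Y j) (1 : ℝ)) x
  rw [Finset.sum_congr rfl fun j _ => by rw [h0 j, Finset.univ_eq_empty, Finset.sum_empty,
    add_zero, mul_zero], Finset.sum_const_zero]
  rfl

theorem b0 (n : ℕ) (M : Type) [TopologicalSpace M] [ChartedSpace (EU n) M]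
    [IsManifold (𝓡 n) ∞ M] [Nonempty M] [Module.Finite ℝ (HF n M 0)] :
    0 < Module.finrank ℝ (HF n M 0) := by
  haveI : Nontrivial (HF n M 0) := by
    refine ⟨⟨Submodule.Quotient.mk ⟨one n M, one_mem n M⟩, 0, fun h => ?_⟩⟩
    rw [Submodule.Quotient.mk_eq_zero, Submodule.mem_comap] at h
    have h1 : one n M = 0 := h
    have x : M := Classical.arbitrary M
    have h2 : one n M x Fin.elim0 = 0 := by rw [h1]; rfl
    rw [one_apply] at h2
    exact one_ne_zero h2
  exact Module.finrank_pos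

/-- the middle Betti number and the first and the fifth one -/
theorem vanish (h1 : S_VANC) (h2 : S_FRM) (h3 : S_RICX) (h4 : S_BIX) (h5 : S_PW) (h6 : S_P15)
    {M : Type} [TopologicalSpace M] [T2Space M] [CompactSpace M] [ChartedSpace (EU 6) M]
    [IsManifold (𝓡 6) ∞ M] [MeasurableSpace M] [BorelSpace M] {N : ℕ} (D : GD 6 M N)
    (hR : RicciPos 6 D.g) (hB : BiorthPinched D.g) (hm : Moll D.C) (hd : Dense2 D.C)
    (hr : Reg D.C) {p : ℕ} (hp : p = 1 ∨ p = 3 ∨ p = 5) : Subsingleton (Hp D.C p) := by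
  refine h1 M N D.C hm hd hr p fun u hu hdg x hx => ?_
  obtain ⟨f, b, hf⟩ := h2 6 M N D x (by norm_num)
  obtain ⟨u', hd', he, hn⟩ := h3 6 M N D x f b hf p u hu hdg
  change 0 < evA x (ric D.F u)
  rw [he]
  have hpos : 0 < ip u' u' := by
    rw [hn]
    obtain ⟨S, hS⟩ := hx
    refine Finset.sum_pos' (fun _ _ => sq_nonneg _) ⟨S, Finset.mem_univ _, ?_⟩
    exact sq_pos_of_ne_zero hS
  have hu0 : u' ≠ 0 := by
    rintro rfl
    simp [ip] at hpos
  obtain ⟨hbi, hri⟩ := h4 6 M N D x f b hf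
  rcases hp with rfl | rfl | rfl
  · exact h6 _ hf.ac (hri fun v hv => hR.2 D.cov D.R D.lc D.rt x f hf.orth v hv) u' hu0 (Or.inl hd')
  · obtain ⟨δ, Δ, hδ, hΔ, hpi⟩ := hB.2 D.cov D.R D.lc D.rt x
    have key := h5 _ δ Δ hf.ac hδ (hbi δ Δ hpi) u' hd'
    have : 0 < 9 * δ - 4 / 3 * (Δ - δ) := by linarith
    exact lt_of_lt_of_le (mul_pos this hpos) key
  · exact h6 _ hf.ac (hri fun v hv => hR.2 D.cov D.R D.lc D.rt x f hf.orth v hv) u' hu0 (Or.inr hd')

end Main6

theorem s_main6 (h1 : S_VANC) (h2 : S_FRM) (h3 : S_RICX) (h4 : S_BIX) (h5 : S_PW) (h6 : S_P15) :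
    S_MAIN6 := by
  intro M _ _ _ _ _ _ g hR hB
  letI : MeasurableSpace M := borel M
  haveI : BorelSpace M := ⟨rfl⟩
  obtain ⟨N, hN, hD⟩ := gd 6 M (by norm_num)
  obtain ⟨cov, R, hlc, hrt⟩ := hR.1
  obtain ⟨D, rfl⟩ := hD g cov R hlc hrt
  have hm : Moll D.C := s_gmoll lmoll s_tkp 6 M N D (by norm_num)
  have hd : Dense2 D.C := s_gdense 6 M N D
  have hr : Reg D.C := greg 6 M N D (by norm_num)
  have hfin := (hodge M N D.C hm hd hr).1
  have hF : ∀ p, Module.Finite ℝ (HF 6 M p) := fun p => by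
    obtain ⟨e⟩ := gdr 6 M N D (by norm_num) p
    haveI := hfin p
    exact Module.Finite.equiv e.symm
  have hz : ∀ p, (p = 1 ∨ p = 3 ∨ p = 5) → Module.finrank ℝ (HF 6 M p) = 0 := fun p hp => by
    obtain ⟨e⟩ := gdr 6 M N D (by norm_num) p
    haveI := Main6.vanish h1 h2 h3 h4 h5 h6 D hR hB hm hd hr hp
    rw [e.finrank_eq]
    exact Module.finrank_zero_of_subsingleton
  refine ⟨fun p => Module.finrank ℝ (HF 6 M p), fun p => ?_, hz 1 (by simp), hz 3 (by simp),
    hz 5 (by simp), ?_⟩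
  · haveI := hF p
    exact isBetti p
  · haveI := hF 0
    have h0 := Main6.b0 6 M
    simp only [Finset.sum_range_succ, Finset.sum_range_zero, hz 1 (by simp), hz 3 (by simp),
      hz 5 (by simp)]
    have e : ∀ q : ℕ, (0 : ℤ) ≤ (Module.finrank ℝ (HF 6 M q) : ℤ) := fun q => by positivity
    have e2 := e 2
    have e4 := e 4
    have e6 := e 6
    have e0 : (0 : ℤ) < (Module.finrank ℝ (HF 6 M 0) : ℤ) := by exact_mod_cast h0
    norm_num
    linarith

end Pool.Agent.H781.H6
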