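import Pool.Agent.H781.H6.G

/-!
Project H6: vanishing theorem of Bochner.
-/

set_option autoImplicit false
set_option synthInstance.maxHeartbeats 400000
set_option maxHeartbeats 4000000
set_option linter.unusedSectionVars false

open Bundle Manifold ContDiff VectorField MeasureTheory Filter
open scoped Topology

noncomputable section

namespace Pool.Agent.H781.H6

open Pool.Agent.H781.NG Pool.Agent.H781.CM Pool.Agent.H821R2 Pool.Agent.H821R3
  Pool.Agent.H893R5.HO Pool.Agent.H781.S22

namespace Vanc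

variable {M : Type} [TopologicalSpace M] [CompactSpace M] [MeasurableSpace M] [BorelSpace M]
  {N : ℕ} (C : CD M N)

/-- the Weitzenböck term vanishes where the form vanishes -/
theorem ric_zero {h : Fk N C.A} {x : M} (hx : ∀ S, C.ev x (h S) = 0) :
    C.ev x (ric C.F h) = 0 := by
  have h0 : evF C x h = 0 := funext fun S => hx S
  unfold ric
  rw [map_neg, neg_eq_zero, map_sum]
  refine Finset.sum_eq_zero fun a _ => ?_
  rw [map_sum]
  refine Finset.sum_eq_zero fun b _ => ?_
  rw [map_sum]
  refine Finset.sum_eq_zero fun c _ => ?_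
  rw [map_sum]
  refine Finset.sum_eq_zero fun d _ => ?_
  rw [map_mul, ev_ip, evF_cr, evF_an, h0, map_zero, map_zero]
  have e : ip (0 : Fk N ℝ) (evF C x (cr d (an c h))) = 0 := by
    unfold ip
    refine Finset.sum_eq_zero fun S _ => ?_
    rw [Pi.zero_apply, zero_mul]
  rw [e, mul_zero]

/-- harmonic forms vanish -/
theorem harm_zero (p : ℕ)
    (hc : ∀ u : Fk N C.A, Hor C u → Deg p u → ∀ x : M, (∃ S, C.ev x (u S) ≠ 0) →
      0 < C.ev x (ric C.F u)) {h : Fk N C.A} (hh : h ∈ Hm C p) : h = 0 := by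
  obtain ⟨⟨⟨hH, hD⟩, hd⟩, he⟩ := hh
  have hd' : dd C.F h = 0 := hd
  have he' : de C.F h = 0 := he
  have hric : ∀ x, 0 ≤ C.ev x (ric C.F h) := by
    intro x
    by_cases hx : ∃ S, C.ev x (h S) ≠ 0
    · exact (hc h hH hD x hx).le
    · push Not at hx
      rw [ric_zero C hx]
  have hb := bochner C h
  have e1 : nq C (dd C.F h) = 0 := by
    rw [hd', ← pr_self, pr_zero_left]
  have e2 : nq C (de C.F h) = 0 := by
    rw [he', ← pr_self, pr_zero_left]
  rw [e1, e2, add_zero] at hb
  have h1 := en_nonneg C h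
  have h2 := ig_nonneg C hric
  have h3 : ig C (ric C.F h) = 0 := by linarith
  have h4 := ig_eq_zero C hric h3
  funext S
  refine C.ext_ev _ _ fun x => ?_
  by_contra hx
  have hx' : C.ev x (h S) ≠ 0 := by
    intro h0
    apply hx
    rw [h0]
    exact (map_zero (C.ev x)).symm
  have h5 := hc h hH hD x ⟨S, hx'⟩
  rw [h4, map_zero] at h5
  exact lt_irrefl 0 h5

end Vanc

/-- vanishing theorem of Bochner -/
theorem s_vanc : S_VANC := by
  intro M _ _ _ _ N C hM hD hR p hc
  obtain ⟨-, -, hZ, -⟩ := s_harm spec ddh M N C hM hD hR p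
  rw [Submodule.Quotient.subsingleton_iff, eq_top_iff]
  rintro ⟨u, hu⟩ -
  obtain ⟨h, hh, hb⟩ := hZ u hu
  rw [Vanc.harm_zero C p hc hh, sub_zero] at hb
  exact hb

end Pool.Agent.H781.H6
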